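import Pool.Agent.H6.EGF.Stat
import Pool.Agent.H6.EG.Sp2
import Pool.Agent.H6.EG.Mtx
import Pool.Agent.H6.EG.AbsJ
import Pool.Agent.H6.EG.SqJ
import Pool.Agent.H6.EG.MainJ
import Pool.Agent.H6.EG.Eqs

/-!
# MP_0e3417: the pair sums (rows E5a and E5, see there), from the dispersion estimate as an argument
-/

open Finset H69LB EG

namespace EGF

theorem e5a_lcf (D D' : Finset ℕ) (f f' : ℕ → ℝ) (p : ℕ → Prop) [DecidablePred p] (h : ℕ → ℝ) :
    ∑ B ∈ (lcD D D').filter p, lcf D D' f f' B * h B =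
      ∑ d ∈ (D ×ˢ D').filter (fun d => p (Nat.lcm d.1 d.2)), f d.1 * f' d.2 * h (Nat.lcm d.1 d.2) := by
  have h1 : ∑ B ∈ (lcD D D').filter p, lcf D D' f f' B * h B =
      ∑ B ∈ lcD D D', lcf D D' f f' B * (if p B then h B else 0) := by
    rw [Finset.sum_filter]
    refine sum_congr rfl fun B _ => ?_
    split_ifs <;> simp
  rw [h1, lcf_sum, ← Finset.sum_product', Finset.sum_filter]
  refine sum_congr rfl fun d _ => ?_
  split_ifs <;> simp

theorem e5a_cop (a b q : ℕ) : Nat.Coprime (Nat.lcm a b) q ↔ Nat.Coprime a q ∧ Nat.Coprime b q := by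
  constructor
  · intro h
    exact ⟨h.coprime_dvd_left (Nat.dvd_lcm_left a b), h.coprime_dvd_left (Nat.dvd_lcm_right a b)⟩
  · intro h
    exact (Nat.Coprime.mul_left h.1 h.2).coprime_dvd_left (Nat.lcm_dvd_mul a b)

theorem e5a_inner (Q R q : ℕ) (H : ℕ → ℕ → ℝ) :
    ∑ x ∈ (DB Q R).filter (fun x => Nat.Coprime x q),
      ∑ y ∈ (DB Q R).filter (fun y => Nat.Coprime y q ∧ Nat.Coprime x y), fB Q R x * fB Q R y * H x y =
    ∑ d ∈ ((sq Q R).filter (fun d => Nat.Coprime d q)) ×ˢ ((sq Q R).filter (fun d => Nat.Coprime d q)),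
      ∑ e ∈ (((sq Q R).filter (fun d => Nat.Coprime d q)) ×ˢ ((sq Q R).filter (fun d => Nat.Coprime d q))).filter
        (fun e => Nat.Coprime (Nat.lcm d.1 d.2) (Nat.lcm e.1 e.2)),
      lb Q R d.1 * lb Q R d.2 * (lb Q R e.1 * lb Q R e.2) * H (Nat.lcm d.1 d.2) (Nat.lcm e.1 e.2) := by
  have hS : ((sq Q R).filter (fun d => Nat.Coprime d q)) ×ˢ ((sq Q R).filter (fun d => Nat.Coprime d q)) =
      ((sq Q R) ×ˢ (sq Q R)).filter (fun p => Nat.Coprime (Nat.lcm p.1 p.2) q) := by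
    ext p
    simp only [mem_product, mem_filter, e5a_cop]
    tauto
  rw [hS]
  have h1 : ∑ x ∈ (DB Q R).filter (fun x => Nat.Coprime x q),
      ∑ y ∈ (DB Q R).filter (fun y => Nat.Coprime y q ∧ Nat.Coprime x y), fB Q R x * fB Q R y * H x y =
      ∑ x ∈ (DB Q R).filter (fun x => Nat.Coprime x q), fB Q R x *
        (∑ y ∈ (DB Q R).filter (fun y => Nat.Coprime y q ∧ Nat.Coprime x y), fB Q R y * H x y) := by
    refine sum_congr rfl fun x _ => ?_
    rw [mul_sum]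
    refine sum_congr rfl fun y _ => ?_
    ring
  have h2 := e5a_lcf (sq Q R) (sq Q R) (lb Q R) (lb Q R) (fun x => Nat.Coprime x q)
    (fun x => ∑ y ∈ (DB Q R).filter (fun y => Nat.Coprime y q ∧ Nat.Coprime x y), fB Q R y * H x y)
  refine (h1.trans h2).trans ?_
  refine sum_congr rfl fun d _ => ?_
  have h3 := e5a_lcf (sq Q R) (sq Q R) (lb Q R) (lb Q R)
    (fun y => Nat.Coprime y q ∧ Nat.Coprime (Nat.lcm d.1 d.2) y) (fun y => H (Nat.lcm d.1 d.2) y)
  have h4 : ∑ y ∈ (DB Q R).filter (fun y => Nat.Coprime y q ∧ Nat.Coprime (Nat.lcm d.1 d.2) y),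
      fB Q R y * H (Nat.lcm d.1 d.2) y = _ := h3
  rw [h4, filter_filter, mul_sum]
  refine sum_congr rfl fun e _ => ?_
  ring

theorem e5a_upd {ι : Type} [Fintype ι] [DecidableEq ι] {M : Type} [CommMonoid M] {i j : ι} (hij : i ≠ j)
    (B : ι → ℕ) (x y : ℕ) (F : ι → ℕ → M) :
    ∏ l, F l (Function.update (Function.update B i x) j y l) =
      F i x * F j y * ∏ l ∈ (univ.erase j).erase i, F l (B l) := by
  rw [← Finset.mul_prod_erase univ _ (mem_univ j),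
    ← Finset.mul_prod_erase (univ.erase j) _ (mem_erase.mpr ⟨hij, mem_univ i⟩)]
  rw [Function.update_self, Function.update_of_ne hij, Function.update_self, ← mul_assoc, mul_comm (F j y)]
  congr 1
  refine prod_congr rfl fun l hl => ?_
  rw [mem_erase, mem_erase] at hl
  rw [Function.update_of_ne hl.2.1, Function.update_of_ne hl.1]

theorem e5a_q {ι : Type} [Fintype ι] [DecidableEq ι] {i j : ι} (hij : i ≠ j)
    (B : ι → ℕ) (hi : B i = 1) (hj : B j = 1) :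
    ∏ l, B l = ∏ l ∈ (univ.erase j).erase i, B l := by
  rw [← Finset.mul_prod_erase univ _ (mem_univ j),
    ← Finset.mul_prod_erase (univ.erase j) _ (mem_erase.mpr ⟨hij, mem_univ i⟩), hi, hj, one_mul, one_mul]

theorem e5a_fix {ι : Type} [Fintype ι] [DecidableEq ι] {Q R : ℕ} {T : ℝ} {a : ι → ℕ}
    (hF : Forms Q a (fun _ => 1)) (φ : ℝ → ℝ) {i j : ι} (hij : i ≠ j) (D : ι → Finset ℕ) (f : ι → ℕ → ℝ) (ci cj : ℝ)
    (hDi : D i = DB Q R) (hDj : D j = DB Q R) (hfi : ∀ B, f i B = ci * fB Q R B) (hfj : ∀ B, f j B = cj * fB Q R B)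
    (B : ι → ℕ) (hBi : B i = 1) (hBj : B j = 1) (hB : ∀ l, 1 ≤ B l ∧ Nat.Coprime (B l) Q)
    (hc : ∀ k l, k ≠ l → Nat.Coprime (B k) (B l)) :
    ∃ ρ : ℕ, ∑ x ∈ (D i).filter (fun x => Nat.Coprime x (∏ l, B l)),
        ∑ y ∈ (D j).filter (fun y => Nat.Coprime y (∏ l, B l) ∧ Nat.Coprime x y),
        (∏ l, f l (Function.update (Function.update B i x) j y l)) *
          (∑ t ∈ (rT T).filter (fun t => ∀ l, Function.update (Function.update B i x) j y l ∣ a l * t + 1),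
            φ ((t : ℝ) / T) -
            T * (∫ x, φ x) / ∏ l, (Function.update (Function.update B i x) j y l : ℝ)) =
      (∏ l ∈ (univ.erase j).erase i, f l (B l)) * (ci * cj) *
      ∑ d ∈ ((sq Q R).filter (fun d => Nat.Coprime d (∏ l, B l))) ×ˢ ((sq Q R).filter (fun d => Nat.Coprime d (∏ l, B l))),
      ∑ e ∈ (((sq Q R).filter (fun d => Nat.Coprime d (∏ l, B l))) ×ˢ ((sq Q R).filter (fun d => Nat.Coprime d (∏ l, B l)))).filter
        (fun e => Nat.Coprime (Nat.lcm d.1 d.2) (Nat.lcm e.1 e.2)),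
      lb Q R d.1 * lb Q R d.2 * (lb Q R e.1 * lb Q R e.2) *
        (NDE φ T (a i) (a j) (∏ l, B l) ρ (Nat.lcm d.1 d.2) (Nat.lcm e.1 e.2) -
              T * (∫ x, φ x) / ((Nat.lcm d.1 d.2 : ℝ) * (Nat.lcm e.1 e.2 : ℝ) * ((∏ l, B l : ℕ) : ℝ))) := by
  obtain ⟨ρ, hρ⟩ := crtB hF hB hc
  refine ⟨ρ, ?_⟩
  rw [← e5a_inner Q R (∏ l, B l) (fun x y => NDE φ T (a i) (a j) (∏ l, B l) ρ x y -
              T * (∫ x, φ x) / ((x : ℝ) * (y : ℝ) * ((∏ l, B l : ℕ) : ℝ))), hDi, hDj, mul_sum]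
  refine sum_congr rfl fun x _ => ?_
  rw [mul_sum]
  refine sum_congr rfl fun y _ => ?_
  have h1 : ∏ l, f l (Function.update (Function.update B i x) j y l) =
      f i x * f j y * ∏ l ∈ (univ.erase j).erase i, f l (B l) := e5a_upd hij B x y f
  have h2 : ∏ l, (Function.update (Function.update B i x) j y l : ℝ) =
      (x : ℝ) * y * ∏ l ∈ (univ.erase j).erase i, (B l : ℝ) := e5a_upd hij B x y (fun _ k => (k : ℝ))
  have h3 : ((∏ l, B l : ℕ) : ℝ) = ∏ l ∈ (univ.erase j).erase i, (B l : ℝ) := by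
    rw [e5a_q hij B hBi hBj, Nat.cast_prod]
  have h4 : ∑ t ∈ (rT T).filter (fun t => ∀ l, Function.update (Function.update B i x) j y l ∣ a l * t + 1),
            φ ((t : ℝ) / T) = NDE φ T (a i) (a j) (∏ l, B l) ρ x y := by
    unfold NDE rT
    refine sum_congr (filter_congr fun t _ => ?_) fun _ _ => rfl
    rw [← hρ t]
    constructor
    · intro h
      refine ⟨?_, ?_, ?_⟩
      · intro l
        by_cases hli : l = i
        · rw [hli, hBi]; exact one_dvd _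
        by_cases hlj : l = j
        · rw [hlj, hBj]; exact one_dvd _
        have := h l
        rw [Function.update_of_ne hlj, Function.update_of_ne hli] at this
        exact this
      · have := h i
        rw [Function.update_of_ne hij, Function.update_self] at this
        exact this
      · have := h j
        rw [Function.update_self] at this
        exact this
    · rintro ⟨h5, h6, h7⟩ l
      by_cases hlj : l = j
      · rw [hlj, Function.update_self]; exact h7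
      by_cases hli : l = i
      · rw [hli, Function.update_of_ne hij, Function.update_self]; exact h6
      rw [Function.update_of_ne hlj, Function.update_of_ne hli]
      exact h5 l
  rw [h1, h2, h4, h3, hfi, hfj]
  ring

theorem e5a_good (Q z : ℕ) : Good Q (sq Q z) := by
  intro B hB
  rw [EG.sq, mem_filter] at hB
  exact hB.2

theorem e5a_vp {v0 : ℝ} (hv0 : 0 < v0) (k : ℕ) : 0 < vv v0 k := by
  unfold vv
  positivity

theorem e5a_DA {e0 v0 T : ℝ} (he0 : 0 < e0) (hv0 : 0 < v0) (hT : 1 ≤ T) {Q k k' B : ℕ} (hB : B ∈ DA e0 v0 T Q k k') :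
    (B : ℝ) ≤ T ^ (e0 * (vv v0 k + vv v0 k')) := by
  have hTp : 0 < T := by linarith
  rw [DA, lcD, mem_image] at hB
  obtain ⟨p, hp, rfl⟩ := hB
  rw [mem_product, EG.sq, EG.sq, mem_filter, mem_filter, mem_Icc, mem_Icc] at hp
  obtain ⟨⟨⟨h1, h2⟩, _⟩, ⟨h3, h4⟩, _⟩ := hp
  have h5 : Nat.lcm p.1 p.2 ≤ p.1 * p.2 := Nat.le_of_dvd (Nat.mul_pos h1 h3) (Nat.lcm_dvd_mul _ _)
  have h6 : (p.1 : ℝ) ≤ T ^ (e0 * vv v0 k) := by
    have : (p.1 : ℝ) ≤ (zz e0 v0 T k : ℝ) := by exact_mod_cast h2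
    refine this.trans ?_
    unfold zz
    exact Nat.floor_le (by positivity)
  have h7 : (p.2 : ℝ) ≤ T ^ (e0 * vv v0 k') := by
    have : (p.2 : ℝ) ≤ (zz e0 v0 T k' : ℝ) := by exact_mod_cast h4
    refine this.trans ?_
    unfold zz
    exact Nat.floor_le (by positivity)
  calc ((Nat.lcm p.1 p.2 : ℕ) : ℝ) ≤ (p.1 : ℝ) * p.2 := by exact_mod_cast h5
    _ ≤ T ^ (e0 * vv v0 k) * T ^ (e0 * vv v0 k') := mul_le_mul h6 h7 (Nat.cast_nonneg _) (by positivity)
    _ = T ^ (e0 * (vv v0 k + vv v0 k')) := by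
        rw [← Real.rpow_add hTp]
        congr 1
        ring

theorem e5a_big {v0 δ : ℝ} (hv0 : 0 < v0) (hδ : 0 < δ) (N : ℕ) : ∃ T1 : ℝ, ∀ T, T1 ≤ T → 1 ≤ T →
    (4 / v0 * (1 + Real.log T) ^ 3) ^ N ≤ T ^ (δ / 4) := by
  set s : ℝ := δ / (24 * (N + 1)) with hs
  have hN : (0 : ℝ) ≤ N := Nat.cast_nonneg N
  have hs0 : 0 < s := by positivity
  set A : ℝ := (4 / v0 * (1 + 1 / s) ^ 3) ^ N with hA
  have hA0 : 0 < A := by positivity
  refine ⟨A ^ (8 / δ), ?_⟩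
  intro T hT hT1
  have hTp : 0 < T := by linarith
  have hlog := Real.log_nonneg hT1
  have h1 : 1 + Real.log T ≤ (1 + 1 / s) * T ^ s := by
    have h2 := Real.log_le_rpow_div hTp.le hs0
    have h3 : 1 ≤ T ^ s := Real.one_le_rpow hT1 hs0.le
    have h4 : (1 + 1 / s) * T ^ s = T ^ s + T ^ s / s := by ring
    linarith
  have h5 : (4 / v0 * (1 + Real.log T) ^ 3) ^ N ≤ A * (T ^ s) ^ (3 * N) := by
    have h6 : 4 / v0 * (1 + Real.log T) ^ 3 ≤ 4 / v0 * ((1 + 1 / s) * T ^ s) ^ 3 := by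
      apply mul_le_mul_of_nonneg_left _ (by positivity)
      exact pow_le_pow_left₀ (by linarith) h1 3
    calc (4 / v0 * (1 + Real.log T) ^ 3) ^ N ≤ (4 / v0 * ((1 + 1 / s) * T ^ s) ^ 3) ^ N :=
          pow_le_pow_left₀ (by positivity) h6 N
      _ = A * (T ^ s) ^ (3 * N) := by
          rw [hA, mul_pow, mul_pow, mul_pow, mul_pow, ← pow_mul, ← pow_mul]
          ring
  have h7 : (T ^ s) ^ (3 * N) ≤ T ^ (δ / 8) := by
    rw [← Real.rpow_natCast, ← Real.rpow_mul hTp.le]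
    apply Real.rpow_le_rpow_of_exponent_le hT1
    push_cast
    rw [hs, div_mul_eq_mul_div, div_le_div_iff₀ (by positivity) (by norm_num)]
    nlinarith
  have h8 : A ≤ T ^ (δ / 8) := by
    have h9 : (A ^ (8 / δ)) ^ (δ / 8) ≤ T ^ (δ / 8) := Real.rpow_le_rpow (by positivity) hT (by positivity)
    have h10 : (A ^ (8 / δ)) ^ (δ / 8) = A := by
      rw [← Real.rpow_mul hA0.le]
      have : 8 / δ * (δ / 8) = 1 := by field_simp
      rw [this, Real.rpow_one]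
    linarith
  refine h5.trans ?_
  calc A * (T ^ s) ^ (3 * N) ≤ T ^ (δ / 8) * T ^ (δ / 8) := mul_le_mul h8 h7 (by positivity) (by positivity)
    _ = T ^ (δ / 4) := by
        rw [← Real.rpow_add hTp]
        congr 1
        ring

theorem e5a (hdps : DispS) {η : ℝ} {φ : ℝ → ℝ} (hφ : Wt η φ) {r : ℝ} (hr0 : 0 < r) (hr : r < 3 / 11) :
    ∃ δ : ℝ, 0 < δ ∧ δ ≤ 1 ∧ ∀ e0 v0 : ℝ, 0 < e0 → 4 * e0 ≤ δ → 0 < v0 → ∀ (m : ℕ) (ι : Type) [Fintype ι] [DecidableEq ι]
      (Q : ℕ) (a : ι → ℕ), SForms Q a → ∃ T0 : ℝ, ∀ T, T0 ≤ T → ∀ P : ℕ, P.Prime → ¬ P ∣ Q → ∀ i j : ι, i ≠ j →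
      ∀ n ∈ AS ι v0 m, ∀ n' ∈ AS ι v0 m,
        |∑ t ∈ rT T, φ ((t : ℝ) / T) * ∏ l, Fn (DJ e0 v0 T (Q * P) (Rr r T) {i, j} n n' l)
            (fJ e0 v0 T (Q * P) (Rr r T) {i, j} n n' l) (a l * t + 1) -
          T * (∫ x, φ x) * Mm (DJ e0 v0 T (Q * P) (Rr r T) {i, j} n n') (fJ e0 v0 T (Q * P) (Rr r T) {i, j} n n') 1| ≤
          T ^ (1 - δ / 4) := by
  classical
  obtain ⟨δd, hδd, hdisp⟩ := hdps hφ hr0 hr
  refine ⟨min δd 1, lt_min hδd one_pos, min_le_right _ _, ?_⟩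
  set δ : ℝ := min δd 1 with hδdef
  have hδ0 : 0 < δ := lt_min hδd one_pos
  have hδδ : δ ≤ δd := min_le_left _ _
  have hδ1 : δ ≤ 1 := min_le_right _ _
  intro e0 v0 he0 h4e hv0 m ι _ _ Q a hSF
  have he1 : e0 ≤ 1 := by linarith
  have hex : ∀ i j : ι, ∃ T0 : ℝ, i ≠ j → ∀ T, T0 ≤ T →
      ∀ q ρ : ℕ, 1 ≤ q → (q : ℝ) ≤ T ^ δd → Nat.Coprime q Q →
      ∀ S : Finset ℕ, (∀ d ∈ S, Squarefree d ∧ Nat.Coprime d (Q * q) ∧ (d : ℝ) ≤ T ^ r) →
      ∀ l l' : ℕ → ℝ, (∀ d, |l d| ≤ 1) → (∀ d, |l' d| ≤ 1) →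
        |∑ d ∈ S ×ˢ S, ∑ e ∈ (S ×ˢ S).filter (fun e => Nat.Coprime (Nat.lcm d.1 d.2) (Nat.lcm e.1 e.2)),
          l d.1 * l d.2 * (l' e.1 * l' e.2) *
            (NDE φ T (a i) (a j) q ρ (Nat.lcm d.1 d.2) (Nat.lcm e.1 e.2) -
              T * (∫ x, φ x) / ((Nat.lcm d.1 d.2 : ℝ) * (Nat.lcm e.1 e.2 : ℝ) * q))| ≤ T ^ (1 - δd) := by
    intro i j
    by_cases hij : i = j
    · exact ⟨0, fun h => absurd hij h⟩
    · obtain ⟨T0, hT0⟩ := hdisp Q (a i) (a j) (hSF.pos i) (hSF.pos j) (hSF.ne i j hij) (hSF.dvd i) (hSF.dvd j)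
        (hSF.diff i j hij)
      exact ⟨T0, fun _ => hT0⟩
  choose T0f hT0f using hex
  obtain ⟨T1, hT1⟩ := e5a_big hv0 hδ0 (2 * Fintype.card ι + 4)
  refine ⟨max (max 1 T1) (∑ i, ∑ j, |T0f i j|), ?_⟩
  intro T hT P hP hPQ i j hij n hn n' hn'
  have hT1' : 1 ≤ T := ((le_max_left _ _).trans (le_max_left _ _)).trans hT
  have hTT1 : T1 ≤ T := ((le_max_right _ _).trans (le_max_left _ _)).trans hT
  have hTsum : ∑ i, ∑ j, |T0f i j| ≤ T := (le_max_right _ _).trans hT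
  have hTf : T0f i j ≤ T := by
    refine le_trans ?_ hTsum
    refine (le_abs_self _).trans ?_
    refine (Finset.single_le_sum (f := fun j => |T0f i j|) (fun _ _ => abs_nonneg _) (mem_univ j)).trans ?_
    exact Finset.single_le_sum (f := fun i => ∑ j, |T0f i j|)
      (fun _ _ => sum_nonneg fun _ _ => abs_nonneg _) (mem_univ i)
  have hTp : 0 < T := by linarith
  have hbig := hT1 T hTT1 hT1'
  have hP1 : 1 ≤ P := hP.one_lt.le
  set Q' : ℕ := Q * P with hQ'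
  have hQ'1 : 1 ≤ Q' := Nat.mul_pos hSF.Q_pos hP1
  have hFm : Forms Q' a (fun _ => 1) := hSF.forms hP1
  set R : ℕ := Rr r T with hR
  have hR1 : 1 ≤ R := by
    rw [hR]
    unfold Rr
    exact Nat.le_floor (by exact_mod_cast Real.one_le_rpow hT1' hr0.le)
  have hRT : (R : ℝ) ≤ T ^ r := by
    rw [hR]
    unfold Rr
    exact Nat.floor_le (by positivity)
  set D : ι → Finset ℕ := DJ e0 v0 T Q' R {i, j} n n' with hD
  set f : ι → ℕ → ℝ := fJ e0 v0 T Q' R {i, j} n n' with hf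
  set C : ℝ := 4 / v0 * (1 + Real.log T) ^ 3 with hC
  have hlT := Real.log_nonneg hT1'
  have hC0 : 0 < C := by
    rw [hC]
    positivity
  have hs : ∀ {n : ι → ℕ}, n ∈ AS ι v0 m → ∑ i, vv v0 (n i) ≤ 1 := by
    intro n hn
    unfold AS at hn
    exact (mem_filter.1 hn).2
  have hle : ∀ {n : ι → ℕ}, n ∈ AS ι v0 m → ∀ i, vv v0 (n i) ≤ 1 := by
    intro n hn i
    exact (single_le_sum (f := fun i => vv v0 (n i)) (fun j _ => (e5a_vp hv0 _).le) (mem_univ i)).trans (hs hn)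
  have hC1 : 1 ≤ C := by
    have h1 : v0 ≤ 1 := by
      have h2 := hle hn i
      unfold vv at h2
      have h3 : (1 : ℝ) ≤ 2 ^ n i := one_le_pow₀ (by norm_num)
      nlinarith
    rw [hC]
    have h2 : 1 ≤ 4 / v0 := by
      rw [le_div_iff₀ hv0]
      linarith
    have h3 : (1 : ℝ) ≤ (1 + Real.log T) ^ 3 := one_le_pow₀ (by linarith)
    nlinarith
  have hDgood : ∀ l, Good Q' (D l) := by
    intro l
    rw [hD, DJ]
    split_ifs
    · exact good_lcD (e5a_good _ _) (e5a_good _ _)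
    · exact good_lcD (e5a_good _ _) (e5a_good _ _)
  have hDi : D i = DB Q' R := by
    rw [hD, DJ, if_pos (by simp)]
  have hDj : D j = DB Q' R := by
    rw [hD, DJ, if_pos (by simp)]
  have hfi : ∀ B, f i B = (la e0 v0 T Q' (n i) 1 * la e0 v0 T Q' (n' i) 1) * fB Q' R B := by
    intro B
    rw [hf, fJ, if_pos (by simp)]
  have hfj : ∀ B, f j B = (la e0 v0 T Q' (n j) 1 * la e0 v0 T Q' (n' j) 1) * fB Q' R B := by
    intro B
    rw [hf, fJ, if_pos (by simp)]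
  set Gf : (ι → ℕ) → ℝ := fun B => (∏ l, f l (B l)) *
      (∑ t ∈ (rT T).filter (fun t => ∀ l, B l ∣ a l * t + 1), φ ((t : ℝ) / T) -
        T * (∫ x, φ x) / ∏ l, (B l : ℝ)) with hGf
  have hkey : ∑ t ∈ rT T, φ ((t : ℝ) / T) * ∏ l, Fn (D l) (f l) (a l * t + 1) -
          T * (∫ x, φ x) * Mm D f 1 =
      ∑ B ∈ (Fintype.piFinset D).filter (fun B => ∀ a b, a ≠ b → Nat.Coprime (B a) (B b)), Gf B := by
    have h1 := mtx hFm hDgood (f := f) (rT T) (fun t => φ ((t : ℝ) / T))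
    have h2 : ∑ t ∈ rT T, φ ((t : ℝ) / T) * ∏ l, Fn (D l) (f l) (a l * t + 1) =
      ∑ B ∈ (Fintype.piFinset D).filter (fun B => ∀ i j, i ≠ j → Nat.Coprime (B i) (B j)),
        (∏ i, f i (B i)) * ∑ t ∈ (rT T).filter (fun t => ∀ i, B i ∣ a i * t + 1), φ ((t : ℝ) / T) := h1
    have h3 : Mm D f 1 = ∑ B ∈ (Fintype.piFinset D).filter (fun B => ∀ i j, i ≠ j → Nat.Coprime (B i) (B j)),
        ∏ i, f i (B i) / (B i : ℝ) := by
      unfold Mm
      refine sum_congr (filter_congr fun B _ => ?_) fun _ _ => rfl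
      simp
    rw [h2, h3, mul_sum, ← sum_sub_distrib]
    refine sum_congr rfl fun B _ => ?_
    rw [hGf, prod_div_distrib]
    ring
  rw [hkey, split2 D hij Gf]
  -- the index set
  set D0 : ι → Finset ℕ := Function.update (Function.update D i {1}) j {1} with hD0
  set K0 : ℝ := C ^ 4 * T ^ (1 - δ) with hK0
  have hK00 : 0 ≤ K0 := by positivity
  have hD0i : D0 i = {1} := by
    rw [hD0, Function.update_of_ne hij, Function.update_self]
  have hD0j : D0 j = {1} := by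
    rw [hD0, Function.update_self]
  have hD0l : ∀ l, l ≠ i → l ≠ j → D0 l = DA e0 v0 T Q' (n l) (n' l) := by
    intro l hli hlj
    rw [hD0, Function.update_of_ne hlj, Function.update_of_ne hli, hD, DJ, if_neg]
    simp [hli, hlj]
  have hvs : e0 * (∑ l, vv v0 (n l) + ∑ l, vv v0 (n' l)) ≤ 2 * e0 := by
    have h1 := hs hn
    have h2 := hs hn'
    nlinarith
  have hsumvv : ∑ l, e0 * (vv v0 (n l) + vv v0 (n' l)) = e0 * (∑ l, vv v0 (n l) + ∑ l, vv v0 (n' l)) := by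
    rw [← mul_sum, sum_add_distrib]
  have hone : ∀ l, 1 ≤ T ^ (e0 * (vv v0 (n l) + vv v0 (n' l))) := fun l =>
    Real.one_le_rpow hT1' (mul_nonneg he0.le (add_nonneg (e5a_vp hv0 _).le (e5a_vp hv0 _).le))
  have hterm : ∀ B ∈ (Fintype.piFinset D0).filter (fun B => ∀ a b, a ≠ b → Nat.Coprime (B a) (B b)),
      |∑ x ∈ (D i).filter (fun x => Nat.Coprime x (∏ l, B l)),
        ∑ y ∈ (D j).filter (fun y => Nat.Coprime y (∏ l, B l) ∧ Nat.Coprime x y),
          Gf (Function.update (Function.update B i x) j y)| ≤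
      (∏ l ∈ (univ.erase j).erase i, |f l (B l)|) * K0 := by
    intro B hB
    rw [mem_filter, Fintype.mem_piFinset] at hB
    obtain ⟨hBD, hBc⟩ := hB
    have hBi : B i = 1 := by
      have := hBD i
      rw [hD0i, mem_singleton] at this
      exact this
    have hBj : B j = 1 := by
      have := hBD j
      rw [hD0j, mem_singleton] at this
      exact this
    have hBg : ∀ l, 1 ≤ B l ∧ Nat.Coprime (B l) Q' := by
      intro l
      by_cases hli : l = i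
      · rw [hli, hBi]; exact ⟨le_rfl, Nat.coprime_one_left _⟩
      by_cases hlj : l = j
      · rw [hlj, hBj]; exact ⟨le_rfl, Nat.coprime_one_left _⟩
      have h1 := hBD l
      rw [hD0, Function.update_of_ne hlj, Function.update_of_ne hli] at h1
      have h2 := hDgood l (B l) h1
      exact ⟨Nat.pos_of_ne_zero h2.1.ne_zero, h2.2⟩
    obtain ⟨ρ, hρ⟩ := e5a_fix (T := T) hFm φ hij D f _ _ hDi hDj hfi hfj B hBi hBj hBg hBc
    have hq1 : 1 ≤ ∏ l, B l := Nat.pos_of_ne_zero (prod_ne_zero_iff.mpr fun l _ => by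
      have := (hBg l).1
      omega)
    have hqco : Nat.Coprime (∏ l, B l) Q' := Nat.Coprime.prod_left fun l _ => (hBg l).2
    have hqT : ((∏ l, B l : ℕ) : ℝ) ≤ T ^ δd := by
      rw [Nat.cast_prod]
      calc ∏ l, (B l : ℝ) ≤ ∏ l, T ^ (e0 * (vv v0 (n l) + vv v0 (n' l))) := by
            refine prod_le_prod (fun _ _ => Nat.cast_nonneg _) fun l _ => ?_
            by_cases hli : l = i
            · rw [hli, hBi, Nat.cast_one]; exact hone i
            by_cases hlj : l = j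
            · rw [hlj, hBj, Nat.cast_one]; exact hone j
            have h1 := hBD l
            rw [hD0l l hli hlj] at h1
            exact e5a_DA he0 hv0 hT1' h1
        _ = T ^ (e0 * (∑ l, vv v0 (n l) + ∑ l, vv v0 (n' l))) := by
            rw [← Real.rpow_sum_of_pos hTp, hsumvv]
        _ ≤ T ^ δd := by
            apply Real.rpow_le_rpow_of_exponent_le hT1'
            linarith
    have hdd := hT0f i j hij T hTf (∏ l, B l) ρ hq1 hqT (hqco.coprime_dvd_right (Dvd.intro _ rfl))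
      ((sq Q' R).filter (fun d => Nat.Coprime d (∏ l, B l))) (by
        intro d hd
        rw [mem_filter, EG.sq, mem_filter, mem_Icc] at hd
        obtain ⟨⟨⟨_, hdR⟩, hdsf, hdQ⟩, hdq⟩ := hd
        refine ⟨hdsf, Nat.Coprime.mul_right (hdQ.coprime_dvd_right (Dvd.intro _ rfl)) hdq, ?_⟩
        have : (d : ℝ) ≤ R := by exact_mod_cast hdR
        linarith) (lb Q' R) (lb Q' R) (fun d => lam_sel_le Q' R hR1 d) (fun d => lam_sel_le Q' R hR1 d)
    have hdd2 := hdd.trans (Real.rpow_le_rpow_of_exponent_le hT1' (by linarith : 1 - δd ≤ 1 - δ))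
    have hGG : ∑ x ∈ (D i).filter (fun x => Nat.Coprime x (∏ l, B l)),
        ∑ y ∈ (D j).filter (fun y => Nat.Coprime y (∏ l, B l) ∧ Nat.Coprime x y),
          Gf (Function.update (Function.update B i x) j y) = _ := hρ
    rw [hGG, abs_mul, abs_mul, Finset.abs_prod, abs_mul, abs_mul, abs_mul, mul_assoc]
    refine mul_le_mul_of_nonneg_left ?_ (prod_nonneg fun _ _ => abs_nonneg _)
    have hla := fun k => fun (hk : vv v0 k ≤ 1) => (la_abs he0 he1 hv0 hT1' Q' k hk).1 1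
    have a1 := hla (n i) (hle hn i)
    have a2 := hla (n' i) (hle hn' i)
    have a3 := hla (n j) (hle hn j)
    have a4 := hla (n' j) (hle hn' j)
    rw [← hC] at a1 a2 a3 a4
    have b1 : |la e0 v0 T Q' (n i) 1| * |la e0 v0 T Q' (n' i) 1| ≤ C * C :=
      mul_le_mul a1 a2 (abs_nonneg _) hC0.le
    have b2 : |la e0 v0 T Q' (n j) 1| * |la e0 v0 T Q' (n' j) 1| ≤ C * C :=
      mul_le_mul a3 a4 (abs_nonneg _) hC0.le
    have b3 : |la e0 v0 T Q' (n i) 1| * |la e0 v0 T Q' (n' i) 1| *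
        (|la e0 v0 T Q' (n j) 1| * |la e0 v0 T Q' (n' j) 1|) ≤ C ^ 4 := by
      have := mul_le_mul b1 b2 (by positivity) (by positivity)
      calc _ ≤ C * C * (C * C) := this
        _ = C ^ 4 := by ring
    rw [hK0]
    exact mul_le_mul b3 hdd2 (abs_nonneg _) (by positivity)
  refine (abs_sum_le_sum_abs _ _).trans ?_
  refine (sum_le_sum hterm).trans ?_
  rw [← sum_mul]
  have hsumC : ∑ B ∈ (Fintype.piFinset D0).filter (fun B => ∀ a b, a ≠ b → Nat.Coprime (B a) (B b)),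
      ∏ l ∈ (univ.erase j).erase i, |f l (B l)| ≤ C ^ (2 * Fintype.card ι) * T ^ (2 * e0) := by
    calc ∑ B ∈ (Fintype.piFinset D0).filter (fun B => ∀ a b, a ≠ b → Nat.Coprime (B a) (B b)),
        ∏ l ∈ (univ.erase j).erase i, |f l (B l)|
        ≤ ∑ B ∈ Fintype.piFinset D0, ∏ l ∈ (univ.erase j).erase i, |f l (B l)| :=
          sum_le_sum_of_subset_of_nonneg (filter_subset _ _)
            fun _ _ _ => prod_nonneg fun _ _ => abs_nonneg _
      _ = ∑ B ∈ Fintype.piFinset D0, ∏ l, (if l = i ∨ l = j then 1 else |f l (B l)|) := by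
          refine sum_congr rfl fun B _ => ?_
          have h1 : ∏ l ∈ (univ.erase j).erase i, |f l (B l)| =
              ∏ l ∈ (univ.erase j).erase i, (if l = i ∨ l = j then 1 else |f l (B l)|) := by
            refine prod_congr rfl fun l hl => ?_
            rw [mem_erase, mem_erase] at hl
            rw [if_neg]
            rintro (h | h)
            · exact hl.1 h
            · exact hl.2.1 h
          rw [h1]
          refine prod_subset (subset_univ _) fun l _ hl => ?_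
          rw [if_pos]
          by_contra hcon
          push Not at hcon
          exact hl (mem_erase.mpr ⟨hcon.1, mem_erase.mpr ⟨hcon.2, mem_univ l⟩⟩)
      _ = ∏ l, ∑ x ∈ D0 l, (if l = i ∨ l = j then 1 else |f l x|) := by
          rw [Finset.prod_univ_sum]
      _ ≤ ∏ l, C ^ 2 * T ^ (e0 * (vv v0 (n l) + vv v0 (n' l))) := by
          refine prod_le_prod (fun l _ => sum_nonneg fun x _ => ?_) fun l _ => ?_
          · split_ifs
            · exact zero_le_one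
            · exact abs_nonneg _
          · have hCC : 1 ≤ C ^ 2 * T ^ (e0 * (vv v0 (n l) + vv v0 (n' l))) := by
              have h1 := hone l
              have h2 : 1 ≤ C ^ 2 := one_le_pow₀ hC1
              nlinarith
            by_cases hl : l = i ∨ l = j
            · simp only [if_pos hl]
              have hD1 : D0 l = {1} := by
                rcases hl with h | h
                · rw [h, hD0i]
                · rw [h, hD0j]
              rw [hD1, sum_singleton]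
              exact hCC
            · simp only [if_neg hl]
              push Not at hl
              rw [hD0l l hl.1 hl.2]
              have hfl : ∀ x, f l x = fA e0 v0 T Q' (n l) (n' l) x := by
                intro x
                rw [hf, fJ, if_neg]
                simp [hl.1, hl.2]
              rw [sum_congr rfl fun x _ => by rw [hfl x]]
              obtain ⟨_, c2⟩ := la_abs he0 he1 hv0 hT1' Q' (n l) (hle hn l)
              obtain ⟨_, d2⟩ := la_abs he0 he1 hv0 hT1' Q' (n' l) (hle hn' l)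
              rw [← hC] at c2 d2
              unfold DA fA
              refine (lcf_abs _ _ _ _).trans ?_
              have h0 : 0 ≤ ∑ d ∈ sq Q' (zz e0 v0 T (n' l)), |la e0 v0 T Q' (n' l) d| :=
                sum_nonneg fun _ _ => abs_nonneg _
              refine (mul_le_mul c2 d2 h0 (by positivity)).trans (le_of_eq ?_)
              rw [mul_add, Real.rpow_add hTp]
              ring
      _ = C ^ (2 * Fintype.card ι) * T ^ (e0 * (∑ l, vv v0 (n l) + ∑ l, vv v0 (n' l))) := by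
          rw [prod_mul_distrib, prod_const, card_univ, ← pow_mul, ← Real.rpow_sum_of_pos hTp, hsumvv]
      _ ≤ C ^ (2 * Fintype.card ι) * T ^ (2 * e0) := by
          apply mul_le_mul_of_nonneg_left _ (by positivity)
          exact Real.rpow_le_rpow_of_exponent_le hT1' hvs
  calc (∑ B ∈ (Fintype.piFinset D0).filter (fun B => ∀ a b, a ≠ b → Nat.Coprime (B a) (B b)),
      ∏ l ∈ (univ.erase j).erase i, |f l (B l)|) * K0
      ≤ (C ^ (2 * Fintype.card ι) * T ^ (2 * e0)) * K0 := mul_le_mul_of_nonneg_right hsumC hK00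
    _ = C ^ (2 * Fintype.card ι + 4) * (T ^ (2 * e0) * T ^ (1 - δ)) := by
        rw [hK0, pow_add]
        ring
    _ ≤ T ^ (δ / 4) * (T ^ (2 * e0) * T ^ (1 - δ)) := mul_le_mul_of_nonneg_right hbig (by positivity)
    _ = T ^ (δ / 4 + (2 * e0 + (1 - δ))) := by
        rw [← Real.rpow_add hTp, ← Real.rpow_add hTp]
    _ ≤ T ^ (1 - δ / 4) := by
        apply Real.rpow_le_rpow_of_exponent_le hT1'
        linarith

theorem e5_card (ι : Type) [Fintype ι] [DecidableEq ι] (v0 : ℝ) (m : ℕ) :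
    ((AS ι v0 m).card : ℝ) ≤ ((m + 1 : ℕ) : ℝ) ^ Fintype.card ι := by
  have h : (AS ι v0 m).card ≤ (m + 1) ^ Fintype.card ι := by
    unfold AS
    refine (Finset.card_filter_le _ _).trans ?_
    rw [Fintype.card_piFinset]
    simp
  exact_mod_cast h

theorem e5_T {δ : ℝ} (hδ : 0 < δ) {A ε : ℝ} (hA : 0 ≤ A) (hε : 0 < ε) : ∃ T2 : ℝ, 1 ≤ T2 ∧ ∀ T, T2 ≤ T →
    A * T ^ (1 - δ / 4) ≤ ε * T := by
  refine ⟨max 1 ((A / ε) ^ (4 / δ)), le_max_left _ _, fun T hT => ?_⟩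
  have hT1 : 1 ≤ T := (le_max_left _ _).trans hT
  have hT0 : 0 < T := by linarith
  have h1 : (A / ε) ^ (4 / δ) ≤ T := (le_max_right _ _).trans hT
  have h0 : 0 ≤ A / ε := div_nonneg hA hε.le
  have h2 : A / ε ≤ T ^ (δ / 4) := by
    have h3 : ((A / ε) ^ (4 / δ)) ^ (δ / 4) ≤ T ^ (δ / 4) :=
      Real.rpow_le_rpow (Real.rpow_nonneg h0 _) h1 (by positivity)
    have h4 : 4 / δ * (δ / 4) = 1 := by field_simp
    rwa [← Real.rpow_mul h0, h4, Real.rpow_one] at h3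
  have h5 : T ^ (1 - δ / 4) * T ^ (δ / 4) = T := by
    rw [← Real.rpow_add hT0]
    have : 1 - δ / 4 + δ / 4 = 1 := by ring
    rw [this, Real.rpow_one]
  have h6 : 0 ≤ T ^ (1 - δ / 4) := Real.rpow_nonneg hT0.le _
  calc A * T ^ (1 - δ / 4) = ε * ((A / ε) * T ^ (1 - δ / 4)) := by field_simp
    _ ≤ ε * (T ^ (δ / 4) * T ^ (1 - δ / 4)) := by gcongr
    _ = ε * T := by rw [mul_comm (T ^ (δ / 4)), h5]

theorem e5 (hdps : DispS) {η : ℝ} {φ : ℝ → ℝ} (hφ : Wt η φ) {r : ℝ} (hr0 : 0 < r) (hr : r < 3 / 11) :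
    ∃ δ : ℝ, 0 < δ ∧ δ ≤ 1 ∧ ∀ e0 v0 : ℝ, 0 < e0 → 4 * e0 ≤ δ → 0 < v0 → ∀ (m K : ℕ), 1 ≤ K → ∀ ε : ℝ, 0 < ε → ∃ w0 : ℕ,
      ∀ (ι : Type) [Fintype ι] [DecidableEq ι], Fintype.card ι = K → ∀ (Q : ℕ) (a : ι → ℕ), SForms Q a → Wide w0 Q →
      ∃ T0 : ℝ, ∀ T, T0 ≤ T → ∀ P : ℕ, P.Prime → ¬ P ∣ Q → Big e0 T (Q * P) → ∀ i j : ι, i ≠ j →
        |∑ t ∈ rT T, φ ((t : ℝ) / T) * (sM e0 v0 T m (Q * P) a (fun _ => 1) {i, j} t ^ 2 *
            (be (Q * P) (Rr r T) (a i * t + 1) * be (Q * P) (Rr r T) (a j * t + 1))) -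
          T * (∫ x, φ x) * ((e0 / r) ^ 2 * FI ι v0 m {i, j} * uu e0 T (Q * P) ^ K)| ≤ ε * T * uu e0 T (Q * P) ^ K := by
  obtain ⟨δ, hδ, hδ1, he5a⟩ := e5a hdps hφ hr0 hr
  refine ⟨δ, hδ, hδ1, ?_⟩
  intro e0 v0 he0 h4 hv0 m K hK ε hε
  have hI := hφ.int_pos
  obtain ⟨ε', hε'd⟩ : ∃ ε' : ℝ, ε' = ε / (2 * ((∫ x, φ x) + 1)) := ⟨_, rfl⟩
  have hε' : 0 < ε' := by
    rw [hε'd]
    positivity
  have hε'2 : (∫ x, φ x) * ε' ≤ ε / 2 := by
    rw [hε'd]
    have : (∫ x, φ x) * (ε / (2 * ((∫ x, φ x) + 1))) = (ε / 2) * ((∫ x, φ x) / ((∫ x, φ x) + 1)) := by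
      field_simp
    rw [this]
    have h1 : (∫ x, φ x) / ((∫ x, φ x) + 1) ≤ 1 := by
      rw [div_le_one (by linarith)]
      linarith
    nlinarith
  obtain ⟨T1, w0, hmain⟩ := mainJ he0 hv0 hr0 m K hK hε'
  refine ⟨w0, ?_⟩
  intro ι _ _ hcard Q a hSF hW
  obtain ⟨T0, hT0⟩ := he5a e0 v0 he0 h4 hv0 m ι Q a hSF
  obtain ⟨T2, hT21, hT2⟩ := e5_T hδ (A := ((m + 1 : ℕ) : ℝ) ^ K * ((m + 1 : ℕ) : ℝ) ^ K) (ε := ε / 2)
    (by positivity) (by positivity)
  obtain ⟨T3, hT31, hT3⟩ := eqs he0 (ε := 1) one_pos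
  refine ⟨max (max T0 T1) (max T2 T3), ?_⟩
  intro T hT P hP hPQ hB i j hij
  have hTT0 : T0 ≤ T := ((le_max_left _ _).trans (le_max_left _ _)).trans hT
  have hTT1 : T1 ≤ T := ((le_max_right _ _).trans (le_max_left _ _)).trans hT
  have hTT2 : T2 ≤ T := ((le_max_left _ _).trans (le_max_right _ _)).trans hT
  have hTT3 : T3 ≤ T := ((le_max_right _ _).trans (le_max_right _ _)).trans hT
  have hTpos : 0 < T := by linarith
  have hQP : 1 ≤ Q * P := Nat.mul_pos hSF.Q_pos hP.pos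
  have hWP : Wide w0 (Q * P) := ⟨hQP, fun p hp hpw => (hW.2 p hp hpw).trans (Dvd.intro _ rfl)⟩
  have hu1 : 1 ≤ uu e0 T (Q * P) := by
    have := (hT3 T hTT3 (Q * P) hQP hB).1
    simpa using this
  have huK : 1 ≤ uu e0 T (Q * P) ^ K := one_le_pow₀ hu1
  have hm := hmain ι hcard (Q * P) hQP hWP T hTT1 hB {i, j}
  rw [Finset.card_pair hij] at hm
  have hsq := sqJ e0 v0 T m (Q * P) (Rr r T) a (fun _ => 1) {i, j} (rT T) (fun t => φ ((t : ℝ) / T))
  simp only [Finset.prod_pair hij] at hsq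
  rw [hsq]
  have hE := fun n (hn : n ∈ AS ι v0 m) n' (hn' : n' ∈ AS ι v0 m) => hT0 T hTT0 P hP hPQ i j hij n hn n' hn'
  have hsum : |∑ n ∈ AS ι v0 m, ∑ n' ∈ AS ι v0 m, ∑ t ∈ rT T, φ ((t : ℝ) / T) *
        ∏ l, Fn (DJ e0 v0 T (Q * P) (Rr r T) {i, j} n n' l) (fJ e0 v0 T (Q * P) (Rr r T) {i, j} n n' l) (a l * t + 1) -
      T * (∫ x, φ x) * ∑ n ∈ AS ι v0 m, ∑ n' ∈ AS ι v0 m,
        Mm (DJ e0 v0 T (Q * P) (Rr r T) {i, j} n n') (fJ e0 v0 T (Q * P) (Rr r T) {i, j} n n') 1| ≤ ε / 2 * T := by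
    rw [Finset.mul_sum, ← Finset.sum_sub_distrib]
    have h1 : ∀ n ∈ AS ι v0 m, |(∑ n' ∈ AS ι v0 m, ∑ t ∈ rT T, φ ((t : ℝ) / T) *
        ∏ l, Fn (DJ e0 v0 T (Q * P) (Rr r T) {i, j} n n' l) (fJ e0 v0 T (Q * P) (Rr r T) {i, j} n n' l) (a l * t + 1)) -
        T * (∫ x, φ x) * ∑ n' ∈ AS ι v0 m,
        Mm (DJ e0 v0 T (Q * P) (Rr r T) {i, j} n n') (fJ e0 v0 T (Q * P) (Rr r T) {i, j} n n') 1| ≤
        ((m + 1 : ℕ) : ℝ) ^ K * T ^ (1 - δ / 4) := by
      intro n hn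
      rw [Finset.mul_sum, ← Finset.sum_sub_distrib]
      refine (Finset.abs_sum_le_sum_abs _ _).trans ?_
      refine (Finset.sum_le_card_nsmul _ _ _ (fun n' hn' => hE n hn n' hn')).trans ?_
      rw [nsmul_eq_mul]
      have h2 := e5_card ι v0 m
      rw [hcard] at h2
      exact mul_le_mul_of_nonneg_right h2 (Real.rpow_nonneg hTpos.le _)
    refine (Finset.abs_sum_le_sum_abs _ _).trans ?_
    refine (Finset.sum_le_card_nsmul _ _ _ h1).trans ?_
    rw [nsmul_eq_mul]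
    have h2 := e5_card ι v0 m
    rw [hcard] at h2
    have h3 : 0 ≤ ((m + 1 : ℕ) : ℝ) ^ K * T ^ (1 - δ / 4) := mul_nonneg (by positivity) (Real.rpow_nonneg hTpos.le _)
    calc ((AS ι v0 m).card : ℝ) * (((m + 1 : ℕ) : ℝ) ^ K * T ^ (1 - δ / 4))
        ≤ ((m + 1 : ℕ) : ℝ) ^ K * (((m + 1 : ℕ) : ℝ) ^ K * T ^ (1 - δ / 4)) := mul_le_mul_of_nonneg_right h2 h3
      _ = ((m + 1 : ℕ) : ℝ) ^ K * ((m + 1 : ℕ) : ℝ) ^ K * T ^ (1 - δ / 4) := by ring
      _ ≤ ε / 2 * T := hT2 T hTT2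
  have hTI : 0 ≤ T * (∫ x, φ x) := mul_nonneg hTpos.le hI.le
  have h5 : |T * (∫ x, φ x) * (∑ n ∈ AS ι v0 m, ∑ n' ∈ AS ι v0 m,
        Mm (DJ e0 v0 T (Q * P) (Rr r T) {i, j} n n') (fJ e0 v0 T (Q * P) (Rr r T) {i, j} n n') 1) -
        T * (∫ x, φ x) * ((e0 / r) ^ 2 * FI ι v0 m {i, j} * uu e0 T (Q * P) ^ K)| ≤ ε / 2 * T * uu e0 T (Q * P) ^ K := by
    rw [← mul_sub, abs_mul, abs_of_nonneg hTI]
    calc T * (∫ x, φ x) * _ ≤ T * (∫ x, φ x) * (ε' * uu e0 T (Q * P) ^ K) := mul_le_mul_of_nonneg_left hm hTI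
      _ = ((∫ x, φ x) * ε') * (T * uu e0 T (Q * P) ^ K) := by ring
      _ ≤ (ε / 2) * (T * uu e0 T (Q * P) ^ K) := mul_le_mul_of_nonneg_right hε'2 (by positivity)
      _ = ε / 2 * T * uu e0 T (Q * P) ^ K := by ring
  have h6 : ε / 2 * T ≤ ε / 2 * T * uu e0 T (Q * P) ^ K := le_mul_of_one_le_right (by positivity) huK
  refine (abs_sub_le _ (T * (∫ x, φ x) * ∑ n ∈ AS ι v0 m, ∑ n' ∈ AS ι v0 m,
        Mm (DJ e0 v0 T (Q * P) (Rr r T) {i, j} n n') (fJ e0 v0 T (Q * P) (Rr r T) {i, j} n n') 1) _).trans ?_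
  calc _ ≤ ε / 2 * T + ε / 2 * T * uu e0 T (Q * P) ^ K := add_le_add hsum h5
    _ ≤ ε / 2 * T * uu e0 T (Q * P) ^ K + ε / 2 * T * uu e0 T (Q * P) ^ K := by linarith
    _ = ε * T * uu e0 T (Q * P) ^ K := by ring

end EGF
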