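import Pool.Agent.H6.EGF.Sum
import Pool.Agent.H6.EGF.Pair
import Pool.Agent.H6.EG.CluA
import Pool.Agent.H6.EG.CluP
import Pool.Agent.H6.EG.ETr
import Pool.Agent.H6.EG.E3p
import Pool.Agent.H6.EG.FUb
import Pool.Agent.H6.EG.CfgC
import Pool.Agent.H6.EG.FormQ
import Pool.Agent.H6.EG.Win
import Pool.Agent.H6.EG.Red

/-!
# MP_0e3417: rows Clu, Hits and Last (see there), from the two equidistribution inputs as arguments
-/

open Finset H69LB EG

namespace EGF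

open Classical in
theorem Clu_abs {k : ℕ} (S : Finset ℕ) (f s0 : ℕ → ℝ) (s1 : Fin k → ℕ → ℝ) (s2 : Fin k → Fin k → ℕ → ℝ)
    (pr : Fin k → ℕ → Prop) (p b c : Fin k → ℕ → ℝ) (Hs : Finset ℕ)
    (hHs : ∀ t, t ∈ Hs ↔ t ∈ S ∧ ∃ j, pr j t) {B0 U ν F0 F1 F3 F5 F34 : ℝ}
    (hU : 0 ≤ U) (hν : 0 ≤ ν) (hF5 : 0 ≤ F5) (hB0 : 0 ≤ B0) (hf : ∀ t ∈ S, 0 ≤ f t)
    (hP : ∀ t ∈ S, f t ≠ 0 → ∀ j, (pr j t → p j t = 1 ∧ s0 t = s1 j t) ∧ (0 ≤ p j t ∧ p j t ≤ b j t) ∧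
      p j t ^ 2 ≤ B0 * b j t ∧ s0 t ^ 2 * p j t = s1 j t ^ 2 * p j t ∧
      (∀ i, i ≠ j → s0 t ^ 2 * (p i t * p j t) = s2 i j t ^ 2 * (p i t * p j t)) ∧
      b j t - c j t ≤ p j t)
    (E0 : ∑ t ∈ S, f t * s0 t ^ 2 ≤ F0 * U)
    (E1 : ∀ j, F1 * U ≤ ∑ t ∈ S.filter (pr j), f t * s1 j t ^ 2)
    (E3 : ∀ j, ∑ t ∈ S, f t * (s1 j t ^ 2 * b j t) ≤ F3 * U)
    (E34 : ∀ j, F34 * U ≤ ∑ t ∈ S, f t * (s1 j t ^ 2 * b j t) - ∑ t ∈ S, f t * (s1 j t ^ 2 * c j t))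
    (E5 : ∀ i j, i ≠ j → ∑ t ∈ S, f t * (s2 i j t ^ 2 * (b i t * b j t)) ≤ F5 * U) :
    k * F1 * U ≤ ν * ∑ t ∈ Hs, f t * s0 t ^ 2 +
      Real.sqrt ((F0 * U) * ((B0 * F3 * k + k ^ 2 * F5 - 2 * ν * (k * F34) + ν ^ 2 * F0) * U)) := by
  have hω : ∀ t ∈ S, 0 ≤ f t * s0 t ^ 2 := fun t ht => mul_nonneg (hf t ht) (sq_nonneg _)
  have hA := cluA S (fun t => f t * s0 t ^ 2) (fun t => ∑ j, if pr j t then 1 else 0)
    (fun t => ∑ j, p j t) (fun t => ∃ j, pr j t) ν hω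
    (by
      intro t _ hnot
      exact le_of_eq (Finset.sum_eq_zero fun j _ => if_neg fun h => hnot ⟨j, h⟩))
    (by
      intro t ht hne
      have hft : f t ≠ 0 := by
        intro h
        exact hne (by simp only [h, zero_mul])
      refine Finset.sum_le_sum fun j _ => ?_
      obtain ⟨h1, h2, _⟩ := hP t ht hft j
      split_ifs with h
      · rw [(h1 h).1]
      · exact h2.1)
  have hB : k * F1 * U ≤ ∑ t ∈ S, f t * s0 t ^ 2 * ∑ j, (if pr j t then (1 : ℝ) else 0) := by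
    have h1 : ∑ t ∈ S, f t * s0 t ^ 2 * ∑ j, (if pr j t then (1 : ℝ) else 0) =
        ∑ j, ∑ t ∈ S.filter (pr j), f t * s1 j t ^ 2 := by
      simp_rw [Finset.mul_sum]
      rw [Finset.sum_comm]
      refine Finset.sum_congr rfl fun j _ => ?_
      rw [Finset.sum_filter]
      refine Finset.sum_congr rfl fun t ht => ?_
      split_ifs with h
      · rw [mul_one]
        by_cases hft : f t = 0
        · rw [hft, zero_mul, zero_mul]
        · rw [((hP t ht hft j).1 h).2]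
      · rw [mul_zero]
    rw [h1]
    calc k * F1 * U = ∑ _j : Fin k, F1 * U := by
          rw [Finset.sum_const, Finset.card_univ, Fintype.card_fin, nsmul_eq_mul]
          ring
      _ ≤ _ := Finset.sum_le_sum fun j _ => E1 j
  have hC : k * F34 * U ≤ ∑ t ∈ S, f t * s0 t ^ 2 * ∑ j, p j t := by
    have h1 : ∑ t ∈ S, f t * s0 t ^ 2 * ∑ j, p j t = ∑ j, ∑ t ∈ S, f t * (s1 j t ^ 2 * p j t) := by
      simp_rw [Finset.mul_sum]
      rw [Finset.sum_comm]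
      refine Finset.sum_congr rfl fun j _ => Finset.sum_congr rfl fun t ht => ?_
      by_cases hft : f t = 0
      · rw [hft]
        ring
      · rw [← (hP t ht hft j).2.2.2.1]
        ring
    rw [h1]
    calc k * F34 * U = ∑ _j : Fin k, F34 * U := by
          rw [Finset.sum_const, Finset.card_univ, Fintype.card_fin, nsmul_eq_mul]
          ring
      _ ≤ _ := by
        refine Finset.sum_le_sum fun j _ => (E34 j).trans ?_
        rw [← Finset.sum_sub_distrib]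
        refine Finset.sum_le_sum fun t ht => ?_
        by_cases hft : f t = 0
        · rw [hft]
          simp
        · have h2 := (hP t ht hft j).2.2.2.2.2
          have h3 : f t * (s1 j t ^ 2 * b j t) - f t * (s1 j t ^ 2 * c j t) =
              f t * s1 j t ^ 2 * (b j t - c j t) := by ring
          rw [h3, ← mul_assoc]
          exact mul_le_mul_of_nonneg_left h2 (mul_nonneg (hf t ht) (sq_nonneg _))
  have hD : ∑ t ∈ S, f t * s0 t ^ 2 * (∑ j, p j t) ^ 2 ≤ (B0 * F3 * k + k ^ 2 * F5) * U := by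
    have h1 : ∑ t ∈ S, f t * s0 t ^ 2 * (∑ j, p j t) ^ 2 =
        ∑ i, ∑ j, ∑ t ∈ S, f t * (s0 t ^ 2 * (p i t * p j t)) := by
      have h0 : ∀ t, f t * s0 t ^ 2 * (∑ j, p j t) ^ 2 =
          ∑ i, ∑ j, f t * (s0 t ^ 2 * (p i t * p j t)) := by
        intro t
        rw [pow_two (∑ j, p j t), Finset.sum_mul_sum, Finset.mul_sum]
        refine Finset.sum_congr rfl fun i _ => ?_
        rw [Finset.mul_sum]
        refine Finset.sum_congr rfl fun j _ => ?_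
        ring
      rw [Finset.sum_congr rfl (fun t _ => h0 t), Finset.sum_comm]
      refine Finset.sum_congr rfl fun i _ => ?_
      rw [Finset.sum_comm]
    rw [h1]
    have h2 : ∀ i j, ∑ t ∈ S, f t * (s0 t ^ 2 * (p i t * p j t)) ≤
        (if i = j then B0 * F3 * U else 0) + F5 * U := by
      intro i j
      by_cases hij : i = j
      · subst hij
        rw [if_pos rfl]
        have h3 : ∑ t ∈ S, f t * (s0 t ^ 2 * (p i t * p i t)) ≤
            B0 * ∑ t ∈ S, f t * (s1 i t ^ 2 * b i t) := by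
          rw [Finset.mul_sum]
          refine Finset.sum_le_sum fun t ht => ?_
          by_cases hft : f t = 0
          · rw [hft]
            simp
          · obtain ⟨_, _, h4, h5, _⟩ := hP t ht hft i
            have h6 : f t * (s0 t ^ 2 * (p i t * p i t)) = f t * s1 i t ^ 2 * p i t ^ 2 := by
              rw [← mul_assoc (s0 t ^ 2), h5]
              ring
            rw [h6]
            calc f t * s1 i t ^ 2 * p i t ^ 2 ≤ f t * s1 i t ^ 2 * (B0 * b i t) :=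
                  mul_le_mul_of_nonneg_left h4 (mul_nonneg (hf t ht) (sq_nonneg _))
              _ = _ := by ring
        have h7 := mul_le_mul_of_nonneg_left (E3 i) hB0
        have h8 : 0 ≤ F5 * U := mul_nonneg hF5 hU
        linarith
      · rw [if_neg hij, zero_add]
        refine le_trans (Finset.sum_le_sum fun t ht => ?_) (E5 i j hij)
        by_cases hft : f t = 0
        · rw [hft]
          simp
        · obtain ⟨_, h3, _, _, h5, _⟩ := hP t ht hft j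
          obtain ⟨_, h4, _⟩ := hP t ht hft i
          rw [h5 i hij]
          refine mul_le_mul_of_nonneg_left (mul_le_mul_of_nonneg_left ?_ (sq_nonneg _)) (hf t ht)
          exact mul_le_mul h4.2 h3.2 h3.1 (h4.1.trans h4.2)
    calc ∑ i, ∑ j, ∑ t ∈ S, f t * (s0 t ^ 2 * (p i t * p j t))
        ≤ ∑ i : Fin k, ∑ j : Fin k, ((if i = j then B0 * F3 * U else 0) + F5 * U) :=
          Finset.sum_le_sum fun i _ => Finset.sum_le_sum fun j _ => h2 i j
      _ = ∑ _i : Fin k, (B0 * F3 * U + k * (F5 * U)) := by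
          refine Finset.sum_congr rfl fun i _ => ?_
          rw [Finset.sum_add_distrib, Finset.sum_ite_eq, if_pos (Finset.mem_univ i), Finset.sum_const,
            Finset.card_univ, Fintype.card_fin, nsmul_eq_mul]
      _ = _ := by
          rw [Finset.sum_const, Finset.card_univ, Fintype.card_fin, nsmul_eq_mul]
          ring
  have hV : ∑ t ∈ S, f t * s0 t ^ 2 * (∑ j, p j t - ν) ^ 2 ≤
      (B0 * F3 * k + k ^ 2 * F5 - 2 * ν * (k * F34) + ν ^ 2 * F0) * U := by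
    have h1 : ∑ t ∈ S, f t * s0 t ^ 2 * (∑ j, p j t - ν) ^ 2 =
        ∑ t ∈ S, f t * s0 t ^ 2 * (∑ j, p j t) ^ 2 - 2 * ν * ∑ t ∈ S, f t * s0 t ^ 2 * ∑ j, p j t +
          ν ^ 2 * ∑ t ∈ S, f t * s0 t ^ 2 := by
      rw [Finset.mul_sum, Finset.mul_sum, ← Finset.sum_sub_distrib, ← Finset.sum_add_distrib]
      refine Finset.sum_congr rfl fun t _ => ?_
      ring
    rw [h1]
    have h2 := mul_le_mul_of_nonneg_left hC (show 0 ≤ 2 * ν by positivity)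
    have h3 := mul_le_mul_of_nonneg_left E0 (sq_nonneg ν)
    linarith
  have hfe : ∀ inst : DecidablePred fun t => ∃ j, pr j t,
      @Finset.filter ℕ (fun t => ∃ j, pr j t) inst S = Hs := by
    intro inst
    ext t
    rw [Finset.mem_filter, hHs]
  refine hB.trans (hA.trans ?_)
  rw [hfe]
  have h9 : Real.sqrt ((∑ t ∈ S, f t * s0 t ^ 2) * ∑ t ∈ S, f t * s0 t ^ 2 * (∑ j, p j t - ν) ^ 2) ≤
      Real.sqrt ((F0 * U) * ((B0 * F3 * k + k ^ 2 * F5 - 2 * ν * (k * F34) + ν ^ 2 * F0) * U)) := by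
    refine Real.sqrt_le_sqrt ?_
    refine mul_le_mul E0 hV ?_ ((Finset.sum_nonneg hω).trans E0)
    exact Finset.sum_nonneg fun t ht => mul_nonneg (hω t ht) (sq_nonneg _)
  linarith

theorem Clu_eps {k bK ν S C ε : ℝ} (hb : 0 < bK) (hν : 0 < ν) (hε : 0 < ε) :
    ∃ s : ℝ, 0 < s ∧ s ≤ ε ∧ k * s + Real.sqrt ((bK + s) * (bK * ν ^ 2 * S + C * s)) ≤
      ν * bK * Real.sqrt S + ν * ε := by
  have hcont : Continuous fun s : ℝ => k * s + Real.sqrt ((bK + s) * (bK * ν ^ 2 * S + C * s)) := by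
    fun_prop
  have h0 : k * 0 + Real.sqrt ((bK + 0) * (bK * ν ^ 2 * S + C * 0)) = ν * bK * Real.sqrt S := by
    have h1 : (bK + 0) * (bK * ν ^ 2 * S + C * 0) = (ν * bK) ^ 2 * S := by ring
    rw [h1, Real.sqrt_mul (sq_nonneg _), Real.sqrt_sq (by positivity)]
    ring
  have h1 : ∀ᶠ s in nhdsWithin (0 : ℝ) (Set.Ioi 0),
      k * s + Real.sqrt ((bK + s) * (bK * ν ^ 2 * S + C * s)) < ν * bK * Real.sqrt S + ν * ε := by
    refine ((hcont.tendsto 0).mono_left nhdsWithin_le_nhds).eventually_lt_const ?_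
    rw [h0]
    have : 0 < ν * ε := by positivity
    linarith
  have h2 : ∀ᶠ s in nhdsWithin (0 : ℝ) (Set.Ioi 0), s ∈ Set.Ioc 0 ε := Ioc_mem_nhdsGT hε
  obtain ⟨s, hs1, hs2⟩ := (h1.and h2).exists
  exact ⟨s, hs2.1, hs2.2, hs1.le⟩

/-- the sum over the small primes -/
theorem Clu_c {S : Finset ℕ} {D : Finset ℕ} (f s b : ℕ → ℝ) (L : ℕ → ℕ) :
    ∑ t ∈ S, f t * (s t ^ 2 * ∑ p ∈ D, (if p ∣ L t then b t else 0)) =
      ∑ p ∈ D, ∑ t ∈ S.filter (fun t => p ∣ L t), f t * (s t ^ 2 * b t) := by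
  simp_rw [Finset.mul_sum]
  rw [Finset.sum_comm]
  refine Finset.sum_congr rfl fun p _ => ?_
  rw [Finset.sum_filter]
  refine Finset.sum_congr rfl fun t _ => ?_
  split_ifs <;> ring

theorem clu (hbvs : BVS) (hdps : DispS) {η : ℝ} {φ : ℝ → ℝ} (hφ : Wt η φ) {r : ℝ} (hr0 : 0 < r) (hr : r < 3 / 11) :
    ∃ δ : ℝ, 0 < δ ∧ ∀ e0 v0 : ℝ, 0 < e0 → 4 * e0 ≤ δ → e0 ≤ 1 / 16 → e0 ≤ r → 0 < v0 → ∀ m k M : ℕ, 1 ≤ k → 1 ≤ M → vv v0 m ≤ 1 / 2 →
      ∀ ε : ℝ, 0 < ε → ∃ w0 : ℕ, ∀ (Q : ℕ) (a : Fin M × Fin k → ℕ), SForms Q a → Wide w0 Q → ∃ T0 : ℝ, ∀ T, T0 ≤ T →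
      ∃ (Q' : ℕ) (U : ℝ), T * (∫ x, φ x) ≤ U ∧ 0 < U ∧
        ∑ t ∈ rT T, φ ((t : ℝ) / T) * sM e0 v0 T m Q' a (fun _ => 1) ∅ t ^ 2 ≤ (bI v0 m ^ (M * k) + ε) * U ∧
        ∀ l : Fin M,
          (bI v0 m ^ (M * k) * (r * (1 - 2 * (M * k : ℕ) * aI v0 m * v0) -
              Real.sqrt ((4 : ℝ) ^ (2 / e0) / (k * (e0 / r) * aI v0 m ^ 2 / bI v0 m) +
                2 * (2 * (M * k : ℕ) * aI v0 m * v0) + 2 * (e0 / r))) - ε) * U ≤
            ∑ t ∈ (rT T).filter (fun t => ∃ j : Fin k, (a (l, j) * t + 1).Prime),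
              φ ((t : ℝ) / T) * sM e0 v0 T m Q' a (fun _ => 1) ∅ t ^ 2 := by
  obtain ⟨δ, hδ, hδ1, he5⟩ := e5 hdps hφ hr0 hr
  refine ⟨δ, hδ, ?_⟩
  intro e0 v0 he0 h4 he16 her hv0 m k M hk hM hm ε hε
  have hI := hφ.int_pos
  obtain ⟨I, hIdef⟩ : ∃ I, I = ∫ x, φ x := ⟨_, rfl⟩
  rw [← hIdef] at hI
  obtain ⟨K, hKdef⟩ : ∃ K, K = M * k := ⟨_, rfl⟩
  have hK1 : 1 ≤ K := by rw [hKdef]; exact Nat.mul_pos hM hk
  have hcard : Fintype.card (Fin M × Fin k) = K := by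
    rw [Fintype.card_prod, Fintype.card_fin, Fintype.card_fin, hKdef]
  obtain ⟨bb, hbb⟩ : ∃ bb, bb = bI v0 m := ⟨_, rfl⟩
  obtain ⟨aa, haa⟩ : ∃ aa, aa = aI v0 m := ⟨_, rfl⟩
  have hbI : 0 < bb := by rw [hbb]; exact lt_of_lt_of_le (by positivity) (bI_ge hv0 m)
  have haI : 0 < aa := by rw [haa, aI_eq hv0]; positivity
  obtain ⟨x, hx⟩ : ∃ x, x = e0 / r := ⟨_, rfl⟩
  have hx0 : 0 < x := by rw [hx]; positivity
  have hx1 : x ≤ 1 := by rw [hx, div_le_one hr0]; exact her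
  have hxr : e0 = r * x := by rw [hx]; field_simp
  have hk0 : (1 : ℝ) ≤ k := by exact_mod_cast hk
  obtain ⟨κ', hκ'⟩ : ∃ κ' : ℝ, κ' = 2 * (K : ℕ) * aa * v0 := ⟨_, rfl⟩
  have hκ0 : 0 ≤ κ' := by rw [hκ']; positivity
  obtain ⟨ν, hν⟩ : ∃ ν : ℝ, ν = k * x * aa ^ 2 / bb := ⟨_, rfl⟩
  have hν0 : 0 < ν := by rw [hν]; positivity
  obtain ⟨B0, hB0⟩ : ∃ B0 : ℝ, B0 = (4 : ℝ) ^ (2 / e0) := ⟨_, rfl⟩
  have hB00 : 0 < B0 := by rw [hB0]; positivity
  obtain ⟨bK, hbK⟩ : ∃ bK : ℝ, bK = bb ^ K := ⟨_, rfl⟩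
  have hbK0 : 0 < bK := by rw [hbK]; positivity
  obtain ⟨S, hS⟩ : ∃ S : ℝ, S = B0 / ν + 2 * κ' + 2 * x := ⟨_, rfl⟩
  obtain ⟨s, hs, hsε, hsb⟩ := Clu_eps (k := k) (S := S)
    (C := B0 * k + (k : ℝ) ^ 2 + 4 * ν * k + ν ^ 2) hbK0 hν0 hε
  obtain ⟨Ta, wa, hTr⟩ := eTr hφ he0 (by linarith) hv0 hr0 (κ := 1 / 4) (by norm_num) m K hK1
    (ε := s * I) (by positivity)
  obtain ⟨Tb, wb, h3p⟩ := e3p hφ he0 (by linarith) hv0 hr0 (κ := 1 / 4) (by norm_num)
    (by linarith) m K hK1 hs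
  obtain ⟨wc, h2⟩ := e2 hbvs hφ he0 (by linarith) hv0 m K hK1 hs
  obtain ⟨wd, h5⟩ := he5 e0 v0 he0 h4 hv0 m K hK1 (s * I) (by positivity)
  refine ⟨max (max wa wb) (max wc wd), ?_⟩
  intro Q a hSF hW
  have hW' : ∀ w, w ≤ max (max wa wb) (max wc wd) → Wide w Q :=
    fun w hw => ⟨hW.1, fun p hp hpw => hW.2 p hp (hpw.trans hw)⟩
  have hwa : wa ≤ max (max wa wb) (max wc wd) := (le_max_left _ _).trans (le_max_left _ _)
  have hwb : wb ≤ max (max wa wb) (max wc wd) := (le_max_right _ _).trans (le_max_left _ _)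
  have hwc : wc ≤ max (max wa wb) (max wc wd) := (le_max_left _ _).trans (le_max_right _ _)
  have hwd : wd ≤ max (max wa wb) (max wc wd) := (le_max_right _ _).trans (le_max_right _ _)
  obtain ⟨Tc, hTc⟩ := h2 (Fin M × Fin k) hcard Q a hSF (hW' wc hwc) 1
  obtain ⟨Td, hTd⟩ := h5 (Fin M × Fin k) hcard Q a hSF (hW' wd hwd)
  obtain ⟨Te, hTe⟩ := cluP (v0 := v0) hφ he0 (by linarith) hv0 hr0 (by linarith) a hSF.pos
  obtain ⟨Tf, hTf1, hTf⟩ := eqs he0 (show (0 : ℝ) < 1 by norm_num)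
  refine ⟨max (max (max Ta Tb) (max Tc Td)) (max Te Tf), ?_⟩
  intro T hT
  have hTa : Ta ≤ T := (((le_max_left _ _).trans (le_max_left _ _)).trans (le_max_left _ _)).trans hT
  have hTb : Tb ≤ T := (((le_max_right _ _).trans (le_max_left _ _)).trans (le_max_left _ _)).trans hT
  have hTc' : Tc ≤ T := (((le_max_left _ _).trans (le_max_right _ _)).trans (le_max_left _ _)).trans hT
  have hTd' : Td ≤ T := (((le_max_right _ _).trans (le_max_right _ _)).trans (le_max_left _ _)).trans hT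
  have hTe' : Te ≤ T := ((le_max_left _ _).trans (le_max_right _ _)).trans hT
  have hTf' : Tf ≤ T := ((le_max_right _ _).trans (le_max_right _ _)).trans hT
  have hT0 : 0 < T := by linarith
  obtain ⟨P, hP, hP1, hPQ, hBig, hE2⟩ := hTc T hTc'
  obtain ⟨Q', hQ'⟩ : ∃ Q', Q' = Q * P := ⟨_, rfl⟩
  have hQ'1 : 1 ≤ Q' := by rw [hQ']; exact Nat.mul_pos hSF.Q_pos hP.pos
  have hforms : Forms Q' a (fun _ => 1) := by rw [hQ']; exact hSF.forms hP.one_lt.le
  have hWQ : ∀ w, w ≤ max (max wa wb) (max wc wd) → Wide w Q' :=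
    fun w hw => ⟨hQ'1, fun p hp hpw => by rw [hQ']; exact ((hW' w hw).2 p hp hpw).mul_right P⟩
  have hE5 := hTd T hTd' P hP hPQ hBig
  rw [← hQ', ← hIdef] at hE5
  rw [← hQ'] at hBig hE2
  rw [← hIdef] at hE2
  obtain ⟨u, hu⟩ : ∃ u, u = uu e0 T Q' := ⟨_, rfl⟩
  have hu1 : 1 ≤ u := by
    have := (hTf T hTf' Q' hQ'1 hBig).1
    rw [hu]
    simpa using this
  rw [← hu] at hE5 hE2
  obtain ⟨U, hU⟩ : ∃ U, U = T * I * u ^ K := ⟨_, rfl⟩
  have hU0 : 0 < U := by rw [hU]; positivity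
  have hFI0 : FI (Fin M × Fin k) v0 m ∅ ≤ bK := by
    have := FI_le hv0 m (Fin M × Fin k) ∅
    rw [Finset.card_empty, pow_zero, one_mul, tsub_zero, hcard, ← hbb, ← hbK] at this
    exact this
  obtain ⟨Jb, hJb⟩ : ∃ Jb : ℝ, Jb = aa ^ 2 * bK / bb := ⟨_, rfl⟩
  have hJb0 : 0 < Jb := by rw [hJb]; positivity
  have hpow1 : bb ^ (K - 1) = bK / bb := by
    rw [hbK, eq_div_iff hbI.ne', ← pow_succ]
    congr 1
    omega
  have hFI1 : ∀ j : Fin M × Fin k, FI (Fin M × Fin k) v0 m {j} ≤ Jb := by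
    intro j
    have := FI_le hv0 m (Fin M × Fin k) {j}
    rw [Finset.card_singleton, pow_one, hcard, ← hbb, ← haa, hpow1] at this
    rw [hJb]
    linarith [mul_div_assoc (aa ^ 2) bK bb]
  have hFI1' : ∀ j : Fin M × Fin k, (1 - κ') * Jb ≤ FI (Fin M × Fin k) v0 m {j} := by
    intro j
    have := FI_ge hv0 m hm (Fin M × Fin k) j
    rw [hcard, ← hbb, ← haa, hpow1, ← hκ'] at this
    rw [hJb, mul_div_assoc]
    exact this
  have hFI2 : ∀ i j : Fin M × Fin k, i ≠ j → FI (Fin M × Fin k) v0 m {i, j} ≤ aa ^ 4 * bK / bb ^ 2 := by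
    intro i j hij
    have h6 := FI_le hv0 m (Fin M × Fin k) {i, j}
    have hK2 : 2 ≤ K := by
      rw [← hcard, ← Finset.card_univ, ← Finset.card_pair hij]
      exact Finset.card_le_card (Finset.subset_univ _)
    have hpow2 : bb ^ (K - 2) = bK / bb ^ 2 := by
      rw [hbK, eq_div_iff (by positivity), ← pow_add]
      congr 1
      omega
    rw [Finset.card_pair hij, hcard, ← hbb, ← haa, hpow2] at h6
    refine h6.trans (le_of_eq ?_)
    ring
  have hE0 : ∑ t ∈ rT T, φ ((t : ℝ) / T) * sM e0 v0 T m Q' a (fun _ => 1) ∅ t ^ 2 ≤ (bK + s) * U := by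
    have h := hTr (Fin M × Fin k) hcard Q' a (fun _ => 1) hforms (hWQ wa hwa) T hTa hBig ∅ (by
      rw [Finset.card_empty]
      push_cast
      linarith)
    simp only [Finset.prod_empty, mul_one, Finset.card_empty, pow_zero, one_mul] at h
    rw [← hIdef, ← hu] at h
    have h1 := (abs_le.1 h).2
    have h2 : T * I * (FI (Fin M × Fin k) v0 m ∅ * u ^ K) ≤ T * I * (bK * u ^ K) := by gcongr
    rw [hU]
    linarith
  have hE3 : ∀ j : Fin M × Fin k, |∑ t ∈ rT T, φ ((t : ℝ) / T) *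
      (sM e0 v0 T m Q' a (fun _ => 1) {j} t ^ 2 * be Q' (Rr r T) (a j * t + 1)) -
        x * FI (Fin M × Fin k) v0 m {j} * U| ≤ s * U := by
    intro j
    have h := hTr (Fin M × Fin k) hcard Q' a (fun _ => 1) hforms (hWQ wa hwa) T hTa hBig {j} (by
      rw [Finset.card_singleton]
      push_cast
      linarith)
    simp only [Finset.prod_singleton, Finset.card_singleton, pow_one] at h
    rw [← hIdef, ← hu, ← hx] at h
    have e1 : T * I * (x * FI (Fin M × Fin k) v0 m {j} * u ^ K) = x * FI (Fin M × Fin k) v0 m {j} * U := by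
      rw [hU]
      ring
    have e2 : s * I * T * u ^ K = s * U := by
      rw [hU]
      ring
    rw [e1, e2] at h
    exact h
  have hE3p : ∀ j : Fin M × Fin k, ∑ t ∈ rT T, φ ((t : ℝ) / T) *
      (sM e0 v0 T m Q' a (fun _ => 1) {j} t ^ 2 *
        ∑ p ∈ (Icc 1 ⌊T ^ e0⌋₊).filter (fun p => p.Prime ∧ ¬ p ∣ Q'),
            (if p ∣ a j * t + 1 then be Q' (Rr r T) (a j * t + 1) else 0)) ≤
      (x ^ 2 * FI (Fin M × Fin k) v0 m {j} + s) * U := by
    intro j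
    have h := h3p (Fin M × Fin k) hcard Q' a (fun _ => 1) hforms (hWQ wb hwb) T hTb hBig j
    rw [← hIdef, ← hu, ← hx] at h
    rw [Clu_c (fun t : ℕ => φ ((t : ℝ) / T)) (fun t => sM e0 v0 T m Q' a (fun _ => 1) {j} t)
      (fun t => be Q' (Rr r T) (a j * t + 1)) (fun t => a j * t + 1)]
    refine h.trans (le_of_eq ?_)
    rw [hU]
    ring
  refine ⟨Q', U, ?_, hU0, ?_, ?_⟩
  · rw [← hIdef, hU]
    exact le_mul_of_one_le_right (by positivity) (one_le_pow₀ hu1)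
  · rw [← hbb, ← hKdef, ← hbK]
    refine hE0.trans ?_
    exact mul_le_mul_of_nonneg_right (by linarith) hU0.le
  · intro l
    have hinj : ∀ i j : Fin k, i ≠ j → ((l, i) : Fin M × Fin k) ≠ (l, j) := by
      intro i j hij h
      exact hij (Prod.mk.inj h).2
    have habs := Clu_abs (k := k) (rT T) (fun t => φ ((t : ℝ) / T))
      (fun t => sM e0 v0 T m Q' a (fun _ => 1) ∅ t)
      (fun j t => sM e0 v0 T m Q' a (fun _ => 1) {(l, j)} t)
      (fun i j t => sM e0 v0 T m Q' a (fun _ => 1) {(l, i), (l, j)} t)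
      (fun j t => (a (l, j) * t + 1).Prime)
      (fun j t => bp e0 T Q' (Rr r T) (a (l, j) * t + 1))
      (fun j t => be Q' (Rr r T) (a (l, j) * t + 1))
      (fun j t => ∑ p ∈ (Icc 1 ⌊T ^ e0⌋₊).filter (fun p => p.Prime ∧ ¬ p ∣ Q'),
            (if p ∣ a (l, j) * t + 1 then be Q' (Rr r T) (a (l, j) * t + 1) else 0))
      ((rT T).filter (fun t => ∃ j : Fin k, (a (l, j) * t + 1).Prime))
      (fun t => Finset.mem_filter)
      (B0 := B0) (U := U) (ν := ν) (F0 := bK + s) (F1 := e0 * ((1 - κ') * Jb) - s)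
      (F3 := x * Jb + s) (F5 := x ^ 2 * (aa ^ 4 * bK / bb ^ 2) + s)
      (F34 := x * Jb * (1 - κ' - x) - 2 * s) hU0.le hν0.le (by positivity) hB00.le
      (fun t _ => hφ.nonneg _)
      (by
        intro t ht hne j
        obtain ⟨h1, h2, h3, h4, h5, h6⟩ := hTe T hTe' m Q' t ht hne (l, j)
        rw [← hB0] at h3
        exact ⟨h1, h2, h3, h4, fun i hij => h5 (l, i) (hinj i j hij), h6⟩)
      hE0
      (by
        intro j
        have h1 := hE2 (l, j)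
        have h2 : T * I * ((e0 * ((1 - κ') * Jb) - s) * u ^ K) ≤
            T * I * ((e0 * FI (Fin M × Fin k) v0 m {(l, j)} - s) * u ^ K) := by
          have := hFI1' (l, j)
          gcongr
        have h3 : (e0 * ((1 - κ') * Jb) - s) * U = T * I * ((e0 * ((1 - κ') * Jb) - s) * u ^ K) := by
          rw [hU]
          ring
        rw [h3]
        refine (h2.trans h1).trans (le_of_eq ?_)
        refine Finset.sum_congr ?_ fun _ _ => rfl
        ext t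
        simp only [Finset.mem_filter])
      (by
        intro j
        have h1 := (abs_le.1 (hE3 (l, j))).2
        have h2 : x * FI (Fin M × Fin k) v0 m {(l, j)} * U ≤ x * Jb * U := by
          have := hFI1 (l, j)
          gcongr
        linarith)
      (by
        intro j
        have h1 := (abs_le.1 (hE3 (l, j))).1
        have h2 := hE3p (l, j)
        have h3 : (x * Jb * (1 - κ' - x)) * U ≤
            (x * (1 - x) * FI (Fin M × Fin k) v0 m {(l, j)}) * U := by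
          refine mul_le_mul_of_nonneg_right ?_ hU0.le
          have h4 : x * (1 - x) * ((1 - κ') * Jb) ≤ x * (1 - x) * FI (Fin M × Fin k) v0 m {(l, j)} :=
            mul_le_mul_of_nonneg_left (hFI1' (l, j)) (mul_nonneg hx0.le (by linarith))
          have h5 : 0 ≤ x * Jb * (x * κ') := by positivity
          nlinarith
        linarith)
      (by
        intro i j hij
        have h1 := (abs_le.1 (hE5 (l, i) (l, j) (hinj i j hij))).2
        have h2 : T * I * (x ^ 2 * FI (Fin M × Fin k) v0 m {(l, i), (l, j)} * u ^ K) ≤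
            T * I * (x ^ 2 * (aa ^ 4 * bK / bb ^ 2) * u ^ K) := by
          have := hFI2 (l, i) (l, j) (hinj i j hij)
          gcongr
        rw [← hx] at h1
        rw [hU]
        linarith)
    have hkx : k * (x * Jb) = ν * bK := by
      rw [hν, hJb]
      ring
    have hV : B0 * (x * Jb + s) * k + (k : ℝ) ^ 2 * (x ^ 2 * (aa ^ 4 * bK / bb ^ 2) + s) -
        2 * ν * (k * (x * Jb * (1 - κ' - x) - 2 * s)) + ν ^ 2 * (bK + s) =
        bK * ν ^ 2 * S + (B0 * k + (k : ℝ) ^ 2 + 4 * ν * k + ν ^ 2) * s := by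
      have e1 : (k : ℝ) ^ 2 * (x ^ 2 * (aa ^ 4 * bK / bb ^ 2)) = ν ^ 2 * bK := by
        rw [hν]
        field_simp
      have e2 : ν ^ 2 * S = B0 * ν + 2 * κ' * ν ^ 2 + 2 * x * ν ^ 2 := by
        rw [hS]
        field_simp
      calc _ = B0 * (k * (x * Jb)) + B0 * k * s + (k : ℝ) ^ 2 * (x ^ 2 * (aa ^ 4 * bK / bb ^ 2)) + (k : ℝ) ^ 2 * s -
            2 * ν * (k * (x * Jb)) * (1 - κ' - x) + 4 * ν * k * s + ν ^ 2 * bK + ν ^ 2 * s := by ring
        _ = bK * (B0 * ν + 2 * κ' * ν ^ 2 + 2 * x * ν ^ 2) +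
            (B0 * k + (k : ℝ) ^ 2 + 4 * ν * k + ν ^ 2) * s := by
            rw [hkx, e1]
            ring
        _ = _ := by
            rw [← e2]
            ring
    rw [hV] at habs
    have hsqrt : Real.sqrt ((bK + s) * U * ((bK * ν ^ 2 * S +
        (B0 * k + (k : ℝ) ^ 2 + 4 * ν * k + ν ^ 2) * s) * U)) =
        U * Real.sqrt ((bK + s) * (bK * ν ^ 2 * S +
        (B0 * k + (k : ℝ) ^ 2 + 4 * ν * k + ν ^ 2) * s)) := by
      have e : (bK + s) * U * ((bK * ν ^ 2 * S + (B0 * k + (k : ℝ) ^ 2 + 4 * ν * k + ν ^ 2) * s) * U) =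
          U ^ 2 * ((bK + s) * (bK * ν ^ 2 * S + (B0 * k + (k : ℝ) ^ 2 + 4 * ν * k + ν ^ 2) * s)) := by ring
      rw [e, Real.sqrt_mul (sq_nonneg U), Real.sqrt_sq hU0.le]
    rw [hsqrt] at habs
    rw [← hbb, ← haa, ← hKdef, ← hbK, ← hB0, ← hx, ← hκ', ← hν, ← hS]
    obtain ⟨H, hHdef⟩ : ∃ H, H = ∑ t ∈ (rT T).filter (fun t => ∃ j : Fin k, (a (l, j) * t + 1).Prime),
        φ ((t : ℝ) / T) * sM e0 v0 T m Q' a (fun _ => 1) ∅ t ^ 2 := ⟨_, rfl⟩
    rw [← hHdef] at habs ⊢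
    have h7 := mul_le_mul_of_nonneg_left hsb hU0.le
    have h8 : k * (e0 * ((1 - κ') * Jb) - s) * U = (r * ν * (1 - κ') * bK - k * s) * U := by
      have : k * (e0 * ((1 - κ') * Jb)) = r * (k * (x * Jb)) * (1 - κ') := by
        rw [hxr]
        ring
      rw [hkx] at this
      rw [mul_sub, this]
      ring
    rw [h8] at habs
    have h9 : ν * ((bK * (r * (1 - κ') - Real.sqrt S) - ε) * U) ≤ ν * H := by
      linarith
    exact le_of_mul_le_mul_left h9 hν0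

theorem Hits_bump {η : ℝ} (h0 : 0 < η) (h1 : η ≤ 1 / 2) : ∃ φ : ℝ → ℝ, Wt η φ := by
  let f : ContDiffBump (1 : ℝ) := ⟨η / 2, η, by positivity, by linarith⟩
  refine ⟨f, h0, h1, f.contDiff, ?_, fun x => f.nonneg, fun x => f.le_one, ?_⟩
  · intro x hx
    exact f.zero_of_le_dist (by rw [Real.dist_eq]; exact hx)
  · exact f.integral_pos

theorem Hits_swap {α : Type} [Fintype α] (S : Finset ℕ) (ω : ℕ → ℝ) (R : α → ℕ → Prop) [∀ l t, Decidable (R l t)] :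
    ∑ l : α, ∑ t ∈ S.filter (fun t => R l t), ω t = ∑ t ∈ S, ω t * ((univ.filter (fun l => R l t)).card : ℝ) := by
  have h1 : ∀ l : α, ∑ t ∈ S.filter (fun t => R l t), ω t = ∑ t ∈ S, if R l t then ω t else 0 := fun l =>
    Finset.sum_filter _ _
  simp only [h1]
  rw [Finset.sum_comm]
  refine Finset.sum_congr rfl fun t _ => ?_
  rw [← Finset.sum_filter, Finset.sum_const, nsmul_eq_mul, mul_comm]

/-- the choice of the parameters -/
theorem Hits_par (M : ℕ) (hM : 1 ≤ M) {σ r e0 : ℝ} (hσ : 0 < σ) (hσ1 : σ ≤ 1 / 8) (hr : 0 < r) (hr1 : r ≤ 1) (he0 : 0 < e0)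
    (he : 2 * (e0 / r) ≤ σ ^ 2) :
    ∃ (m k : ℕ) (v0 : ℝ), 1 ≤ k ∧ 0 < v0 ∧ vv v0 m ≤ 1 / 2 ∧
      r - 3 * σ ≤ r * (1 - 2 * (M * k : ℕ) * aI v0 m * v0) -
              Real.sqrt ((4 : ℝ) ^ (2 / e0) / (k * (e0 / r) * aI v0 m ^ 2 / bI v0 m) +
                2 * (2 * (M * k : ℕ) * aI v0 m * v0) + 2 * (e0 / r)) := by
  have hM' : (1 : ℝ) ≤ M := by exact_mod_cast hM
  have hM0 : (0 : ℝ) < M := by linarith
  obtain ⟨κ, hκ⟩ : ∃ κ : ℝ, κ = σ ^ 2 / 4 := ⟨_, rfl⟩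
  have hκ0 : 0 < κ := by rw [hκ]; positivity
  have hκ1 : κ ≤ 1 / 4 := by
    rw [hκ]
    nlinarith
  have hκσ : κ ≤ σ := by
    rw [hκ]
    nlinarith
  obtain ⟨B, hB⟩ : ∃ B : ℝ, B = (4 : ℝ) ^ (2 / e0) := ⟨_, rfl⟩
  have hB0 : 0 < B := by rw [hB]; positivity
  obtain ⟨x, hx⟩ : ∃ x : ℝ, x = e0 / r := ⟨_, rfl⟩
  have hx0 : 0 < x := by rw [hx]; positivity
  obtain ⟨m, hm⟩ := exists_nat_ge (2 * (B / σ ^ 2 * (3 * M) / (x * κ)))
  obtain ⟨A, hA⟩ : ∃ A : ℝ, A = 1 + (m : ℝ) / 2 := ⟨_, rfl⟩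
  have hmn : (0 : ℝ) ≤ m := Nat.cast_nonneg m
  have hA1 : 1 ≤ A := by rw [hA]; linarith
  have hA0 : 0 < A := by linarith
  have hAm : B / σ ^ 2 * (3 * M) / (x * κ) ≤ A := by rw [hA]; linarith
  obtain ⟨k, hk⟩ : ∃ k : ℕ, k = 2 ^ (m + 1) := ⟨_, rfl⟩
  have hk1 : 1 ≤ k := by rw [hk]; exact Nat.one_le_two_pow
  have hk1' : (1 : ℝ) ≤ k := by exact_mod_cast hk1
  have hk0 : (0 : ℝ) < k := by linarith
  obtain ⟨v0, hv⟩ : ∃ v0 : ℝ, v0 = κ / (2 * M * k * A) := ⟨_, rfl⟩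
  have hv0 : 0 < v0 := by rw [hv]; positivity
  have haI : aI v0 m = A := by rw [aI_eq hv0, hA]
  have hprod : 2 * ((M * k : ℕ) : ℝ) * A * v0 = κ := by
    rw [hv]
    push_cast
    field_simp
  refine ⟨m, k, v0, hk1, hv0, ?_, ?_⟩
  · have h1 : vv v0 m = κ / (4 * M * A) := by
      unfold vv
      rw [hv, hk]
      push_cast
      rw [pow_succ]
      field_simp
      ring
    rw [h1, div_le_iff₀ (by positivity)]
    nlinarith [mul_pos hM0 hA0, mul_le_mul hM' hA1 zero_le_one hM0.le]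
  · rw [haI, hprod, ← hB, ← hx]
    rw [← hx] at he
    have hb1 := bI_ge hv0 m
    have hb2 := bI_le hv0 m
    obtain ⟨b, hb⟩ : ∃ b : ℝ, b = bI v0 m := ⟨_, rfl⟩
    rw [← hb] at hb1 hb2 ⊢
    have hb0 : 0 < b := lt_of_lt_of_le (by positivity) hb1
    have hb3 : b ≤ 3 * M * k * A / κ := by
      refine hb2.trans (le_of_eq ?_)
      rw [hv]
      field_simp
    have hν : B / σ ^ 2 ≤ k * x * A ^ 2 / b := by
      have h1 : x * A * κ / (3 * M) ≤ k * x * A ^ 2 / b := by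
        rw [div_le_div_iff₀ (by positivity) hb0]
        calc x * A * κ * b ≤ x * A * κ * (3 * M * k * A / κ) := by
              apply mul_le_mul_of_nonneg_left hb3
              positivity
          _ = k * x * A ^ 2 * (3 * M) := by
              field_simp
      have h2 : B / σ ^ 2 ≤ x * A * κ / (3 * M) := by
        rw [le_div_iff₀ (by positivity)]
        rw [div_le_iff₀ (by positivity)] at hAm
        linarith
      exact h2.trans h1
    have hν2 : B / (k * x * A ^ 2 / b) ≤ σ ^ 2 := by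
      have h3 : 0 < k * x * A ^ 2 / b := by positivity
      rw [div_le_iff₀ h3]
      rw [div_le_iff₀ (by positivity)] at hν
      linarith
    have hs : Real.sqrt (B / (k * x * A ^ 2 / b) + 2 * κ + 2 * x) ≤ 2 * σ := by
      rw [Real.sqrt_le_left (by positivity)]
      have : 2 * κ = σ ^ 2 / 2 := by rw [hκ]; ring
      rw [this]
      nlinarith [sq_nonneg σ]
    have hr2 : r * κ ≤ σ := by nlinarith
    have e : r * (1 - κ) = r - r * κ := by ring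
    rw [e]
    linarith

theorem Hits_sup {η : ℝ} {φ : ℝ → ℝ} (hφ : Wt η φ) {e0 v0 : ℝ} (he0 : 0 < e0) (he1 : e0 ≤ 1) (hv0 : 0 < v0) (m K : ℕ) :
    ∃ T1 : ℝ, 1 ≤ T1 ∧ ∀ T, T1 ≤ T → ∀ (ι : Type) [Fintype ι] [DecidableEq ι], Fintype.card ι = K → ∀ (Q : ℕ) (a b : ι → ℕ) (t : ℕ),
      φ ((t : ℝ) / T) * sM e0 v0 T m Q a b ∅ t ^ 2 ≤ T ^ (3 * e0) := by
  obtain ⟨T1, hT11, hT1⟩ := ETr_log ((((m + 1 : ℕ) : ℝ) ^ K * (4 / v0) ^ K) ^ 2) (2 * (3 * K)) he0 one_pos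
  refine ⟨T1, hT11, fun T hT ι _ _ hι Q a b t => ?_⟩
  have hT1' : 1 ≤ T := hT11.trans hT
  have hT0 : 0 < T := by linarith
  have h1 := E2_sM he0 he1 hv0 hT1' m Q a b ∅ t
  rw [hι] at h1
  have h2 : sM e0 v0 T m Q a b ∅ t ^ 2 ≤ (((m + 1 : ℕ) : ℝ) ^ K * ((4 / v0 * (1 + Real.log T) ^ 3) ^ K * T ^ e0)) ^ 2 := by
    rw [← sq_abs]
    exact pow_le_pow_left₀ (abs_nonneg _) h1 2
  have h3 : φ ((t : ℝ) / T) * sM e0 v0 T m Q a b ∅ t ^ 2 ≤ sM e0 v0 T m Q a b ∅ t ^ 2 := by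
    have := mul_le_mul_of_nonneg_right (hφ.le_one ((t : ℝ) / T)) (sq_nonneg (sM e0 v0 T m Q a b ∅ t))
    linarith
  refine h3.trans (h2.trans ?_)
  have h4 := hT1 T hT
  have e1 : T ^ (3 * e0) = T * T ^ (3 * e0 - 1) := by
    rw [← Real.rpow_one_add' hT0.le (by linarith)]
    congr 1
    ring
  have e2 : (((m + 1 : ℕ) : ℝ) ^ K * ((4 / v0 * (1 + Real.log T) ^ 3) ^ K * T ^ e0)) ^ 2 =
      (((m + 1 : ℕ) : ℝ) ^ K * (4 / v0) ^ K) ^ 2 * (1 + Real.log T) ^ (2 * (3 * K)) * T ^ (1 - e0) * T ^ (3 * e0 - 1) := by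
    have e3 : (T ^ e0) ^ 2 = T ^ (1 - e0) * T ^ (3 * e0 - 1) := by
      rw [← Real.rpow_add hT0, ← Real.rpow_natCast, ← Real.rpow_mul hT0.le]
      congr 1
      push_cast
      ring
    rw [mul_assoc _ (T ^ (1 - e0)), ← e3, mul_pow (4 / v0), ← pow_mul (1 + Real.log T) 3 K, pow_mul' (1 + Real.log T) 2 (3 * K)]
    ring
  rw [e1, e2]
  apply mul_le_mul_of_nonneg_right _ (Real.rpow_nonneg hT0.le _)
  linarith

theorem hits (hbvs : BVS) (hdps : DispS) (M : ℕ) (hM : 1 ≤ M) {δ : ℝ} (hδ : 0 < δ) {η : ℝ} (hη : 0 < η) {ε : ℝ} (hε : 0 < ε) :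
    ∃ k w : ℕ, 1 ≤ k ∧ ∀ (Q : ℕ) (a : Fin M × Fin k → ℕ), SForms Q a → Wide w Q →
      ∃ T0 : ℝ, ∀ T, T0 ≤ T → T ^ (1 - ε) ≤ (((rT T).filter (fun t : ℕ => |(t : ℝ) - T| ≤ η * T ∧
        (543 / 2000 - δ) * M ≤
          ((univ.filter (fun l : Fin M => ∃ j : Fin k, (a (l, j) * t + 1).Prime)).card : ℝ))).card : ℝ) := by
  classical
  have hM' : (1 : ℝ) ≤ M := by exact_mod_cast hM
  have hM0 : (0 : ℝ) < M := by linarith
  obtain ⟨d, hd⟩ : ∃ d : ℝ, d = min δ (1 / 8) := ⟨_, rfl⟩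
  have hd0 : 0 < d := by rw [hd]; exact lt_min hδ (by norm_num)
  have hd1 : d ≤ 1 / 8 := by rw [hd]; exact min_le_right _ _
  have hdδ : d ≤ δ := by rw [hd]; exact min_le_left _ _
  obtain ⟨η1, hη1⟩ : ∃ η1 : ℝ, η1 = min η (1 / 2) := ⟨_, rfl⟩
  have hη10 : 0 < η1 := by rw [hη1]; exact lt_min hη (by norm_num)
  have hη11 : η1 ≤ 1 / 2 := by rw [hη1]; exact min_le_right _ _
  have hη12 : η1 ≤ η := by rw [hη1]; exact min_le_left _ _
  obtain ⟨φ, hφ⟩ := Hits_bump hη10 hη11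
  obtain ⟨I, hI⟩ : ∃ I : ℝ, I = ∫ x, φ x := ⟨_, rfl⟩
  have hI0 : 0 < I := by rw [hI]; exact hφ.int_pos
  obtain ⟨r, hrdef⟩ : ∃ r : ℝ, r = 543 / 2000 := ⟨_, rfl⟩
  have hr0 : 0 < r := by rw [hrdef]; norm_num
  have hr1 : r < 3 / 11 := by rw [hrdef]; norm_num
  obtain ⟨δ0, hδ0, hclu⟩ := clu hbvs hdps hφ hr0 hr1
  obtain ⟨σ, hσ⟩ : ∃ σ : ℝ, σ = d / 8 := ⟨_, rfl⟩
  have hσ0 : 0 < σ := by rw [hσ]; positivity
  have hσ1 : σ ≤ 1 / 8 := by rw [hσ]; linarith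
  obtain ⟨e0, he0def⟩ : ∃ e0 : ℝ, e0 = min (ε / 4) (min (δ0 / 4) (min (1 / 16) (min r (r * σ ^ 2 / 2)))) := ⟨_, rfl⟩
  have he0 : 0 < e0 := by
    rw [he0def]
    exact lt_min (by positivity) (lt_min (by positivity) (lt_min (by norm_num) (lt_min hr0 (by positivity))))
  have heε : e0 ≤ ε / 4 := by rw [he0def]; exact min_le_left _ _
  have hem : e0 ≤ min (δ0 / 4) (min (1 / 16) (min r (r * σ ^ 2 / 2))) := by rw [he0def]; exact min_le_right _ _
  have he1 : e0 ≤ δ0 / 4 := hem.trans (min_le_left _ _)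
  have he2 : e0 ≤ 1 / 16 := hem.trans ((min_le_right _ _).trans (min_le_left _ _))
  have he3 : e0 ≤ r := hem.trans ((min_le_right _ _).trans ((min_le_right _ _).trans (min_le_left _ _)))
  have he4 : e0 ≤ r * σ ^ 2 / 2 := hem.trans ((min_le_right _ _).trans ((min_le_right _ _).trans (min_le_right _ _)))
  have he5 : 2 * (e0 / r) ≤ σ ^ 2 := by
    have : e0 / r ≤ σ ^ 2 / 2 := by
      rw [div_le_iff₀ hr0]
      linarith
    linarith
  obtain ⟨m, k, v0, hk, hv0, hvm, hpar⟩ := Hits_par M hM hσ0 hσ1 hr0 (by linarith) he0 he5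
  obtain ⟨b, hb⟩ : ∃ b : ℝ, b = bI v0 m ^ (M * k) := ⟨_, rfl⟩
  have hb0 : 0 < b := by
    rw [hb]
    exact pow_pos (lt_of_lt_of_le (by positivity) (bI_ge hv0 m)) _
  obtain ⟨w, hw⟩ := hclu e0 v0 he0 (by linarith) he2 he3 hv0 m k M hk hM hvm (b * σ) (by positivity)
  obtain ⟨T1, hT11, hsup⟩ := Hits_sup hφ he0 (by linarith) hv0 m (M * k)
  obtain ⟨T2, hT21, hgr⟩ := ETr_log 1 0 he0 (show 0 < 3 * σ * b * I by positivity)
  refine ⟨k, w, hk, fun Q a hQ hwide => ?_⟩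
  obtain ⟨T0, hT0⟩ := hw Q a hQ hwide
  refine ⟨max T0 (max T1 T2), fun T hT => ?_⟩
  have hTT1 : T1 ≤ T := (le_max_left _ _).trans ((le_max_right _ _).trans hT)
  have hTT2 : T2 ≤ T := (le_max_right _ _).trans ((le_max_right _ _).trans hT)
  have hTone : 1 ≤ T := hT11.trans hTT1
  have hTpos : 0 < T := by linarith
  obtain ⟨Q', U, hUI, hU, hZ, hH⟩ := hT0 T ((le_max_left _ _).trans hT)
  obtain ⟨ω, hω⟩ : ∃ ω : ℕ → ℝ, ω = fun t : ℕ => φ ((t : ℝ) / T) * sM e0 v0 T m Q' a (fun _ => 1) ∅ t ^ 2 := ⟨_, rfl⟩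
  have hωt : ∀ t : ℕ, φ ((t : ℝ) / T) * sM e0 v0 T m Q' a (fun _ => 1) ∅ t ^ 2 = ω t := fun t => by rw [hω]
  have hωn : ∀ t, 0 ≤ ω t := by
    intro t
    rw [← hωt]
    exact mul_nonneg (hφ.nonneg _) (sq_nonneg _)
  have hωs : ∀ t, ω t ≤ T ^ (3 * e0) := by
    intro t
    rw [← hωt]
    exact hsup T hTT1 (Fin M × Fin k) (by simp) Q' a (fun _ => 1) t
  simp only [hωt] at hZ hH
  rw [← hb] at hZ hH
  have hH' : ∀ l : Fin M, b * (r - 4 * σ) * U ≤ ∑ t ∈ (rT T).filter (fun t => ∃ j : Fin k, (a (l, j) * t + 1).Prime), ω t := by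
    intro l
    refine le_trans ?_ (hH l)
    apply mul_le_mul_of_nonneg_right _ hU.le
    have := mul_le_mul_of_nonneg_left hpar hb0.le
    linarith
  have hsum : (M : ℝ) * (b * (r - 4 * σ) * U) ≤
      ∑ t ∈ rT T, ω t * ((univ.filter (fun l : Fin M => ∃ j : Fin k, (a (l, j) * t + 1).Prime)).card : ℝ) := by
    rw [← Hits_swap (rT T) ω (fun (l : Fin M) t => ∃ j : Fin k, (a (l, j) * t + 1).Prime)]
    calc (M : ℝ) * (b * (r - 4 * σ) * U) = ∑ _l : Fin M, b * (r - 4 * σ) * U := by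
          rw [Finset.sum_const, Finset.card_univ, Fintype.card_fin, nsmul_eq_mul]
      _ ≤ _ := Finset.sum_le_sum fun l _ => hH' l
  obtain ⟨h, hh⟩ : ∃ h : ℕ → ℝ, h = fun t : ℕ =>
      ((univ.filter (fun l : Fin M => ∃ j : Fin k, (a (l, j) * t + 1).Prime)).card : ℝ) := ⟨_, rfl⟩
  have hht : ∀ t : ℕ, ((univ.filter (fun l : Fin M => ∃ j : Fin k, (a (l, j) * t + 1).Prime)).card : ℝ) = h t := fun t => by rw [hh]
  have hhM : ∀ t, h t ≤ M := by
    intro t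
    rw [← hht]
    have h1 := Finset.card_le_univ (univ.filter (fun l : Fin M => ∃ j : Fin k, (a (l, j) * t + 1).Prime))
    rw [Fintype.card_fin] at h1
    exact_mod_cast h1
  have hhn : ∀ t, 0 ≤ h t := by
    intro t
    rw [← hht]
    exact Nat.cast_nonneg _
  simp only [hht] at hsum ⊢
  have hrd : 0 ≤ (r - d) * M := by
    apply mul_nonneg _ hM0.le
    rw [hrdef]
    linarith
  obtain ⟨G, hG⟩ : ∃ G : Finset ℕ, G = (rT T).filter (fun t : ℕ => φ ((t : ℝ) / T) ≠ 0 ∧ (r - d) * M ≤ h t) := ⟨_, rfl⟩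
  have hupp : ∑ t ∈ rT T, ω t * h t ≤ M * ∑ t ∈ G, ω t + (∑ t ∈ rT T, ω t) * ((r - d) * M) := by
    rw [hG, Finset.sum_filter, Finset.mul_sum, Finset.sum_mul, ← Finset.sum_add_distrib]
    apply Finset.sum_le_sum
    intro t _
    have hn := hωn t
    by_cases h0 : φ ((t : ℝ) / T) = 0
    · have hz : ω t = 0 := by rw [← hωt, h0, zero_mul]
      rw [if_neg (fun hc => hc.1 h0), hz]
      simp
    · by_cases h1 : (r - d) * M ≤ h t
      · rw [if_pos ⟨h0, h1⟩]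
        have h2 := mul_le_mul_of_nonneg_left (hhM t) hn
        have h3 := mul_nonneg hn hrd
        linarith
      · rw [if_neg (fun hc => h1 hc.2)]
        have h2 := mul_le_mul_of_nonneg_left (not_le.1 h1).le hn
        linarith
  have h4 := mul_le_mul_of_nonneg_right hZ hrd
  have h5 : (M : ℝ) * (b * (r - 4 * σ) * U) ≤ M * ∑ t ∈ G, ω t + (b + b * σ) * U * ((r - d) * M) := by linarith
  have h6 : b * (3 * σ) * U ≤ ∑ t ∈ G, ω t := by
    have h7 : (M : ℝ) * (b * (r - 4 * σ) * U - (b + b * σ) * U * (r - d)) ≤ M * ∑ t ∈ G, ω t := by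
      calc (M : ℝ) * (b * (r - 4 * σ) * U - (b + b * σ) * U * (r - d)) =
            (M : ℝ) * (b * (r - 4 * σ) * U) - (b + b * σ) * U * ((r - d) * M) := by ring
        _ ≤ _ := by linarith
    have h8 := le_of_mul_le_mul_left h7 hM0
    refine le_trans ?_ h8
    have h9 : b * (r - 4 * σ) * U - (b + b * σ) * U * (r - d) = b * U * ((r - 4 * σ) - (1 + σ) * (r - d)) := by ring
    have h10 : 3 * σ ≤ (r - 4 * σ) - (1 + σ) * (r - d) := by
      have h11 : d = 8 * σ := by rw [hσ]; ring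
      have h12 : σ * (r - d) ≤ σ * 1 := by
        apply mul_le_mul_of_nonneg_left _ hσ0.le
        linarith
      rw [h11] at h12 ⊢
      linarith
    rw [h9]
    calc b * (3 * σ) * U = b * U * (3 * σ) := by ring
      _ ≤ _ := mul_le_mul_of_nonneg_left h10 (by positivity)
  have h7 : ∑ t ∈ G, ω t ≤ (G.card : ℝ) * T ^ (3 * e0) := by
    refine (Finset.sum_le_sum fun t _ => hωs t).trans ?_
    rw [Finset.sum_const, nsmul_eq_mul]
  have hGs : G.card ≤ ((rT T).filter (fun t : ℕ => |(t : ℝ) - T| ≤ η * T ∧ (543 / 2000 - δ) * M ≤ h t)).card := by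
    apply Finset.card_le_card
    rw [hG]
    intro t ht
    rw [Finset.mem_filter] at ht ⊢
    obtain ⟨h1, h2, h3⟩ := ht
    refine ⟨h1, ?_, ?_⟩
    · have h8 : |(t : ℝ) / T - 1| < η1 := by
        by_contra hc
        exact h2 (hφ.zero _ (not_lt.1 hc))
      have e : (t : ℝ) - T = ((t : ℝ) / T - 1) * T := by
        field_simp
      rw [e, abs_mul, abs_of_pos hTpos]
      exact mul_le_mul_of_nonneg_right (h8.le.trans hη12) hTpos.le
    · refine le_trans ?_ h3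
      apply mul_le_mul_of_nonneg_right _ hM0.le
      rw [hrdef]
      linarith
  have hGs' : (G.card : ℝ) ≤ (((rT T).filter (fun t : ℕ => |(t : ℝ) - T| ≤ η * T ∧ (543 / 2000 - δ) * M ≤ h t)).card : ℝ) := by
    exact_mod_cast hGs
  refine le_trans ?_ hGs'
  have hT3 : 0 < T ^ (3 * e0) := Real.rpow_pos_of_pos hTpos _
  have h8 : 3 * σ * b * I * T ≤ (G.card : ℝ) * T ^ (3 * e0) := by
    rw [← hI] at hUI
    have h9 : b * (3 * σ) * (T * I) ≤ b * (3 * σ) * U := mul_le_mul_of_nonneg_left hUI (by positivity)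
    calc 3 * σ * b * I * T = b * (3 * σ) * (T * I) := by ring
      _ ≤ _ := by linarith
  have h9 := hgr T hTT2
  rw [pow_zero, one_mul, one_mul] at h9
  have h10 : T ^ (1 - e0) ≤ (G.card : ℝ) * T ^ (3 * e0) := by linarith
  have h11 : T ^ (1 - ε) * T ^ (3 * e0) ≤ T ^ (1 - e0) := by
    rw [← Real.rpow_add hTpos]
    apply Real.rpow_le_rpow_of_exponent_le hTone
    linarith
  exact le_of_mul_le_mul_right (h11.trans h10) hT3

/-- the final estimates -/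
theorem last_est {N G Cm n Qt ci ci' g d T t Q : ℝ} (hG : 1 ≤ G) (hN1 : 2 * Cm ≤ N) (hN2 : 10000 ≤ N)
    (hQ : 1 ≤ Q) (hT : T = 1000 * G * N / Q) (ht : |t - T| ≤ 1 / 10000 * T) (hQt : Qt = Q * t)
    (hci : ci ≤ Cm) (hci0 : 0 ≤ ci') (hcig : ci = ci' + g) (hd1 : 1001 ≤ d) (hd2 : d ≤ 2717)
    (hg : |g - d * G| ≤ 1 / 10000 * G) (hn : g * n = Qt + ci') :
    N / Real.exp 1 + 1 ≤ n ∧ n + 1 ≤ N := by
  have hQ0 : 0 < Q := by linarith
  have hG0 : 0 < G := by linarith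
  have hN0 : 0 < N := by linarith
  have h1 : Q * T = 1000 * G * N := by rw [hT]; field_simp
  have h2 := abs_le.1 ht
  have h3 := abs_le.1 hg
  have hGN : N ≤ G * N := by nlinarith
  have h4 : Q * t ≤ 1000.1 * (G * N) := by
    have : Q * t ≤ Q * (T + 1 / 10000 * T) := mul_le_mul_of_nonneg_left (by linarith) hQ0.le
    nlinarith
  have h5 : 999.9 * (G * N) ≤ Q * t := by
    have : Q * (T - 1 / 10000 * T) ≤ Q * t := mul_le_mul_of_nonneg_left (by linarith) hQ0.le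
    nlinarith
  have hdG1 : 1001 * G ≤ d * G := mul_le_mul_of_nonneg_right hd1 hG0.le
  have hdG2 : d * G ≤ 2717 * G := mul_le_mul_of_nonneg_right hd2 hG0.le
  have hg1 : 1000.9999 * G ≤ g := by linarith
  have hg2 : g ≤ 2717.0001 * G := by linarith
  have hg0 : 0 < g := by linarith
  constructor
  · by_contra hcon
    push Not at hcon
    have e1 := Real.exp_one_gt_d9
    have e0 : 0 < Real.exp 1 := Real.exp_pos 1
    obtain ⟨s, hs⟩ : ∃ s : ℝ, s = N / Real.exp 1 := ⟨_, rfl⟩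
    have hsN : s * Real.exp 1 = N := by rw [hs]; field_simp
    have hs0 : 0 < s := by rw [hs]; positivity
    rw [← hs] at hcon
    have e2 : s * 2.7182818 ≤ N := by
      rw [← hsN]
      exact mul_le_mul_of_nonneg_left (by linarith) hs0.le
    have e3 : g * n < g * (s + 1) := mul_lt_mul_of_pos_left hcon hg0
    have e4 : g * (s + 1) ≤ 2717.0001 * G * (s + 1) :=
      mul_le_mul_of_nonneg_right hg2 (by linarith)
    have e5 : 2717.0001 * (s + 1) ≤ 999.9 * N := by linarith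
    have e6 : G * (2717.0001 * (s + 1)) ≤ G * (999.9 * N) := mul_le_mul_of_nonneg_left e5 hG0.le
    linarith
  · have e1 : g * (n + 1) ≤ g * N := by
      have e2 : 1000.9999 * G * N ≤ g * N := mul_le_mul_of_nonneg_right hg1 hN0.le
      have e3 : g * (n + 1) = Qt + ci := by rw [hcig]; linarith
      rw [e3]
      linarith
    exact le_of_mul_le_mul_left e1 hg0

/-- for one good `t` -/
theorem last_core {M k : ℕ} (hM : M = 100000000) {G Q Cm N : ℕ} {c a : Fin M × Fin k → ℕ} {T : ℝ} {t : ℕ}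
    (hG1 : (1 : ℝ) ≤ (G : ℝ)) (hQ1 : (1 : ℝ) ≤ (Q : ℝ)) (hN2 : (10000 : ℝ) ≤ (N : ℝ)) (hN1 : 2 * (Cm : ℝ) ≤ (N : ℝ))
    (hTdef : T = 1000 * (G : ℝ) * N / Q) (ht : |(t : ℝ) - T| ≤ 1 / 10000 * T)
    (hc1 : ∀ i, 1 ≤ c i) (hcfg : ∀ i i' : Fin M × Fin k, i'.1 < i.1 → c i' < c i ∧ (c i - c i') ∣ c i ∧
        |((c i : ℝ) - c i') - (((i.1 : ℕ) : ℝ) - ((i'.1 : ℕ) : ℝ)) * G| ≤ 1 / 10000 * G)
    (hca : ∀ i, c i * a i = Q) (hCm : ∀ i, c i ≤ Cm)
    (hcard : (543 / 2000 - 1 / 10000) * (M : ℝ) ≤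
          ((univ.filter (fun l : Fin M => ∃ j : Fin k, (a (l, j) * t + 1).Prime)).card : ℝ)) :
    ∃ i i' : Fin M × Fin k, 1 ≤ c i' / (c i - c i') ∧
      (N : ℝ) / Real.exp 1 + 1 ≤ ((c i' / (c i - c i') * (a i' * t + 1) : ℕ) : ℝ) ∧
      c i' / (c i - c i') * (a i' * t + 1) + 1 ≤ N ∧ ∃ p p' : ℕ,
      p.Prime ∧ p'.Prime ∧ p ∣ c i' / (c i - c i') * (a i' * t + 1) ∧ p' ∣ c i' / (c i - c i') * (a i' * t + 1) + 1 ∧
      N < (3 * Cm + 1) * p ∧ N < (3 * Cm + 1) * p' := by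
  obtain ⟨H, hH⟩ : ∃ H : Finset (Fin M), H =
    univ.filter (fun l : Fin M => ∃ j : Fin k, (a (l, j) * t + 1).Prime) := ⟨_, rfl⟩
  rw [← hH] at hcard
  have hwin : ∃ x ∈ H.image Fin.val, ∃ y ∈ H.image Fin.val, 1001 ≤ y - x ∧ y - x ≤ 2717 := by
    by_contra hcon
    have h1 := win (M := M) (J1 := 1001) (J2 := 2717) (H := H.image Fin.val) (by norm_num)
      (by norm_num) (by
        intro x hx
        obtain ⟨l, _, rfl⟩ := Finset.mem_image.1 hx
        exact Finset.mem_range.2 l.2) (by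
        intro x hx y hy hxy
        by_contra hlt
        exact hcon ⟨x, hx, y, hy, hxy, by omega⟩)
    rw [Finset.card_image_of_injective H Fin.val_injective] at h1
    have h2 : ((H.card * (1001 + 2717) : ℕ) : ℝ) ≤ ((1001 * (M + 1001 + 2717) : ℕ) : ℝ) :=
      Nat.cast_le.2 h1
    push_cast at h2
    have hMr : (M : ℝ) = 100000000 := by rw [hM]; norm_num
    rw [hMr] at h2 hcard
    linarith
  obtain ⟨x, hx, y, hy, hxy1, hxy2⟩ := hwin
  obtain ⟨l', hl', rfl⟩ := Finset.mem_image.1 hx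
  obtain ⟨l, hl, rfl⟩ := Finset.mem_image.1 hy
  rw [hH, Finset.mem_filter] at hl hl'
  obtain ⟨-, j, hj⟩ := hl
  obtain ⟨-, j', hj'⟩ := hl'
  have hlt : ((l', j') : Fin M × Fin k).1 < ((l, j) : Fin M × Fin k).1 := by
    show l' < l
    rw [Fin.lt_def]
    omega
  obtain ⟨hclt, hdvd, hdist⟩ := hcfg (l, j) (l', j') hlt
  obtain ⟨g, hg⟩ : ∃ g : ℕ, g = c (l, j) - c (l', j') := ⟨_, rfl⟩
  have hgpos : 0 < g := by omega
  have hcg : c (l, j) = c (l', j') + g := by omega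
  rw [← hg] at hdvd
  obtain ⟨e, he⟩ := hdvd
  have hdvd' : g ∣ c (l', j') := by
    have h1 : g ∣ c (l', j') + g := by rw [← hcg, he]; exact Dvd.intro _ rfl
    exact (Nat.dvd_add_left (dvd_refl g)).1 h1
  obtain ⟨e', he'⟩ := hdvd'
  have hee : e = e' + 1 := by
    rw [he, he'] at hcg
    have h1 : g * e = g * (e' + 1) := by rw [hcg]; ring
    exact Nat.eq_of_mul_eq_mul_left hgpos h1
  have hQi := hca (l, j)
  have hQi' := hca (l', j')
  -- `n = e' p'`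
  have hnn : e' * (a (l', j') * t + 1) + 1 = e * (a (l, j) * t + 1) := by
    have h1 : g * (e' * (a (l', j') * t + 1) + 1) = g * (e * (a (l, j) * t + 1)) := by
      have h2 : g * (e' * (a (l', j') * t + 1) + 1) = (g * e') * a (l', j') * t + (g * e' + g) := by
        ring
      have h3 : g * (e * (a (l, j) * t + 1)) = (g * e) * a (l, j) * t + g * e := by ring
      rw [h2, h3, ← he', ← he, hQi, hQi', hcg]
    exact Nat.eq_of_mul_eq_mul_left hgpos h1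
  have hgn : (g : ℝ) * ((e' * (a (l', j') * t + 1) : ℕ) : ℝ) = (Q : ℝ) * t + c (l', j') := by
    have h1 : g * (e' * (a (l', j') * t + 1)) = Q * t + c (l', j') := by
      have h2 : g * (e' * (a (l', j') * t + 1)) = (g * e') * a (l', j') * t + g * e' := by ring
      rw [h2, ← he', hQi']
    exact_mod_cast h1
  have hcgr : (c (l, j) : ℝ) = (c (l', j') : ℝ) + g := by exact_mod_cast hcg
  have hd : ((l.val : ℝ) - (l'.val : ℝ)) = ((l.val - l'.val : ℕ) : ℝ) := by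
    rw [Nat.cast_sub (by omega)]
  have hest := last_est (N := N) (G := G) (Cm := Cm) (n := ((e' * (a (l', j') * t + 1) : ℕ) : ℝ))
    (Qt := (Q : ℝ) * t) (ci := c (l, j)) (ci' := c (l', j')) (g := g)
    (d := (l.val : ℝ) - (l'.val : ℝ)) (T := T) (t := t) (Q := Q) hG1 hN1 hN2 hQ1 hTdef ht rfl
    (by exact_mod_cast hCm (l, j)) (Nat.cast_nonneg _) hcgr
    (by rw [hd]; exact_mod_cast hxy1) (by rw [hd]; exact_mod_cast hxy2)
    (by
      have h1 : (g : ℝ) = (c (l, j) : ℝ) - c (l', j') := by linarith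
      rw [h1]
      exact hdist) hgn
  obtain ⟨hE1, hE2⟩ := hest
  have hNn : (N : ℝ) ≤ 3 * ((e' * (a (l', j') * t + 1) : ℕ) : ℝ) := by
    have e0 : 0 < Real.exp 1 := Real.exp_pos 1
    have e1 := Real.exp_one_lt_d9
    have h1 : (N : ℝ) / Real.exp 1 ≤ ((e' * (a (l', j') * t + 1) : ℕ) : ℝ) := by linarith
    rw [div_le_iff₀ e0] at h1
    have h2 : ((e' * (a (l', j') * t + 1) : ℕ) : ℝ) * Real.exp 1 ≤
        ((e' * (a (l', j') * t + 1) : ℕ) : ℝ) * 3 :=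
      mul_le_mul_of_nonneg_left (by linarith) (Nat.cast_nonneg _)
    linarith
  have hNn' : N ≤ 3 * (e' * (a (l', j') * t + 1)) := by exact_mod_cast hNn
  have heC : e ≤ Cm := by
    have h1 : e ≤ g * e := Nat.le_mul_of_pos_left e hgpos
    rw [← he] at h1
    exact h1.trans (hCm _)
  have heC' : e' ≤ Cm := by omega
  have heq : c (l', j') / (c (l, j) - c (l', j')) = e' := by
    rw [← hg]
    exact Nat.div_eq_of_eq_mul_right hgpos he'
  have he1 : 1 ≤ e' := by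
    rcases Nat.eq_zero_or_pos e' with h | h
    · exfalso
      have h1 := hc1 (l', j')
      rw [he', h] at h1
      omega
    · exact h
  refine ⟨(l, j), (l', j'), ?_⟩
  rw [heq]
  refine ⟨he1, hE1, ?_, a (l', j') * t + 1, a (l, j) * t + 1, hj', hj, Dvd.intro_left _ rfl, ?_, ?_, ?_⟩
  · exact_mod_cast hE2
  · rw [hnn]; exact Dvd.intro_left _ rfl
  · have h1 : e' * (a (l', j') * t + 1) ≤ Cm * (a (l', j') * t + 1) :=
      Nat.mul_le_mul_right _ heC'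
    have h2 : (3 * Cm + 1) * (a (l', j') * t + 1) =
        3 * (Cm * (a (l', j') * t + 1)) + (a (l', j') * t + 1) := by ring
    rw [h2]
    omega
  · have h1 : e * (a (l, j) * t + 1) ≤ Cm * (a (l, j) * t + 1) :=
      Nat.mul_le_mul_right _ heC
    have h2 : (3 * Cm + 1) * (a (l, j) * t + 1) =
        3 * (Cm * (a (l, j) * t + 1)) + (a (l, j) * t + 1) := by ring
    rw [h2]
    omega


open Classical in
theorem last2 (hbvs : BVS) (hdps : DispS) (ε : ℝ) (hε : 0 < ε) : ∃ K0 N0 : ℕ, ∀ N : ℕ, N0 ≤ N → (N : ℝ) ^ (1 - ε) ≤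
      (((range N).filter (fun n : ℕ => (N : ℝ) / Real.exp 1 + 1 ≤ n ∧ n + 1 ≤ N ∧ ∃ p p' : ℕ,
        p.Prime ∧ p'.Prime ∧ p ∣ n ∧ p' ∣ n + 1 ∧ N < K0 * p ∧ N < K0 * p')).card : ℝ) := by
  obtain ⟨ε', hε', hε1, hεε⟩ : ∃ ε' : ℝ, 0 < ε' ∧ ε' ≤ 1 ∧ ε' ≤ ε := ⟨min ε 1, by positivity, min_le_right _ _, min_le_left _ _⟩
  obtain ⟨M, hM⟩ : ∃ M : ℕ, M = 100000000 := ⟨_, rfl⟩
  have hM1 : 1 ≤ M := by omega
  have hη : (0 : ℝ) < 1 / 10000 := by norm_num
  obtain ⟨k, w, hk, Hk⟩ := hits hbvs hdps M hM1 hη hη (by linarith : (0 : ℝ) < ε' / 2)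
  obtain ⟨G, c, hG, hc1, hcinj, hcfg⟩ := cfg M k hη
  obtain ⟨Q, a, hca, hSF, hW⟩ := formQ c hc1 hcinj w
  obtain ⟨T0, hT0⟩ := Hk Q a hSF hW
  obtain ⟨Cm, hCm⟩ : ∃ Cm : ℕ, ∀ i, c i ≤ Cm :=
    ⟨univ.sup c, fun i => Finset.le_sup (f := c) (Finset.mem_univ i)⟩
  obtain ⟨Y, hY⟩ : ∃ Y : ℝ, Y = (Q : ℝ) * (M * k) ^ 2 := ⟨_, rfl⟩
  obtain ⟨X0, hX0⟩ : ∃ X0 : ℝ, ∀ x, X0 ≤ x → 1 ≤ x ∧ Y ≤ x ^ (ε' / 2) := by
    have h1 := (tendsto_rpow_atTop (by linarith : 0 < ε' / 2)).eventually_ge_atTop Y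
    obtain ⟨X0, hX0⟩ := Filter.eventually_atTop.1 (h1.and (Filter.eventually_ge_atTop (1 : ℝ)))
    exact ⟨X0, fun x hx => ⟨(hX0 x hx).2, (hX0 x hx).1⟩⟩
  refine ⟨3 * Cm + 1, ⌈|T0| * Q⌉₊ + 2 * Cm + 10000 + ⌈|X0|⌉₊, fun N hN => ?_⟩
  have hNr : ((⌈|T0| * Q⌉₊ + 2 * Cm + 10000 + ⌈|X0|⌉₊ : ℕ) : ℝ) ≤ (N : ℝ) := Nat.cast_le.2 hN
  push_cast at hNr
  have hceil := Nat.le_ceil (|T0| * Q)
  have hceil0 : (0 : ℝ) ≤ (⌈|T0| * Q⌉₊ : ℝ) := Nat.cast_nonneg _
  have hceil2 := Nat.le_ceil (|X0|)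
  have hceil3 : (0 : ℝ) ≤ (⌈|X0|⌉₊ : ℝ) := Nat.cast_nonneg _
  have hCm0 : (0 : ℝ) ≤ (Cm : ℝ) := Nat.cast_nonneg _
  have hQ1 : (1 : ℝ) ≤ (Q : ℝ) := by exact_mod_cast hSF.Q_pos
  have hG1 : (1 : ℝ) ≤ (G : ℝ) := by exact_mod_cast hG
  have hN2 : (10000 : ℝ) ≤ (N : ℝ) := by linarith
  have hN1 : 2 * (Cm : ℝ) ≤ (N : ℝ) := by linarith
  have hN3 : |T0| * Q ≤ (N : ℝ) := by linarith
  have hN4 : X0 ≤ N := (le_abs_self X0).trans (by linarith)
  obtain ⟨hN5, hN6⟩ := hX0 N hN4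
  obtain ⟨T, hTdef⟩ : ∃ T : ℝ, T = 1000 * (G : ℝ) * N / Q := ⟨_, rfl⟩
  have hTT : T0 ≤ T := by
    rw [hTdef, le_div_iff₀ (by linarith)]
    have h1 : T0 * Q ≤ |T0| * Q := mul_le_mul_of_nonneg_right (le_abs_self _) (by linarith)
    have h2 : (N : ℝ) ≤ 1000 * (G : ℝ) * N := by nlinarith
    linarith
  have hcount := hT0 T hTT
  set Gt := (rT T).filter (fun t : ℕ => |(t : ℝ) - T| ≤ 1 / 10000 * T ∧
        (543 / 2000 - 1 / 10000) * (M : ℝ) ≤
          ((univ.filter (fun l : Fin M => ∃ j : Fin k, (a (l, j) * t + 1).Prime)).card : ℝ)) with hGt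
  set F := (range N).filter (fun n : ℕ => (N : ℝ) / Real.exp 1 + 1 ≤ n ∧ n + 1 ≤ N ∧ ∃ p p' : ℕ,
        p.Prime ∧ p'.Prime ∧ p ∣ n ∧ p' ∣ n + 1 ∧ N < (3 * Cm + 1) * p ∧ N < (3 * Cm + 1) * p') with hF
  have hsub : Gt ⊆ (univ : Finset ((Fin M × Fin k) × (Fin M × Fin k))).biUnion
      (fun x => Gt.filter (fun t => 1 ≤ c x.2 / (c x.1 - c x.2) ∧
        c x.2 / (c x.1 - c x.2) * (a x.2 * t + 1) ∈ F)) := by
    intro t ht
    have ht' := ht
    rw [hGt, Finset.mem_filter] at ht'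
    obtain ⟨-, ht1, ht2⟩ := ht'
    obtain ⟨i, i', h1, h2, h3, h4⟩ := last_core hM hG1 hQ1 hN2 hN1 hTdef ht1 hc1 hcfg hca hCm ht2
    rw [Finset.mem_biUnion]
    refine ⟨(i, i'), Finset.mem_univ _, ?_⟩
    rw [Finset.mem_filter]
    refine ⟨ht, h1, ?_⟩
    rw [hF, Finset.mem_filter, Finset.mem_range]
    exact ⟨Nat.lt_of_succ_le h3, h2, h3, h4⟩
  have hcard : Gt.card ≤ (M * k * (M * k)) * F.card := by
    calc Gt.card ≤ _ := Finset.card_le_card hsub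
      _ ≤ ∑ x : (Fin M × Fin k) × (Fin M × Fin k), (Gt.filter (fun t => 1 ≤ c x.2 / (c x.1 - c x.2) ∧
        c x.2 / (c x.1 - c x.2) * (a x.2 * t + 1) ∈ F)).card := Finset.card_biUnion_le
      _ ≤ ∑ _x : (Fin M × Fin k) × (Fin M × Fin k), F.card := by
          refine Finset.sum_le_sum fun x _ => ?_
          refine Finset.card_le_card_of_injOn (fun t => c x.2 / (c x.1 - c x.2) * (a x.2 * t + 1)) ?_ ?_
          · intro t ht
            exact (Finset.mem_filter.1 ht).2.2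
          · intro t ht t' ht' htt
            have h1 := (Finset.mem_filter.1 ht).2.1
            have h2 : a x.2 * t + 1 = a x.2 * t' + 1 := Nat.eq_of_mul_eq_mul_left (by omega) htt
            have h3 := hSF.pos x.2
            have h4 : a x.2 * t = a x.2 * t' := by omega
            exact Nat.eq_of_mul_eq_mul_left (by omega) h4
      _ = (M * k * (M * k)) * F.card := by
          rw [Finset.sum_const, smul_eq_mul, Finset.card_univ, Fintype.card_prod, Fintype.card_prod,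
            Fintype.card_fin, Fintype.card_fin]
  have hcardr : (Gt.card : ℝ) ≤ (M * k * (M * k)) * F.card := by exact_mod_cast hcard
  have hMk : (1 : ℝ) ≤ (M : ℝ) * k := by
    have : 1 ≤ M * k := Nat.mul_pos hM1 hk
    exact_mod_cast this
  have hN0 : (0 : ℝ) < N := by linarith
  have hTN : (N : ℝ) / Q ≤ T := by
    rw [hTdef]
    apply div_le_div_of_nonneg_right _ (by linarith)
    nlinarith
  have hT1 : (N : ℝ) ^ (1 - ε' / 2) / Q ≤ T ^ (1 - ε' / 2) := by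
    have h1 : ((N : ℝ) / Q) ^ (1 - ε' / 2) ≤ T ^ (1 - ε' / 2) :=
      Real.rpow_le_rpow (by positivity) hTN (by linarith)
    refine le_trans ?_ h1
    rw [Real.div_rpow hN0.le (by linarith)]
    apply div_le_div_of_nonneg_left (by positivity) (by positivity)
    calc (Q : ℝ) ^ (1 - ε' / 2) ≤ (Q : ℝ) ^ (1 : ℝ) := Real.rpow_le_rpow_of_exponent_le hQ1 (by linarith)
      _ = Q := Real.rpow_one _
  have hpow : (N : ℝ) ^ (1 - ε' / 2) = (N : ℝ) ^ (ε' / 2) * (N : ℝ) ^ (1 - ε') := by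
    rw [← Real.rpow_add hN0]
    congr 1
    ring
  have hp0 : (0 : ℝ) < (N : ℝ) ^ (1 - ε') := Real.rpow_pos_of_pos hN0 _
  have h1 : Y * (N : ℝ) ^ (1 - ε') ≤ (N : ℝ) ^ (1 - ε' / 2) := by
    rw [hpow]
    exact mul_le_mul_of_nonneg_right hN6 hp0.le
  have h2 : Y * (N : ℝ) ^ (1 - ε') / Q ≤ (M * k * (M * k)) * F.card :=
    ((div_le_div_of_nonneg_right h1 (by linarith)).trans hT1).trans (hcount.trans hcardr)
  have h3 : Y * (N : ℝ) ^ (1 - ε') / Q = (M * k * (M * k)) * (N : ℝ) ^ (1 - ε') := by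
    rw [hY]
    field_simp
  rw [h3] at h2
  have h4 : (N : ℝ) ^ (1 - ε') ≤ F.card := le_of_mul_le_mul_left h2 (by positivity)
  refine le_trans ?_ h4
  exact Real.rpow_le_rpow_of_exponent_le (by linarith) (by linarith)

end EGF
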