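import Pool.Agent.H69.EGD.Defs

/-!
# The two equidistribution inputs of MP_0e3417 as propositions

`BVS` is the statement of `EG.bv` (Bombieri-Vinogradov) and `DispS` the one of `EG.disp` (dispersion estimate). The chain from them to the theorem takes them as arguments, so that it can be compiled in parallel with
their proofs; they are supplied in the hand-in.
-/

open Finset H69LB EG

namespace EGF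

def BVS : Prop := ∀ {ε : ℝ}, 0 < ε → ∀ (A C : ℝ) (w0 : ℕ), ∃ (B : ℝ) (P : ℝ → ℕ), (∀ x, (P x).Prime ∧ w0 < P x) ∧
    ∀ (M : ℝ) (W : ℝ → ℝ), 0 < M → WS M W → ∃ x0 : ℝ, ∀ x, x0 ≤ x → ((P x : ℕ) : ℝ) ≤ Real.log x ^ B ∧
      ∃ E : ℕ → ℝ, (∀ q, 0 ≤ E q) ∧
      (∀ q : ℕ, 1 ≤ q → (q : ℝ) ≤ x ^ (1 / 2 - ε) → ¬ P x ∣ q → ∀ a : ℕ, Nat.Coprime a q →
        |∑ n ∈ (Icc 1 (NN M x)).filter (fun n => n ≡ a [MOD q]),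
            ArithmeticFunction.vonMangoldt n * W (Real.log (n / x)) -
          x * (∫ η, W η * Real.exp η) / (Nat.totient q : ℝ)| ≤ E q) ∧
      ∑ q ∈ (Icc 1 ⌊x ^ (1 / 2 - ε)⌋₊).filter (fun q => ¬ P x ∣ q), C ^ q.primeFactors.card * E q ≤
        x / Real.log x ^ A

def DispS : Prop := ∀ {η : ℝ} {φ : ℝ → ℝ}, Wt η φ → ∀ {r : ℝ}, 0 < r → r < 3 / 11 →
    ∃ δ : ℝ, 0 < δ ∧ ∀ Q a b : ℕ, 1 ≤ a → 1 ≤ b → a ≠ b → a ∣ Q → b ∣ Q →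
      (∀ p : ℕ, p.Prime → (p : ℤ) ∣ (a : ℤ) - b → p ∣ Q) → ∃ T0 : ℝ, ∀ T, T0 ≤ T →
      ∀ q ρ : ℕ, 1 ≤ q → (q : ℝ) ≤ T ^ δ → Nat.Coprime q Q →
      ∀ S : Finset ℕ, (∀ d ∈ S, Squarefree d ∧ Nat.Coprime d (Q * q) ∧ (d : ℝ) ≤ T ^ r) →
      ∀ l l' : ℕ → ℝ, (∀ d, |l d| ≤ 1) → (∀ d, |l' d| ≤ 1) →
        |∑ d ∈ S ×ˢ S, ∑ e ∈ (S ×ˢ S).filter (fun e => Nat.Coprime (Nat.lcm d.1 d.2) (Nat.lcm e.1 e.2)),
          l d.1 * l d.2 * (l' e.1 * l' e.2) *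
            (NDE φ T a b q ρ (Nat.lcm d.1 d.2) (Nat.lcm e.1 e.2) -
              T * (∫ x, φ x) / ((Nat.lcm d.1 d.2 : ℝ) * (Nat.lcm e.1 e.2 : ℝ) * q))| ≤ T ^ (1 - δ)

end EGF
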