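import Pool.Agent.H6.EGF.Stat
import Pool.Agent.H6.EG.E2a
import Pool.Agent.H6.EG.E2n
import Pool.Agent.H6.EG.Mtx
import Pool.Agent.H6.EG.AbsJ
import Pool.Agent.H6.EG.E2c

/-!
# MP_0e3417: the sums over primes (rows E2b and E2, see there), from Bombieri-Vinogradov as an argument
-/

open Finset H69LB EG

namespace EGF

theorem E2b_om {c : ℝ} (hc : 1 ≤ c) : ∃ C : ℝ, 1 ≤ C ∧ ∀ q : ℕ, 1 ≤ q →
    c ^ q.primeFactors.card ≤ C * Real.sqrt q := by
  obtain ⟨m, hm⟩ : ∃ m : ℕ, c ^ 2 ≤ m := exists_nat_ge _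
  have hc0 : 0 < c := by linarith
  refine ⟨c ^ m, one_le_pow₀ hc, fun q hq => ?_⟩
  have h1 : ∀ p ∈ q.primeFactors, c ≤ (if p ≤ m then c else 1) * Real.sqrt p := by
    intro p hp
    have hp1 := (Nat.prime_of_mem_primeFactors hp).one_lt
    split_ifs with h
    · have : 1 ≤ Real.sqrt p := by
        rw [Real.one_le_sqrt]
        exact_mod_cast hp1.le
      nlinarith
    · rw [one_mul]
      apply Real.le_sqrt_of_sq_le
      push Not at h
      have : (m : ℝ) ≤ p := by exact_mod_cast h.le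
      linarith
  calc c ^ q.primeFactors.card = ∏ _p ∈ q.primeFactors, c := by rw [Finset.prod_const]
    _ ≤ ∏ p ∈ q.primeFactors, (if p ≤ m then c else 1) * Real.sqrt p :=
        Finset.prod_le_prod (fun _ _ => hc0.le) h1
    _ = (∏ p ∈ q.primeFactors, (if p ≤ m then c else 1)) * ∏ p ∈ q.primeFactors, Real.sqrt p :=
        Finset.prod_mul_distrib
    _ ≤ c ^ m * Real.sqrt q := by
        refine mul_le_mul ?_ ?_ (Finset.prod_nonneg fun _ _ => Real.sqrt_nonneg _) (by positivity)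
        · rw [← Finset.prod_filter, Finset.prod_const]
          refine pow_le_pow_right₀ hc ?_
          have h2 : q.primeFactors.filter (fun p => p ≤ m) ⊆ Icc 1 m := by
            intro p hp
            rw [mem_filter] at hp
            rw [mem_Icc]
            exact ⟨(Nat.prime_of_mem_primeFactors hp.1).one_lt.le, hp.2⟩
          simpa using card_le_card h2
        · rw [← Real.sqrt_prod _ (fun p _ => Nat.cast_nonneg p)]
          refine Real.sqrt_le_sqrt ?_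
          have h3 : ∏ p ∈ q.primeFactors, p ≤ q := Nat.le_of_dvd hq (Nat.prod_primeFactors_dvd q)
          rw [← Nat.cast_prod]
          exact Nat.cast_le.2 h3

theorem E2b_sum {c : ℝ} (hc : 1 ≤ c) : ∃ C : ℝ, 1 ≤ C ∧ ∀ y : ℝ, 1 ≤ y → ∀ S : Finset ℕ,
    (∀ q ∈ S, 1 ≤ q ∧ (q : ℝ) ≤ y) → ∑ q ∈ S, c ^ q.primeFactors.card ≤ C * y ^ 2 := by
  obtain ⟨C, hC, h⟩ := E2b_om hc
  refine ⟨C, hC, fun y hy S hS => ?_⟩
  have h1 : ∀ q ∈ S, c ^ q.primeFactors.card ≤ C * y := by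
    intro q hq
    refine (h q (hS q hq).1).trans (mul_le_mul_of_nonneg_left ?_ (by linarith))
    refine le_trans ?_ (hS q hq).2
    rw [Real.sqrt_le_left (Nat.cast_nonneg q)]
    have : (1 : ℝ) ≤ q := by exact_mod_cast (hS q hq).1
    nlinarith
  have h2 : (S.card : ℝ) ≤ y := by
    have h3 : S ⊆ Icc 1 ⌊y⌋₊ := by
      intro q hq
      rw [mem_Icc]
      exact ⟨(hS q hq).1, Nat.le_floor (hS q hq).2⟩
    have h4 : S.card ≤ ⌊y⌋₊ := by simpa using card_le_card h3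
    exact (Nat.cast_le.2 h4).trans (Nat.floor_le (by linarith))
  calc ∑ q ∈ S, c ^ q.primeFactors.card ≤ ∑ _q ∈ S, C * y := sum_le_sum h1
    _ = S.card * (C * y) := by rw [sum_const, nsmul_eq_mul]
    _ ≤ y * (C * y) := mul_le_mul_of_nonneg_right h2 (by positivity)
    _ = C * y ^ 2 := by ring

theorem E2b_tot {ι : Type} [DecidableEq ι] (s : Finset ι) (B : ι → ℕ)
    (hc : ∀ i j, i ≠ j → Nat.Coprime (B i) (B j)) :
    Nat.totient (∏ i ∈ s, B i) = ∏ i ∈ s, Nat.totient (B i) := by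
  induction s using Finset.induction_on with
  | empty => simp
  | insert i s hi ih =>
    rw [prod_insert hi, prod_insert hi, Nat.totient_mul, ih]
    refine Nat.Coprime.prod_right fun j hj => hc i j ?_
    rintro rfl
    exact hi hj

theorem E2b_DA {e0 v0 T : ℝ} (hT : 1 ≤ T) {Q n n' B : ℕ} (hB : B ∈ DA e0 v0 T Q n n') :
    (B : ℝ) ≤ T ^ (e0 * vv v0 n + e0 * vv v0 n') := by
  have hT0 : 0 < T := by linarith
  unfold DA lcD at hB
  rw [mem_image] at hB
  obtain ⟨⟨d, d'⟩, hp, rfl⟩ := hB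
  rw [mem_product] at hp
  obtain ⟨h1, h2⟩ := hp
  unfold EG.sq at h1 h2
  rw [mem_filter, mem_Icc] at h1 h2
  have h3 : (d : ℝ) ≤ T ^ (e0 * vv v0 n) :=
    (Nat.cast_le.2 h1.1.2).trans (Nat.floor_le (by positivity))
  have h4 : (d' : ℝ) ≤ T ^ (e0 * vv v0 n') :=
    (Nat.cast_le.2 h2.1.2).trans (Nat.floor_le (by positivity))
  have h5 : ((Nat.lcm d d' : ℕ) : ℝ) ≤ d * d' := by
    have h6 : Nat.lcm d d' ≤ d * d' :=
      Nat.le_of_dvd (Nat.mul_pos h1.1.1 h2.1.1) (Nat.lcm_dvd_mul d d')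
    exact_mod_cast h6
  rw [Real.rpow_add hT0]
  exact h5.trans (mul_le_mul h3 h4 (Nat.cast_nonneg _) (by positivity))

theorem E2b_sq (Q z : ℕ) : Good Q (EG.sq Q z) := by
  intro B hB
  unfold EG.sq at hB
  exact (mem_filter.1 hB).2

/-- the moduli -/
noncomputable def E2b_S (e0 T : ℝ) (Q : ℕ) : Finset ℕ :=
  (Icc 1 ⌊T ^ (2 * e0)⌋₊).filter (fun q => Nat.Coprime q Q)

theorem E2b_core {e0 v0 : ℝ} (he0 : 0 < e0) (he1 : e0 ≤ 1 / 8) (hv0 : 0 < v0) (m : ℕ)
    {ι : Type} [Fintype ι] [DecidableEq ι] {Q : ℕ} {a : ι → ℕ} (ha : SForms Q a) {p : ℕ}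
    (hp : p.Prime) {T I : ℝ} (hT : 1 ≤ T) {n n' : ι → ℕ} (hn : n ∈ AS ι v0 m)
    (hn' : n' ∈ AS ι v0 m) (j : ι) (g : ℕ → ℝ) (X : ℕ → ℝ) (hX : ∀ q, 0 ≤ X q)
    (hg : ∀ q : ℕ, 1 ≤ q → (q : ℝ) ≤ T ^ (2 * e0) → Nat.Coprime q (Q * p) → ∀ ρ : ℕ,
      Nat.Coprime (a j * ρ + 1) (a j * q) →
      |∑ t ∈ (rT T).filter (fun t => t ≡ ρ [MOD q]), g t - I / (Nat.totient q : ℝ)| ≤ X q) :
    |∑ t ∈ rT T, g t *
          ∏ i, Fn (Function.update (fun i => DA e0 v0 T (Q * p) (n i) (n' i)) j {1} i)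
            (Function.update (fun i => fA e0 v0 T (Q * p) (n i) (n' i)) j (fun _ => 1) i) (a i * t + 1) -
        I * Mm (Function.update (fun i => DA e0 v0 T (Q * p) (n i) (n' i)) j {1})
            (Function.update (fun i B => fA e0 v0 T (Q * p) (n i) (n' i) B * ((B : ℝ) / (Nat.totient B : ℝ))) j
              (fun _ => 1)) 1| ≤
      ((4 / v0 * (1 + Real.log T) ^ 3) ^ 2) ^ Fintype.card ι *
        ∑ q ∈ E2b_S e0 T (Q * p), ((2 : ℝ) ^ (Fintype.card ι + 2)) ^ q.primeFactors.card * X q := by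
  have hT0 : 0 < T := by linarith
  have hlT := Real.log_nonneg hT
  have hvp : ∀ k, 0 < vv v0 k := fun k => by unfold vv; positivity
  have hs : ∀ {n : ι → ℕ}, n ∈ AS ι v0 m → ∑ i, vv v0 (n i) ≤ 1 := by
    intro n hn
    unfold AS at hn
    exact (mem_filter.1 hn).2
  have hle : ∀ {n : ι → ℕ}, n ∈ AS ι v0 m → ∀ i, vv v0 (n i) ≤ 1 := by
    intro n hn i
    exact (single_le_sum (f := fun i => vv v0 (n i)) (fun j _ => (hvp _).le) (mem_univ i)).trans (hs hn)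
  have hv1 : v0 ≤ 1 := by
    refine le_trans ?_ (hle hn j)
    unfold vv
    have h : (1 : ℝ) ≤ 2 ^ (n j) := one_le_pow₀ (by norm_num)
    nlinarith
  obtain ⟨F0, hF0⟩ : ∃ F0, F0 = 4 / v0 * (1 + Real.log T) ^ 3 := ⟨_, rfl⟩
  have hF1 : 1 ≤ F0 := by
    rw [hF0]
    have h1 : 1 ≤ 4 / v0 := by
      rw [le_div_iff₀ hv0]
      linarith
    have h2 : 1 ≤ (1 + Real.log T) ^ 3 := one_le_pow₀ (by linarith)
    nlinarith
  rw [← hF0]
  obtain ⟨D, hDdef⟩ : ∃ D, D = Function.update (fun i => DA e0 v0 T (Q * p) (n i) (n' i)) j {1} := ⟨_, rfl⟩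
  obtain ⟨f, hfdef⟩ : ∃ f, f = Function.update (fun i => fA e0 v0 T (Q * p) (n i) (n' i)) j (fun _ => 1) := ⟨_, rfl⟩
  obtain ⟨f', hf'def⟩ : ∃ f', f' = Function.update
    (fun i (B : ℕ) => fA e0 v0 T (Q * p) (n i) (n' i) B * ((B : ℝ) / (Nat.totient B : ℝ))) j
              (fun _ => 1) := ⟨_, rfl⟩
  rw [← hDdef, ← hfdef, ← hf'def]
  have hDj : D j = {1} := by rw [hDdef, Function.update_self]
  have hDi : ∀ i, i ≠ j → D i = DA e0 v0 T (Q * p) (n i) (n' i) := by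
    intro i hi
    rw [hDdef, Function.update_of_ne hi]
  have hfj : f j = fun _ => 1 := by rw [hfdef, Function.update_self]
  have hfi : ∀ i, i ≠ j → f i = fA e0 v0 T (Q * p) (n i) (n' i) := by
    intro i hi
    rw [hfdef, Function.update_of_ne hi]
  have hf'j : f' j = fun _ => 1 := by rw [hf'def, Function.update_self]
  have hf'i : ∀ i, i ≠ j → f' i = fun B : ℕ => fA e0 v0 T (Q * p) (n i) (n' i) B * ((B : ℝ) / (Nat.totient B : ℝ)) := by
    intro i hi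
    rw [hf'def, Function.update_of_ne hi]
  have hD : ∀ i, Good (Q * p) (D i) := by
    intro i
    by_cases hi : i = j
    · rw [hi, hDj]
      intro B hB
      rw [mem_singleton] at hB
      rw [hB]
      exact ⟨squarefree_one, Nat.coprime_one_left _⟩
    · rw [hDi i hi]
      exact good_lcD (E2b_sq _ _) (E2b_sq _ _)
  have hmtx := mtx (ha.forms hp.one_lt.le) (f := f) hD (rT T) g
  rw [hmtx]
  have hM : Mm D f' 1 = ∑ B ∈ (Fintype.piFinset D).filter
      (fun B => ∀ i j, i ≠ j → Nat.Coprime (B i) (B j)), ∏ i, f' i (B i) / (B i : ℝ) := by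
    unfold Mm
    refine Finset.sum_congr (Finset.filter_congr (fun B _ => ?_)) (fun _ _ => rfl)
    exact ⟨fun h => h.1, fun h => ⟨h, fun i => Nat.coprime_one_right _⟩⟩
  have hprodle : ∀ B ∈ Fintype.piFinset D, ((∏ i, B i : ℕ) : ℝ) ≤ T ^ (2 * e0) := by
    intro B hB
    rw [Fintype.mem_piFinset] at hB
    push_cast
    have h1 : ∀ i, (B i : ℝ) ≤ T ^ (e0 * vv v0 (n i) + e0 * vv v0 (n' i)) := by
      intro i
      by_cases hi : i = j
      · have h2 := hB i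
        rw [hi, hDj, mem_singleton] at h2
        rw [hi, h2, Nat.cast_one]
        exact Real.one_le_rpow hT (add_nonneg (mul_nonneg he0.le (hvp _).le) (mul_nonneg he0.le (hvp _).le))
      · have h2 := hB i
        rw [hDi i hi] at h2
        exact E2b_DA hT h2
    refine (prod_le_prod (fun i _ => Nat.cast_nonneg _) fun i _ => h1 i).trans ?_
    rw [← Real.rpow_sum_of_pos hT0]
    refine Real.rpow_le_rpow_of_exponent_le hT ?_
    rw [sum_add_distrib, ← mul_sum, ← mul_sum]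
    have := hs hn
    have := hs hn'
    nlinarith
  have hgood : ∀ B ∈ Fintype.piFinset D, ∀ i, 1 ≤ B i ∧ Nat.Coprime (B i) (Q * p) := by
    intro B hB i
    rw [Fintype.mem_piFinset] at hB
    have h1 := hD i (B i) (hB i)
    exact ⟨Nat.pos_of_ne_zero h1.1.ne_zero, h1.2⟩
  have hqc : ∀ B ∈ Fintype.piFinset D, Nat.Coprime (∏ i, B i) (Q * p) := by
    intro B hB
    exact Nat.Coprime.prod_left fun i _ => (hgood B hB i).2
  have hq1 : ∀ B ∈ Fintype.piFinset D, 1 ≤ ∏ i, B i := by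
    intro B hB
    refine Nat.pos_of_ne_zero (Finset.prod_ne_zero_iff.2 (fun i _ => ?_))
    have := (hgood B hB i).1
    omega
  have htup := tup (ι := ι) hD hX (𝒬 := E2b_S e0 T (Q * p)) (by
    intro B hB _
    unfold E2b_S
    rw [mem_filter, mem_Icc]
    exact ⟨⟨hq1 B hB, Nat.le_floor (hprodle B hB)⟩, hqc B hB⟩)
  refine le_trans ?_ (mul_le_mul_of_nonneg_left htup (by positivity))
  rw [hM, mul_sum, mul_sum, ← sum_sub_distrib]
  refine (abs_sum_le_sum_abs _ _).trans (sum_le_sum fun B hB => ?_)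
  rw [mem_filter] at hB
  obtain ⟨hBp, hBc⟩ := hB
  have hBD := hBp
  rw [Fintype.mem_piFinset] at hBD
  have hBj : B j = 1 := by
    have h1 := hBD j
    rw [hDj, mem_singleton] at h1
    exact h1
  obtain ⟨ρ, hρ⟩ := crtB (ha.forms hp.one_lt.le) (hgood B hBp) hBc
  have hfil : (rT T).filter (fun t => ∀ i, B i ∣ a i * t + 1) =
      (rT T).filter (fun t => t ≡ ρ [MOD ∏ i, B i]) :=
    Finset.filter_congr (fun t _ => hρ t)
  rw [hfil]
  have hco : Nat.Coprime (a j * ρ + 1) (a j * ∏ i, B i) := by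
    by_contra hcon
    rw [Nat.Prime.not_coprime_iff_dvd] at hcon
    obtain ⟨r, hr, h1, h2⟩ := hcon
    rcases hr.dvd_mul.1 h2 with h3 | h3
    · have h4 : r ∣ 1 := (Nat.dvd_add_right (h3.mul_right ρ)).1 h1
      exact hr.one_lt.ne' (Nat.dvd_one.1 h4)
    · obtain ⟨i, _, h4⟩ := (Prime.dvd_finsetProd_iff hr.prime B).1 h3
      have hij : i ≠ j := by
        rintro rfl
        rw [hBj] at h4
        exact hr.one_lt.ne' (Nat.dvd_one.1 h4)
      have h5 : r ∣ a i * ρ + 1 := h4.trans ((hρ ρ).2 (Nat.ModEq.refl ρ) i)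
      have h6 : (r : ℤ) ∣ (a i : ℤ) - a j := by
        have e : (a i : ℤ) - a j = (a i : ℤ) * ((a j : ℤ) * ρ + 1) - (a j : ℤ) * ((a i : ℤ) * ρ + 1) := by ring
        rw [e]
        have h7 : (r : ℤ) ∣ (a j : ℤ) * ρ + 1 := by exact_mod_cast h1
        have h8 : (r : ℤ) ∣ (a i : ℤ) * ρ + 1 := by exact_mod_cast h5
        exact dvd_sub (h7.mul_left _) (h8.mul_left _)
      have h7 := ha.diff i j hij r hr h6
      have h8 : r ∣ Nat.gcd (B i) (Q * p) := Nat.dvd_gcd h4 (h7.mul_right p)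
      rw [Nat.Coprime.gcd_eq_one (hgood B hBp i).2] at h8
      exact hr.one_lt.ne' (Nat.dvd_one.1 h8)
  have hmain := hg (∏ i, B i) (hq1 B hBp) (hprodle B hBp) (hqc B hBp) ρ hco
  have hf' : ∏ i, f' i (B i) / (B i : ℝ) = (∏ i, f i (B i)) / (Nat.totient (∏ i, B i) : ℝ) := by
    rw [E2b_tot univ B hBc, Nat.cast_prod, ← prod_div_distrib]
    refine prod_congr rfl fun i _ => ?_
    by_cases hi : i = j
    · rw [hi, hf'j, hfj, hBj]
      simp
    · rw [hf'i i hi, hfi i hi]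
      have h1 : (B i : ℝ) ≠ 0 := by
        have := (hgood B hBp i).1
        positivity
      field_simp
  rw [hf']
  have h3 : (∏ i, f i (B i)) * ∑ t ∈ (rT T).filter (fun t => t ≡ ρ [MOD ∏ i, B i]), g t -
      I * ((∏ i, f i (B i)) / (Nat.totient (∏ i, B i) : ℝ)) =
      (∏ i, f i (B i)) * (∑ t ∈ (rT T).filter (fun t => t ≡ ρ [MOD ∏ i, B i]), g t -
        I / (Nat.totient (∏ i, B i) : ℝ)) := by ring
  rw [h3, abs_mul, Finset.abs_prod, ← mul_assoc]
  refine mul_le_mul ?_ hmain (abs_nonneg _) (by positivity)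
  have h4 : ∀ i, |f i (B i)| ≤ F0 ^ 2 * 4 ^ (B i).primeFactors.card := by
    intro i
    by_cases hi : i = j
    · rw [hi, hfj, hBj]
      simp only [abs_one, Nat.primeFactors_one, card_empty, pow_zero, mul_one]
      exact one_le_pow₀ hF1
    · rw [hfi i hi]
      obtain ⟨a1, _⟩ := la_abs he0 (by linarith) hv0 hT (Q * p) (n i) (hle hn i)
      obtain ⟨b1, _⟩ := la_abs he0 (by linarith) hv0 hT (Q * p) (n' i) (hle hn' i)
      rw [← hF0] at a1 b1
      have h5 := lcf_bd (E2b_sq (Q * p) (zz e0 v0 T (n i))) (E2b_sq (Q * p) (zz e0 v0 T (n' i))) a1 b1 (B i)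
      unfold fA
      refine h5.trans (le_of_eq ?_)
      ring
  calc ∏ i, |f i (B i)| ≤ ∏ i, (F0 ^ 2 * 4 ^ (B i).primeFactors.card) :=
        prod_le_prod (fun i _ => abs_nonneg _) fun i _ => h4 i
    _ = _ := by rw [prod_mul_distrib, prod_const, card_univ]

theorem E2b_fin {v : ℝ} (hv : 0 < v) (K : ℕ) (A : ℝ) {Q : ℝ} (hQ : 1 ≤ Q) {C : ℝ} (hC : 0 ≤ C) :
    ∀ᶠ T : ℝ in Filter.atTop,
    ((4 / v * (1 + Real.log T) ^ 3) ^ 2) ^ K *
      (Q * T / Real.log (Q * T) ^ (|A| + 6 * K + 2) + C * T ^ (1 / 2 : ℝ)) ≤ T / Real.log T ^ A := by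
  obtain ⟨G, hG⟩ : ∃ G, G = ((32 / v) ^ 2) ^ K := ⟨_, rfl⟩
  have hG0 : 0 < G := by rw [hG]; positivity
  have hlittle := (isLittleO_log_rpow_rpow_atTop (s := 1 / 2) (6 * (K : ℝ) + |A|) (by norm_num)).bound
    (show (0 : ℝ) < 1 / (2 * G * C + 1) by positivity)
  filter_upwards [hlittle, Filter.eventually_ge_atTop (Real.exp 1),
    Real.tendsto_log_atTop.eventually_ge_atTop (2 * G * Q)] with T h1 h2 h3
  have hT0 : 0 < T := lt_of_lt_of_le (Real.exp_pos 1) h2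
  have hL1 : 1 ≤ Real.log T := by rwa [Real.le_log_iff_exp_le hT0]
  obtain ⟨L, hL⟩ : ∃ L, L = Real.log T := ⟨_, rfl⟩
  rw [← hL] at h1 h3 hL1 ⊢
  have hL0 : 0 < L := by linarith
  have hLQ : L ≤ Real.log (Q * T) := by
    rw [hL]
    exact Real.log_le_log hT0 (by nlinarith)
  have hA0 := abs_nonneg A
  have hK0 : (0 : ℝ) ≤ K := Nat.cast_nonneg K
  have h4 : ((4 / v * (1 + L) ^ 3) ^ 2) ^ K ≤ G * L ^ (6 * K : ℝ) := by
    have h5 : 4 / v * (1 + L) ^ 3 ≤ 32 / v * L ^ 3 := by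
      have h6 : (1 + L) ^ 3 ≤ (2 * L) ^ 3 := pow_le_pow_left₀ (by positivity) (by linarith) 3
      calc 4 / v * (1 + L) ^ 3 ≤ 4 / v * (2 * L) ^ 3 := mul_le_mul_of_nonneg_left h6 (by positivity)
        _ = 32 / v * L ^ 3 := by ring
    calc ((4 / v * (1 + L) ^ 3) ^ 2) ^ K ≤ ((32 / v * L ^ 3) ^ 2) ^ K := by
          refine pow_le_pow_left₀ (by positivity) (pow_le_pow_left₀ (by positivity) h5 2) K
      _ = G * L ^ (6 * K : ℝ) := by
          rw [hG]
          have h7 : L ^ (6 * K : ℝ) = L ^ (6 * K) := by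
            rw [← Real.rpow_natCast]
            push_cast
            rfl
          rw [h7, mul_pow, mul_pow, ← pow_mul, ← pow_mul, ← pow_mul]
          congr 2
          ring
  have h5 : Q * T / Real.log (Q * T) ^ (|A| + 6 * K + 2) ≤ Q * T / L ^ (|A| + 6 * K + 2) := by
    refine div_le_div_of_nonneg_left (by positivity) (by positivity) ?_
    exact Real.rpow_le_rpow hL0.le hLQ (by positivity)
  have h6 : G * L ^ (6 * K : ℝ) * (Q * T / L ^ (|A| + 6 * K + 2)) ≤ 1 / 2 * (T / L ^ |A|) := by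
    have e : L ^ (|A| + 6 * K + 2) = L ^ |A| * L ^ (6 * K : ℝ) * L ^ (2 : ℝ) := by
      rw [← Real.rpow_add hL0, ← Real.rpow_add hL0]
    have hLA : 0 < L ^ |A| := by positivity
    have hLK : 0 < L ^ (6 * K : ℝ) := by positivity
    rw [e, Real.rpow_two]
    have e2 : G * L ^ (6 * K : ℝ) * (Q * T / (L ^ |A| * L ^ (6 * K : ℝ) * L ^ 2)) = (G * Q / L ^ 2) * (T / L ^ |A|) := by
      field_simp
    rw [e2]
    refine mul_le_mul_of_nonneg_right ?_ (by positivity)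
    rw [div_le_iff₀ (by positivity)]
    nlinarith
  have h7 : G * L ^ (6 * K : ℝ) * (C * T ^ (1 / 2 : ℝ)) ≤ 1 / 2 * (T / L ^ |A|) := by
    rw [Real.norm_of_nonneg (by positivity), Real.norm_of_nonneg (by positivity), one_div_mul_eq_div,
      le_div_iff₀ (by positivity), Real.rpow_add hL0] at h1
    have hLA : 0 < L ^ |A| := by positivity
    have hTT : T = T ^ (1 / 2 : ℝ) * T ^ (1 / 2 : ℝ) := by
      rw [← Real.rpow_add hT0]
      norm_num
    obtain ⟨u, hu⟩ : ∃ u, u = T ^ (1 / 2 : ℝ) := ⟨_, rfl⟩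
    have hu0 : 0 < u := by rw [hu]; positivity
    have hLK : 0 < L ^ (6 * K : ℝ) := by positivity
    rw [← hu] at h1 hTT ⊢
    have h8 : 2 * G * C * (L ^ (6 * K : ℝ) * L ^ |A|) ≤ u := by nlinarith
    rw [mul_div_assoc', le_div_iff₀ hLA]
    calc G * L ^ (6 * K : ℝ) * (C * u) * L ^ |A| = 1 / 2 * (2 * G * C * (L ^ (6 * K : ℝ) * L ^ |A|)) * u := by ring
      _ ≤ 1 / 2 * u * u := by
          refine mul_le_mul_of_nonneg_right (mul_le_mul_of_nonneg_left h8 (by norm_num)) hu0.le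
      _ = 1 / 2 * T := by rw [hTT]; ring
  have h8 : T / L ^ |A| ≤ T / L ^ A := by
    refine div_le_div_of_nonneg_left hT0.le (by positivity) ?_
    exact Real.rpow_le_rpow_of_exponent_le hL1 (le_abs_self A)
  have hnn : 0 ≤ Q * T / Real.log (Q * T) ^ (|A| + 6 * K + 2) + C * T ^ (1 / 2 : ℝ) := by
    have : 0 < Real.log (Q * T) := by linarith
    positivity
  calc ((4 / v * (1 + L) ^ 3) ^ 2) ^ K *
      (Q * T / Real.log (Q * T) ^ (|A| + 6 * K + 2) + C * T ^ (1 / 2 : ℝ))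
      ≤ G * L ^ (6 * K : ℝ) * (Q * T / Real.log (Q * T) ^ (|A| + 6 * K + 2) + C * T ^ (1 / 2 : ℝ)) :=
        mul_le_mul_of_nonneg_right h4 hnn
    _ ≤ G * L ^ (6 * K : ℝ) * (Q * T / L ^ (|A| + 6 * K + 2) + C * T ^ (1 / 2 : ℝ)) := by
        refine mul_le_mul_of_nonneg_left (by linarith) (by positivity)
    _ = G * L ^ (6 * K : ℝ) * (Q * T / L ^ (|A| + 6 * K + 2)) + G * L ^ (6 * K : ℝ) * (C * T ^ (1 / 2 : ℝ)) := by
        ring
    _ ≤ T / L ^ |A| := by linarith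
    _ ≤ T / L ^ A := h8

theorem E2b_P {Q : ℕ} (hQ : 1 ≤ Q) (B : ℝ) : ∀ᶠ T : ℝ in Filter.atTop,
    Real.log (Q * T) ^ B ≤ Real.log T ^ (|B| + 1) := by
  filter_upwards [Filter.eventually_ge_atTop (Real.exp 1), Filter.eventually_ge_atTop (Q : ℝ),
    Real.tendsto_log_atTop.eventually_ge_atTop (2 ^ |B|)] with T h1 h2 h3
  have hT0 : 0 < T := lt_of_lt_of_le (Real.exp_pos 1) h1
  have hL1 : 1 ≤ Real.log T := by rwa [Real.le_log_iff_exp_le hT0]
  have hQ0 : (1 : ℝ) ≤ Q := by exact_mod_cast hQ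
  have h4 : Real.log (Q * T) = Real.log Q + Real.log T := Real.log_mul (by positivity) (by positivity)
  have h5 : 0 ≤ Real.log Q := Real.log_nonneg hQ0
  have h6 : Real.log Q ≤ Real.log T := Real.log_le_log (by positivity) h2
  calc Real.log (Q * T) ^ B ≤ Real.log (Q * T) ^ |B| :=
        Real.rpow_le_rpow_of_exponent_le (by linarith) (le_abs_self B)
    _ ≤ (2 * Real.log T) ^ |B| := Real.rpow_le_rpow (by linarith) (by linarith) (abs_nonneg B)
    _ = 2 ^ |B| * Real.log T ^ |B| := Real.mul_rpow (by norm_num) (by linarith)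
    _ ≤ Real.log T * Real.log T ^ |B| := mul_le_mul_of_nonneg_right h3 (by positivity)
    _ = Real.log T ^ (|B| + 1) := by
        rw [Real.rpow_add (by linarith), Real.rpow_one]
        ring

theorem e2b (hbvs : BVS) {η : ℝ} {φ : ℝ → ℝ} (hφ : Wt η φ) {e0 v0 : ℝ} (he0 : 0 < e0) (he1 : e0 ≤ 1 / 8) (hv0 : 0 < v0) (m : ℕ) (A : ℝ)
    (ι : Type) [Fintype ι] [DecidableEq ι] (Q : ℕ) (a : ι → ℕ) (ha : SForms Q a) (w1 : ℕ) :
    ∃ (B : ℝ) (P : ℝ → ℕ), (∀ T, (P T).Prime ∧ w1 < P T ∧ ¬ P T ∣ Q) ∧ ∃ T0 : ℝ, ∀ T, T0 ≤ T → ((P T : ℕ) : ℝ) ≤ Real.log T ^ B ∧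
      ∀ n ∈ AS ι v0 m, ∀ n' ∈ AS ι v0 m, ∀ j : ι,
        |∑ t ∈ rT T, φ ((t : ℝ) / T) * ArithmeticFunction.vonMangoldt (a j * t + 1) *
            ∏ i, Fn (Function.update (fun i => DA e0 v0 T (Q * P T) (n i) (n' i)) j {1} i)
              (Function.update (fun i => fA e0 v0 T (Q * P T) (n i) (n' i)) j (fun _ => 1) i) (a i * t + 1) -
          T * (∫ x, φ x) * ((a j : ℝ) / (Nat.totient (a j) : ℝ)) *
            Mm (Function.update (fun i => DA e0 v0 T (Q * P T) (n i) (n' i)) j {1})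
              (Function.update (fun i B => fA e0 v0 T (Q * P T) (n i) (n' i) B * ((B : ℝ) / (Nat.totient B : ℝ))) j
                (fun _ => 1)) 1| ≤ T / Real.log T ^ A := by
  obtain ⟨B0, P0, hP0, hbv⟩ := hbvs (ε := 1 / 8) (by norm_num) (|A| + 6 * (Fintype.card ι : ℝ) + 2)
    ((2 : ℝ) ^ (Fintype.card ι + 2)) (max w1 Q)
  have hQ0 : (1 : ℝ) ≤ Q := by exact_mod_cast ha.Q_pos
  have hPQ : ∀ T : ℝ, ¬ P0 (Q * T) ∣ Q := by
    intro T h
    have h1 := Nat.le_of_dvd ha.Q_pos h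
    have h2 := (hP0 (Q * T)).2
    have h3 := le_max_right w1 Q
    omega
  refine ⟨|B0| + 1, fun T => P0 (Q * T), fun T => ⟨(hP0 _).1, lt_of_le_of_lt (le_max_left _ _) (hP0 _).2,
    hPQ T⟩, ?_⟩
  have hev : ∀ᶠ T : ℝ in Filter.atTop, ((P0 (Q * T) : ℕ) : ℝ) ≤ Real.log T ^ (|B0| + 1) ∧
      ∀ j : ι, ∀ n ∈ AS ι v0 m, ∀ n' ∈ AS ι v0 m,
        |∑ t ∈ rT T, φ ((t : ℝ) / T) * ArithmeticFunction.vonMangoldt (a j * t + 1) *
            ∏ i, Fn (Function.update (fun i => DA e0 v0 T (Q * P0 (Q * T)) (n i) (n' i)) j {1} i)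
              (Function.update (fun i => fA e0 v0 T (Q * P0 (Q * T)) (n i) (n' i)) j (fun _ => 1) i) (a i * t + 1) -
          T * (∫ x, φ x) * ((a j : ℝ) / (Nat.totient (a j) : ℝ)) *
            Mm (Function.update (fun i => DA e0 v0 T (Q * P0 (Q * T)) (n i) (n' i)) j {1})
              (Function.update (fun i B => fA e0 v0 T (Q * P0 (Q * T)) (n i) (n' i) B * ((B : ℝ) / (Nat.totient B : ℝ))) j
                (fun _ => 1)) 1| ≤ T / Real.log T ^ A := by
    refine Filter.Eventually.and ?_ (Filter.eventually_all.2 fun j => ?_)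
    · obtain ⟨x0, hx0⟩ := hbv 1 (fun _ => 0) one_pos ⟨contDiff_const, fun _ _ => rfl⟩
      filter_upwards [E2b_P ha.Q_pos B0, Filter.eventually_ge_atTop x0, Filter.eventually_ge_atTop 0]
        with T h1 h2 h3
      refine ((hx0 (Q * T) (h2.trans ?_)).1).trans h1
      nlinarith
    · obtain ⟨C1, T1, hC1, he2a⟩ := e2a hφ ha.Q_pos (ha.pos j) (ha.dvd j)
      have hlog : 0 ≤ Real.log (2 * Q) := Real.log_nonneg (by linarith)
      obtain ⟨x0, hx0⟩ := hbv (Real.log (2 * Q) + 1) _ (by linarith)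
        (e2a_ws hφ ha.Q_pos (ha.pos j) (ha.dvd j)).1
      have hc1 : (1 : ℝ) ≤ 2 ^ (Fintype.card ι + 2) := one_le_pow₀ (by norm_num)
      obtain ⟨C2, hC2, hsum⟩ := E2b_sum hc1
      filter_upwards [E2b_fin hv0 (Fintype.card ι) A hQ0 (show 0 ≤ C1 * C2 by positivity),
        Filter.eventually_ge_atTop x0, Filter.eventually_ge_atTop 1, Filter.eventually_ge_atTop T1,
        Filter.eventually_ge_atTop ((Q : ℝ) ^ 8)] with T h1 h2 h3 h4 h5 n hn n' hn'
      have hT0 : 0 < T := by linarith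
      obtain ⟨_, E, hE0, hE1, hE2⟩ := hx0 (Q * T) (by nlinarith)
      obtain ⟨p, hpdef⟩ : ∃ p, p = P0 (Q * T) := ⟨_, rfl⟩
      have hp : p.Prime := by rw [hpdef]; exact (hP0 _).1
      have hpQ : ¬ p ∣ Q := by rw [hpdef]; exact hPQ T
      rw [← hpdef] at hE1 hE2 ⊢
      have haQ : a j ≤ Q := Nat.le_of_dvd ha.Q_pos (ha.dvd j)
      have haQ' : (a j : ℝ) ≤ Q := by exact_mod_cast haQ
      have hsmall : ∀ q : ℕ, (q : ℝ) ≤ T ^ (2 * e0) → ((a j * q : ℕ) : ℝ) ≤ (Q * T) ^ (1 / 2 - 1 / 8 : ℝ) := by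
        intro q hq
        push_cast
        have h6 : (Q : ℝ) ≤ T ^ (1 / 8 : ℝ) := by
          rw [← Real.rpow_natCast] at h5
          calc (Q : ℝ) = ((Q : ℝ) ^ ((8 : ℕ) : ℝ)) ^ (1 / 8 : ℝ) := by
                rw [← Real.rpow_mul (by linarith)]
                norm_num
            _ ≤ T ^ (1 / 8 : ℝ) := Real.rpow_le_rpow (by positivity) h5 (by norm_num)
        have h7 : (q : ℝ) ≤ T ^ (1 / 4 : ℝ) :=
          hq.trans (Real.rpow_le_rpow_of_exponent_le h3 (by linarith))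
        calc (a j : ℝ) * q ≤ T ^ (1 / 8 : ℝ) * T ^ (1 / 4 : ℝ) :=
              mul_le_mul (haQ'.trans h6) h7 (Nat.cast_nonneg _) (by positivity)
          _ = T ^ (1 / 2 - 1 / 8 : ℝ) := by
              rw [← Real.rpow_add hT0]
              norm_num
          _ ≤ (Q * T) ^ (1 / 2 - 1 / 8 : ℝ) :=
              Real.rpow_le_rpow hT0.le (by nlinarith) (by norm_num)
      have hndvd : ∀ q : ℕ, Nat.Coprime q (Q * p) → ¬ p ∣ a j * q := by
        intro q hq h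
        rcases hp.dvd_mul.1 h with h6 | h6
        · exact hpQ (h6.trans (ha.dvd j))
        · have h7 : p ∣ Nat.gcd q (Q * p) := Nat.dvd_gcd h6 (Dvd.intro_left Q rfl)
          rw [Nat.Coprime.gcd_eq_one hq] at h7
          exact hp.one_lt.ne' (Nat.dvd_one.1 h7)
      have hcore := E2b_core he0 he1 hv0 m ha hp (I := T * (∫ x, φ x) * ((a j : ℝ) / (Nat.totient (a j) : ℝ)))
        h3 hn hn' j (fun t => φ ((t : ℝ) / T) * ArithmeticFunction.vonMangoldt (a j * t + 1))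
        (fun q => E (a j * q) + C1) (fun q => add_nonneg (hE0 _) hC1) (by
          intro q hq1 hq2 hq3 ρ hρ
          have h6 := he2a T h4 q hq1 (hq3.coprime_dvd_right ((ha.dvd j).mul_right p)) ρ
          refine h6.trans (add_le_add_left ?_ C1)
          exact hE1 (a j * q) (Nat.mul_pos (ha.pos j) hq1) (hsmall q hq2) (hndvd q hq3) _ hρ)
      refine hcore.trans (le_trans ?_ h1)
      refine mul_le_mul_of_nonneg_left ?_ (by positivity)
      have hS : ∀ q ∈ E2b_S e0 T (Q * p), (1 ≤ q ∧ (q : ℝ) ≤ T ^ (2 * e0)) ∧ Nat.Coprime q (Q * p) := by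
        intro q hq
        unfold E2b_S at hq
        rw [mem_filter, mem_Icc] at hq
        exact ⟨⟨hq.1.1, (Nat.cast_le.2 hq.1.2).trans (Nat.floor_le (by positivity))⟩, hq.2⟩
      have hsplit : ∑ q ∈ E2b_S e0 T (Q * p), ((2 : ℝ) ^ (Fintype.card ι + 2)) ^ q.primeFactors.card * (E (a j * q) + C1) =
          ∑ q ∈ E2b_S e0 T (Q * p), ((2 : ℝ) ^ (Fintype.card ι + 2)) ^ q.primeFactors.card * E (a j * q) +
          C1 * ∑ q ∈ E2b_S e0 T (Q * p), ((2 : ℝ) ^ (Fintype.card ι + 2)) ^ q.primeFactors.card := by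
        rw [mul_sum, ← sum_add_distrib]
        refine sum_congr rfl fun q _ => ?_
        ring
      rw [hsplit]
      refine add_le_add ?_ ?_
      · refine le_trans ?_ hE2
        calc ∑ q ∈ E2b_S e0 T (Q * p), ((2 : ℝ) ^ (Fintype.card ι + 2)) ^ q.primeFactors.card * E (a j * q)
            ≤ ∑ q ∈ E2b_S e0 T (Q * p), ((2 : ℝ) ^ (Fintype.card ι + 2)) ^ (a j * q).primeFactors.card * E (a j * q) := by
              refine sum_le_sum fun q hq => mul_le_mul_of_nonneg_right ?_ (hE0 _)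
              refine pow_le_pow_right₀ hc1 (card_le_card (Nat.primeFactors_mono (Dvd.intro_left _ rfl) ?_))
              have h6 := Nat.mul_pos (ha.pos j) (hS q hq).1.1
              omega
          _ = ∑ q ∈ (E2b_S e0 T (Q * p)).image (fun q => a j * q),
                ((2 : ℝ) ^ (Fintype.card ι + 2)) ^ q.primeFactors.card * E q := by
              rw [sum_image]
              intro x _ y _ hxy
              exact Nat.eq_of_mul_eq_mul_left (ha.pos j) hxy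
          _ ≤ _ := by
              refine sum_le_sum_of_subset_of_nonneg ?_ (fun q _ _ => mul_nonneg (by positivity) (hE0 q))
              intro q' hq'
              rw [mem_image] at hq'
              obtain ⟨q, hq, rfl⟩ := hq'
              obtain ⟨⟨h6, h7⟩, h8⟩ := hS q hq
              rw [mem_filter, mem_Icc]
              exact ⟨⟨Nat.mul_pos (ha.pos j) h6, Nat.le_floor (hsmall q h7)⟩, hndvd q h8⟩
      · rw [mul_assoc]
        refine mul_le_mul_of_nonneg_left ?_ hC1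
        refine (hsum (T ^ (2 * e0)) (Real.one_le_rpow h3 (by linarith)) _ (fun q hq => (hS q hq).1)).trans ?_
        refine mul_le_mul_of_nonneg_left ?_ (by linarith)
        rw [← Real.rpow_natCast, ← Real.rpow_mul hT0.le]
        refine Real.rpow_le_rpow_of_exponent_le h3 ?_
        push_cast
        linarith
  obtain ⟨T0, hT0⟩ := Filter.eventually_atTop.1 hev
  exact ⟨T0, fun T hT => ⟨(hT0 T hT).1, fun n hn n' hn' j => (hT0 T hT).2 j n hn n' hn'⟩⟩

theorem E2_log (M : ℝ) (N : ℕ) {κ : ℝ} (hκ : 0 < κ) {ε : ℝ} (hε : 0 < ε) :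
    ∃ T1 : ℝ, 1 ≤ T1 ∧ ∀ T, T1 ≤ T → M * (1 + Real.log T) ^ N * T ^ (1 - κ) ≤ ε * T := by
  have h1 := isLittleO_log_rpow_rpow_atTop (N : ℝ) hκ
  have hc : 0 < ε / ((|M| + 1) * 2 ^ N) := by positivity
  have h2 := (h1.def hc).and (Filter.eventually_ge_atTop (Real.exp 1))
  obtain ⟨T1, hT1⟩ := Filter.eventually_atTop.1 h2
  refine ⟨max T1 1, le_max_right _ _, ?_⟩
  intro T hT
  obtain ⟨h3, h4⟩ := hT1 T ((le_max_left _ _).trans hT)
  have hT0 : 0 < T := (Real.exp_pos 1).trans_le h4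
  have hL : 1 ≤ Real.log T := by
    rw [Real.le_log_iff_exp_le hT0]; exact h4
  rw [Real.rpow_natCast, Real.norm_of_nonneg (by positivity), Real.norm_of_nonneg (by positivity)] at h3
  have h5 : (1 + Real.log T) ^ N ≤ 2 ^ N * Real.log T ^ N := by
    rw [← mul_pow]
    exact pow_le_pow_left₀ (by linarith) (by linarith) N
  have h6 : T ^ (1 - κ) = T / T ^ κ := by
    rw [Real.rpow_sub hT0, Real.rpow_one]
  have hTk : 0 < T ^ κ := Real.rpow_pos_of_pos hT0 _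
  rw [h6, mul_div_assoc', div_le_iff₀ hTk]
  have h7 : M * (1 + Real.log T) ^ N ≤ (|M| + 1) * (2 ^ N * Real.log T ^ N) := by
    have h8 : M ≤ |M| + 1 := (le_abs_self M).trans (by linarith)
    exact mul_le_mul h8 h5 (by positivity) (by positivity)
  have h9 : (|M| + 1) * (2 ^ N * Real.log T ^ N) ≤ ε * T ^ κ := by
    have h10 := mul_le_mul_of_nonneg_left h3 (by positivity : 0 ≤ (|M| + 1) * 2 ^ N)
    have h11 : (|M| + 1) * 2 ^ N * (ε / ((|M| + 1) * 2 ^ N) * T ^ κ) = ε * T ^ κ := by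
      field_simp
    rw [h11] at h10
    linarith
  calc M * (1 + Real.log T) ^ N * T ≤ (ε * T ^ κ) * T :=
        mul_le_mul_of_nonneg_right (h7.trans h9) hT0.le
    _ = ε * T * T ^ κ := by ring

theorem E2_card (ι : Type) [Fintype ι] [DecidableEq ι] (v0 : ℝ) (m : ℕ) :
    (((AS ι v0 m).card : ℕ) : ℝ) ≤ ((m + 1 : ℕ) : ℝ) ^ Fintype.card ι := by
  have h1 : (AS ι v0 m).card ≤ (m + 1) ^ Fintype.card ι := by
    unfold AS
    refine (Finset.card_filter_le _ _).trans ?_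
    rw [Fintype.card_piFinset]
    simp
  exact_mod_cast h1

theorem E2_AS {ι : Type} [Fintype ι] [DecidableEq ι] {v0 : ℝ} (hv0 : 0 < v0) {m : ℕ} {n : ι → ℕ} (hn : n ∈ AS ι v0 m) :
    (∑ i, vv v0 (n i) ≤ 1) ∧ ∀ i, vv v0 (n i) ≤ 1 := by
  unfold AS at hn
  rw [Finset.mem_filter] at hn
  refine ⟨hn.2, fun i => le_trans ?_ hn.2⟩
  exact Finset.single_le_sum (f := fun i => vv v0 (n i)) (fun i _ => (AtA_vv_pos hv0 (n i)).le) (Finset.mem_univ i)

theorem E2_sM {ι : Type} [Fintype ι] [DecidableEq ι] {e0 v0 T : ℝ} (he0 : 0 < e0) (he1 : e0 ≤ 1) (hv0 : 0 < v0) (hT : 1 ≤ T)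
    (m Q : ℕ) (a b : ι → ℕ) (J : Finset ι) (t : ℕ) :
    |sM e0 v0 T m Q a b J t| ≤ ((m + 1 : ℕ) : ℝ) ^ Fintype.card ι * ((4 / v0 * (1 + Real.log T) ^ 3) ^ Fintype.card ι * T ^ e0) := by
  have hlogT : 0 ≤ Real.log T := Real.log_nonneg hT
  have hT0 : 0 < T := by linarith
  unfold sM
  refine (Finset.abs_sum_le_sum_abs _ _).trans ?_
  have h1 : ∀ n ∈ AS ι v0 m, |∏ i, if i ∈ J then la e0 v0 T Q (n i) 1
      else Fn (sq Q (zz e0 v0 T (n i))) (la e0 v0 T Q (n i)) (a i * t + b i)| ≤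
      (4 / v0 * (1 + Real.log T) ^ 3) ^ Fintype.card ι * T ^ e0 := by
    intro n hn
    obtain ⟨hs, hi⟩ := E2_AS hv0 hn
    rw [Finset.abs_prod]
    have h2 : ∀ i ∈ (Finset.univ : Finset ι), |if i ∈ J then la e0 v0 T Q (n i) 1
        else Fn (sq Q (zz e0 v0 T (n i))) (la e0 v0 T Q (n i)) (a i * t + b i)| ≤
        T ^ (e0 * vv v0 (n i)) * (4 / v0 * (1 + Real.log T) ^ 3) := by
      intro i _
      obtain ⟨h3, h4⟩ := la_abs he0 he1 hv0 hT Q (n i) (hi i)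
      have h5 : (1 : ℝ) ≤ T ^ (e0 * vv v0 (n i)) :=
        Real.one_le_rpow hT (mul_nonneg he0.le (AtA_vv_pos hv0 (n i)).le)
      split_ifs
      · exact (h3 1).trans (le_mul_of_one_le_left (by positivity) h5)
      · refine le_trans ?_ h4
        unfold Fn
        refine (Finset.abs_sum_le_sum_abs _ _).trans ?_
        exact Finset.sum_le_sum_of_subset_of_nonneg (Finset.filter_subset _ _) (fun _ _ _ => abs_nonneg _)
    refine (Finset.prod_le_prod (fun i _ => abs_nonneg _) h2).trans ?_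
    rw [Finset.prod_mul_distrib, Finset.prod_const, Finset.card_univ, ← Real.rpow_sum_of_pos hT0, mul_comm]
    refine mul_le_mul_of_nonneg_left ?_ (by positivity)
    refine Real.rpow_le_rpow_of_exponent_le hT ?_
    rw [← Finset.mul_sum]
    nlinarith
  refine (Finset.sum_le_sum h1).trans ?_
  rw [Finset.sum_const, nsmul_eq_mul]
  exact mul_le_mul_of_nonneg_right (E2_card ι v0 m) (by positivity)

theorem E2_FI {ι : Type} [Fintype ι] [DecidableEq ι] {v0 : ℝ} (hv0 : 0 < v0) (m : ℕ) (J : Finset ι) :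
    0 ≤ FI ι v0 m J ∧ FI ι v0 m J ≤ (((m + 1 : ℕ) : ℝ) ^ Fintype.card ι) ^ 2 * (1 + 1 / v0) ^ Fintype.card ι := by
  have hgw : ∀ n : ℕ, 0 ≤ (vv v0 n)⁻¹ * wv v0 n ∧ (vv v0 n)⁻¹ * wv v0 n ≤ 1 := by
    intro n
    have hp := AtA_vv_pos hv0 n
    unfold wv
    split_ifs with h
    · subst h
      rw [AtA_vv_zero, inv_mul_cancel₀ hv0.ne']
      exact ⟨zero_le_one, le_rfl⟩
    · constructor
      · positivity
      · rw [← mul_div_assoc, inv_mul_cancel₀ hp.ne']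
        norm_num
  have hg : ∀ n : ℕ, 0 < (vv v0 n)⁻¹ ∧ (vv v0 n)⁻¹ ≤ 1 / v0 := by
    intro n
    refine ⟨inv_pos.2 (AtA_vv_pos hv0 n), ?_⟩
    rw [one_div]
    exact inv_anti₀ hv0 (AtA_vv_ge hv0 n)
  have hv1 : 0 < 1 / v0 := by positivity
  have hfac : ∀ n n' : ι → ℕ, ∀ i, 0 ≤ (if i ∈ J then (vv v0 (n i))⁻¹ * wv v0 (n i) * ((vv v0 (n' i))⁻¹ * wv v0 (n' i))
    else if n i = n' i then ((vv v0 (n i))⁻¹) ^ 2 * wv v0 (n i) else 0) ∧
    (if i ∈ J then (vv v0 (n i))⁻¹ * wv v0 (n i) * ((vv v0 (n' i))⁻¹ * wv v0 (n' i))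
    else if n i = n' i then ((vv v0 (n i))⁻¹) ^ 2 * wv v0 (n i) else 0) ≤ 1 + 1 / v0 := by
    intro n n' i
    obtain ⟨h1, h2⟩ := hgw (n i)
    obtain ⟨h3, h4⟩ := hgw (n' i)
    obtain ⟨h5, h6⟩ := hg (n i)
    split_ifs
    · refine ⟨mul_nonneg h1 h3, ?_⟩
      nlinarith
    · have h7 : ((vv v0 (n i))⁻¹) ^ 2 * wv v0 (n i) = (vv v0 (n i))⁻¹ * ((vv v0 (n i))⁻¹ * wv v0 (n i)) := by ring
      rw [h7]
      refine ⟨mul_nonneg h5.le h1, ?_⟩
      nlinarith
    · exact ⟨le_rfl, by linarith⟩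
  constructor
  · unfold FI
    exact Finset.sum_nonneg fun n _ => Finset.sum_nonneg fun n' _ => Finset.prod_nonneg fun i _ => (hfac n n' i).1
  · unfold FI
    have h1 : ∀ n ∈ AS ι v0 m, ∀ n' ∈ AS ι v0 m, (∏ i, if i ∈ J then (vv v0 (n i))⁻¹ * wv v0 (n i) * ((vv v0 (n' i))⁻¹ * wv v0 (n' i))
      else if n i = n' i then ((vv v0 (n i))⁻¹) ^ 2 * wv v0 (n i) else 0) ≤ (1 + 1 / v0) ^ Fintype.card ι := by
      intro n _ n' _
      refine (Finset.prod_le_prod (fun i _ => (hfac n n' i).1) (fun i _ => (hfac n n' i).2)).trans ?_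
      rw [Finset.prod_const, Finset.card_univ]
    refine (Finset.sum_le_sum fun n hn => Finset.sum_le_sum fun n' hn' => h1 n hn n' hn').trans ?_
    rw [Finset.sum_const, Finset.sum_const, nsmul_eq_mul, nsmul_eq_mul, ← mul_assoc, ← pow_two]
    refine mul_le_mul_of_nonneg_right ?_ (by positivity)
    exact pow_le_pow_left₀ (by positivity) (E2_card ι v0 m) 2

theorem E2_tot {Q a : ℕ} (hQ : 1 ≤ Q) (ha : 1 ≤ a) (haQ : a ∣ Q) (hp : ∀ p : ℕ, p.Prime → p ∣ Q → p ∣ a) :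
    (a : ℝ) / (Nat.totient a : ℝ) = (Q : ℝ) / (Nat.totient Q : ℝ) := by
  have hpf : a.primeFactors = Q.primeFactors := by
    ext p
    simp only [Nat.mem_primeFactors]
    constructor
    · rintro ⟨h1, h2, _⟩
      exact ⟨h1, h2.trans haQ, by omega⟩
    · rintro ⟨h1, h2, _⟩
      exact ⟨h1, hp p h1 h2, by omega⟩
  have h1 : ∀ n : ℕ, (Nat.totient n : ℝ) = n * ∏ p ∈ n.primeFactors, (1 - (p : ℝ)⁻¹) := by
    intro n
    have := congrArg (fun q : ℚ => (q : ℝ)) (Nat.totient_eq_mul_prod_factors n)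
    simpa using this
  have ha0 : (a : ℝ) ≠ 0 := by
    have : a ≠ 0 := by omega
    exact_mod_cast this
  have hQ0 : (Q : ℝ) ≠ 0 := by
    have : Q ≠ 0 := by omega
    exact_mod_cast this
  rw [h1 a, h1 Q, hpf]
  rw [div_mul_eq_div_div, div_self ha0, div_mul_eq_div_div, div_self hQ0]

theorem E2_uP {e0 T : ℝ} {Q P : ℕ} (hP : P.Prime) (hPQ : ¬ P ∣ Q) :
    uu e0 T (Q * P) = (1 - 1 / (P : ℝ)) * uu e0 T Q := by
  have hc : Nat.Coprime Q P := ((Nat.Prime.coprime_iff_not_dvd hP).2 hPQ).symm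
  have hP0 : (P : ℝ) ≠ 0 := by exact_mod_cast hP.ne_zero
  unfold uu
  rw [Nat.totient_mul hc, Nat.totient_prime hP, Nat.cast_mul, Nat.cast_mul, Nat.cast_sub hP.one_le, Nat.cast_one]
  by_cases hQ : (Q : ℝ) = 0
  · simp [hQ]
  · field_simp

theorem E2_pf {Q P : ℕ} (hQ : 1 ≤ Q) (hP : P.Prime) : (Q * P).primeFactors.card ≤ Q.primeFactors.card + 1 := by
  rw [Nat.primeFactors_mul (by omega) hP.ne_zero]
  refine (Finset.card_union_le _ _).trans ?_
  rw [Nat.Prime.primeFactors hP]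
  simp

theorem E2_big {e0 : ℝ} (he0 : 0 < e0) {Q : ℕ} (hQ : 1 ≤ Q) (B : ℝ) : ∃ T1 : ℝ, ∀ T, T1 ≤ T → ∀ P : ℕ, P.Prime → ¬ P ∣ Q →
    (P : ℝ) ≤ Real.log T ^ B → Big e0 T (Q * P) := by
  have hQ0 : (0 : ℝ) < Q := by exact_mod_cast hQ
  have hφ : (0 : ℝ) < Nat.totient Q := by exact_mod_cast Nat.totient_pos.2 (by omega)
  set c : ℝ := 1 / 2 * ((Nat.totient Q : ℝ) / Q * e0) with hc
  have hc0 : 0 < c := by positivity
  set M : ℝ := (2 ^ (Q.primeFactors.card + 1) * (1 + Real.log Q + |B|)) ^ 4 with hM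
  obtain ⟨x1, hx1, H⟩ := E2_log M 4 (show (0 : ℝ) < 1 by norm_num) hc0
  refine ⟨Real.exp x1, ?_⟩
  intro T hT P hP hPQ hPB
  have hT0 : 0 < T := (Real.exp_pos _).trans_le hT
  have hL : x1 ≤ Real.log T := by
    rw [Real.le_log_iff_exp_le hT0]; exact hT
  have hL1 : 1 ≤ Real.log T := hx1.trans hL
  have h1 := H (Real.log T) hL
  rw [sub_self, Real.rpow_zero, mul_one] at h1
  unfold Big
  have hP1 : (1 : ℝ) ≤ P := by exact_mod_cast hP.one_le
  have hP2 : (2 : ℝ) ≤ P := by exact_mod_cast hP.two_le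
  have hll : 0 ≤ Real.log (Real.log T) := Real.log_nonneg hL1
  have hlogP : Real.log P ≤ |B| * Real.log (Real.log T) := by
    have h2 : Real.log P ≤ Real.log (Real.log T ^ B) := Real.log_le_log (by linarith) hPB
    rw [Real.log_rpow (by linarith)] at h2
    exact h2.trans (mul_le_mul_of_nonneg_right (le_abs_self B) hll)
  have hlogQ : 0 ≤ Real.log Q := Real.log_nonneg (by exact_mod_cast hQ)
  have hEQ : EQ (Q * P) ≤ 2 ^ (Q.primeFactors.card + 1) * (1 + Real.log Q + |B|) * (1 + Real.log (Real.log T)) := by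
    unfold EQ
    rw [Nat.cast_mul, Real.log_mul (by positivity) (by positivity)]
    have h3 : (2 : ℝ) ^ (Q * P).primeFactors.card ≤ 2 ^ (Q.primeFactors.card + 1) :=
      pow_le_pow_right₀ (by norm_num) (E2_pf hQ hP)
    have h4 : 1 + (Real.log Q + Real.log P) ≤ (1 + Real.log Q + |B|) * (1 + Real.log (Real.log T)) := by
      have h5 : 0 ≤ |B| := abs_nonneg B
      nlinarith [mul_nonneg hlogQ hll]
    have h6 : 0 ≤ Real.log P := Real.log_nonneg hP1
    calc (2 : ℝ) ^ (Q * P).primeFactors.card * (1 + (Real.log Q + Real.log P)) ≤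
        2 ^ (Q.primeFactors.card + 1) * ((1 + Real.log Q + |B|) * (1 + Real.log (Real.log T))) :=
          mul_le_mul h3 h4 (by positivity) (by positivity)
      _ = _ := by ring
  have hEQ0 : 0 ≤ EQ (Q * P) := by
    have := EQ_ge_one (Q := Q * P) (Nat.mul_pos hQ hP.pos)
    linarith
  have h7 : EQ (Q * P) ^ 4 ≤ M * (1 + Real.log (Real.log T)) ^ 4 := by
    rw [hM, ← mul_pow]
    exact pow_le_pow_left₀ hEQ0 hEQ 4
  refine (h7.trans h1).trans ?_
  rw [E2_uP hP hPQ]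
  unfold uu
  have h8 : (1 : ℝ) / 2 ≤ 1 - 1 / (P : ℝ) := by
    have : 1 / (P : ℝ) ≤ 1 / 2 := one_div_le_one_div_of_le (by norm_num) hP2
    linarith
  calc c * Real.log T = 1 / 2 * ((Nat.totient Q : ℝ) / Q * (e0 * Real.log T)) := by rw [hc]; ring
    _ ≤ (1 - 1 / (P : ℝ)) * ((Nat.totient Q : ℝ) / Q * (e0 * Real.log T)) :=
        mul_le_mul_of_nonneg_right h8 (by positivity)

theorem E2_wide {w Q P : ℕ} (h : Wide w Q) (hP : P.Prime) : Wide w (Q * P) :=
  ⟨Nat.mul_pos h.1 hP.pos, fun p hp hpw => (h.2 p hp hpw).trans (Dvd.intro _ rfl)⟩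

theorem E2_Fn1 (x : ℕ) : Fn {1} (fun _ => 1) x = 1 := by
  unfold Fn
  have : ({1} : Finset ℕ).filter (fun B => B ∣ x) = {1} := by
    ext y
    simp only [Finset.mem_filter, Finset.mem_singleton]
    constructor
    · exact fun h => h.1
    · rintro rfl
      exact ⟨rfl, one_dvd x⟩
  rw [this]
  simp

theorem E2_sq {ι : Type} [Fintype ι] [DecidableEq ι] (e0 v0 T : ℝ) (m Q : ℕ) (a b : ι → ℕ) (j : ι) (t : ℕ) :
    sM e0 v0 T m Q a b {j} t ^ 2 =
      ∑ n ∈ AS ι v0 m, ∑ n' ∈ AS ι v0 m, la e0 v0 T Q (n j) 1 * la e0 v0 T Q (n' j) 1 *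
        ∏ i, Fn (Function.update (fun i => DA e0 v0 T Q (n i) (n' i)) j {1} i)
          (Function.update (fun i => fA e0 v0 T Q (n i) (n' i)) j (fun _ => 1) i) (a i * t + b i) := by
  unfold sM
  rw [pow_two, Finset.sum_mul_sum]
  refine Finset.sum_congr rfl fun n _ => Finset.sum_congr rfl fun n' _ => ?_
  rw [← Finset.prod_mul_distrib, ← Finset.mul_prod_erase Finset.univ _ (Finset.mem_univ j),
    ← Finset.mul_prod_erase Finset.univ (fun i => Fn (Function.update (fun i => DA e0 v0 T Q (n i) (n' i)) j {1} i)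
          (Function.update (fun i => fA e0 v0 T Q (n i) (n' i)) j (fun _ => 1) i) (a i * t + b i)) (Finset.mem_univ j)]
  rw [Function.update_self, Function.update_self, E2_Fn1, one_mul]
  simp only [Finset.mem_singleton, if_true]
  congr 1
  refine Finset.prod_congr rfl fun i hi => ?_
  have hij : i ≠ j := Finset.ne_of_mem_erase hi
  rw [if_neg hij, if_neg hij, Function.update_of_ne hij, Function.update_of_ne hij, fn_mul]
  rfl

/-- prime powers -/
theorem E2_pp {φ : ℝ → ℝ} (h1 : ∀ x, φ x ≤ 1) {T : ℝ} (hT : 1 ≤ T) {a : ℕ} (ha : 1 ≤ a) {s : ℕ → ℝ} {S : ℝ}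
    (hs : ∀ t, |s t| ≤ S) :
    ∑ t ∈ (rT T).filter (fun t => ¬ (a * t + 1).Prime), φ ((t : ℝ) / T) * ArithmeticFunction.vonMangoldt (a * t + 1) * s t ^ 2 ≤
      S ^ 2 * (2 * Real.sqrt (3 * a * T) * Real.log (3 * a * T)) := by
  have ha1 : (1 : ℝ) ≤ a := by exact_mod_cast ha
  have haT : 1 ≤ (a : ℝ) * T := by nlinarith
  have hX : (1 : ℝ) ≤ 3 * a * T := by nlinarith
  have h2 := Chebyshev.psi_sub_theta_le hX
  rw [Chebyshev.psi_sub_theta_eq_sum_not_prime] at h2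
  have h3 : ∑ t ∈ (rT T).filter (fun t => ¬ (a * t + 1).Prime), φ ((t : ℝ) / T) * ArithmeticFunction.vonMangoldt (a * t + 1) * s t ^ 2 ≤
      ∑ t ∈ (rT T).filter (fun t => ¬ (a * t + 1).Prime), S ^ 2 * ArithmeticFunction.vonMangoldt (a * t + 1) := by
    refine Finset.sum_le_sum fun t _ => ?_
    have h4 : s t ^ 2 ≤ S ^ 2 := by
      rw [← sq_abs (s t)]
      exact pow_le_pow_left₀ (abs_nonneg _) (hs t) 2
    have h5 : 0 ≤ ArithmeticFunction.vonMangoldt (a * t + 1) := ArithmeticFunction.vonMangoldt_nonneg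
    calc φ ((t : ℝ) / T) * ArithmeticFunction.vonMangoldt (a * t + 1) * s t ^ 2 ≤
        1 * ArithmeticFunction.vonMangoldt (a * t + 1) * S ^ 2 := by
          refine mul_le_mul (mul_le_mul_of_nonneg_right (h1 _) h5) h4 (by positivity) (by positivity)
      _ = _ := by ring
  refine h3.trans ?_
  rw [← Finset.mul_sum]
  refine mul_le_mul_of_nonneg_left (le_trans ?_ h2) (by positivity)
  have h6 : ∑ t ∈ (rT T).filter (fun t => ¬ (a * t + 1).Prime), ArithmeticFunction.vonMangoldt (a * t + 1) =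
      ∑ x ∈ ((rT T).filter (fun t => ¬ (a * t + 1).Prime)).image (fun t => a * t + 1), ArithmeticFunction.vonMangoldt x := by
    rw [Finset.sum_image]
    intro x _ y _ hxy
    have : a * x = a * y := by simpa using hxy
    exact Nat.eq_of_mul_eq_mul_left ha this
  rw [h6]
  refine Finset.sum_le_sum_of_subset_of_nonneg ?_ (fun _ _ _ => ArithmeticFunction.vonMangoldt_nonneg)
  intro x hx
  rw [Finset.mem_image] at hx
  obtain ⟨t, ht, rfl⟩ := hx
  rw [Finset.mem_filter] at ht ⊢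
  refine ⟨?_, ht.2⟩
  rw [Finset.mem_Ioc]
  refine ⟨by omega, ?_⟩
  rw [Nat.le_floor_iff (by linarith)]
  have h7 := ht.1
  unfold rT at h7
  rw [Finset.mem_range] at h7
  have h8 : (t : ℝ) ≤ 2 * T := by
    have : t ≤ ⌊2 * T⌋₊ := by omega
    exact (Nat.le_floor_iff (by linarith)).1 this
  push_cast
  nlinarith

theorem E2_final {L I T u F FB ε δ e0 p : ℝ} {K : ℕ} (hL : 1 ≤ L) (hTI : 0 < T * I) (hu : 1 ≤ u ^ K) (hF0 : 0 ≤ F) (hF1 : F ≤ FB)
    (hε : 0 < ε) (hδ0 : 0 < δ) (hδ1 : δ * (8 * (FB + ε + 1)) = ε) (he0 : 0 < e0) (he1 : e0 ≤ 1 / 8) (hp0 : 0 ≤ p) (hpδ : p ≤ δ) :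
    (1 + δ) * L * (T * I * ((e0 * F - ε) * u ^ K)) ≤ T * I * ((1 - p) * (e0 * L)) * ((F - ε / 4) * u ^ K) - ε / 2 * I * T := by
  have key : (1 + δ) * L * ((e0 * F - ε) * u ^ K) ≤ ((1 - p) * (e0 * L)) * ((F - ε / 4) * u ^ K) - ε / 2 := by
    have k1 : (1 + δ) * (e0 * F - ε) ≤ (1 - p) * (e0 * (F - ε / 4)) - ε / 2 := by
      have k2 : p * (F - ε / 4) ≤ δ * (FB + ε) := by
        have k3 : p * (F - ε / 4) ≤ p * (FB + ε) :=
          mul_le_mul_of_nonneg_left (by linarith) hp0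
        exact k3.trans (mul_le_mul_of_nonneg_right hpδ (by linarith))
      have k4 : δ * F ≤ δ * (FB + ε) := mul_le_mul_of_nonneg_left (by linarith) hδ0.le
      have k5 : δ * (FB + ε) ≤ ε / 8 := by nlinarith
      have k6 : e0 * (p * (F - ε / 4)) ≤ e0 * (ε / 8) := mul_le_mul_of_nonneg_left (k2.trans k5) he0.le
      have k7 : e0 * (δ * F) ≤ e0 * (ε / 8) := mul_le_mul_of_nonneg_left (k4.trans k5) he0.le
      have k8 : e0 * ε ≤ 1 / 8 * ε := mul_le_mul_of_nonneg_right he1 hε.le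
      nlinarith [mul_pos hδ0 hε]
    have hLu : 0 ≤ L * u ^ K := by positivity
    have k9 : L * u ^ K * ((1 + δ) * (e0 * F - ε)) ≤ L * u ^ K * ((1 - p) * (e0 * (F - ε / 4)) - ε / 2) :=
      mul_le_mul_of_nonneg_left k1 hLu
    have k10 : 1 ≤ L * u ^ K := by nlinarith
    have k11 : ε / 2 ≤ L * u ^ K * (ε / 2) := le_mul_of_one_le_left (by positivity) k10
    calc (1 + δ) * L * ((e0 * F - ε) * u ^ K) = L * u ^ K * ((1 + δ) * (e0 * F - ε)) := by ring
      _ ≤ L * u ^ K * ((1 - p) * (e0 * (F - ε / 4)) - ε / 2) := k9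
      _ = ((1 - p) * (e0 * L)) * ((F - ε / 4) * u ^ K) - L * u ^ K * (ε / 2) := by ring
      _ ≤ _ := by linarith
  calc (1 + δ) * L * (T * I * ((e0 * F - ε) * u ^ K)) = T * I * ((1 + δ) * L * ((e0 * F - ε) * u ^ K)) := by ring
    _ ≤ T * I * (((1 - p) * (e0 * L)) * ((F - ε / 4) * u ^ K) - ε / 2) :=
        mul_le_mul_of_nonneg_left key hTI.le
    _ = _ := by ring

theorem E2_er1 {M v0 T C1 ε I : ℝ} {K : ℕ} (hM : 0 ≤ M) (hv0 : 0 < v0) (hT : 0 < T) (hL1 : 1 ≤ Real.log T)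
    (hC1 : C1 = (M ^ K) ^ 2 * (4 / v0) ^ 2 * 64) (h6 : C1 ≤ Real.log T * (ε / 4 * I)) :
    M ^ K * (M ^ K * ((4 / v0 * (1 + Real.log T) ^ 3) * (4 / v0 * (1 + Real.log T) ^ 3) * (T / Real.log T ^ 7))) ≤ ε / 4 * I * T := by
  have h5 : (1 + Real.log T) ^ 6 ≤ 64 * Real.log T ^ 6 := by
    have : (1 + Real.log T) ^ 6 ≤ (2 * Real.log T) ^ 6 := pow_le_pow_left₀ (by linarith) (by linarith) 6
    rw [mul_pow] at this
    norm_num at this
    exact this
  have hLT0 : 0 < Real.log T := by linarith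
  calc M ^ K * (M ^ K * ((4 / v0 * (1 + Real.log T) ^ 3) * (4 / v0 * (1 + Real.log T) ^ 3) * (T / Real.log T ^ 7))) =
      ((M ^ K) ^ 2 * (4 / v0) ^ 2 * (1 + Real.log T) ^ 6) * T / Real.log T ^ 7 := by ring
    _ ≤ ((M ^ K) ^ 2 * (4 / v0) ^ 2 * (64 * Real.log T ^ 6)) * T / Real.log T ^ 7 := by gcongr
    _ = C1 * T / Real.log T := by rw [hC1]; field_simp
    _ ≤ ε / 4 * I * T := by
        rw [div_le_iff₀ hLT0]
        nlinarith

theorem E2_er2 {M v0 T e0 : ℝ} {K a Q : ℕ} (hM : 0 ≤ M) (hv0 : 0 < v0) (hT1 : 1 ≤ T) (he0 : 0 < e0) (he1 : e0 ≤ 1 / 8)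
    (ha : 1 ≤ a) (haQ : a ≤ Q) :
    (M ^ K * ((4 / v0 * (1 + Real.log T) ^ 3) ^ K * T ^ e0)) ^ 2 * (2 * Real.sqrt (3 * a * T) * Real.log (3 * a * T)) ≤
      (M ^ K) ^ 2 * ((4 / v0) ^ K) ^ 2 * (2 * Real.sqrt (3 * Q) * (1 + Real.log (3 * Q))) * (1 + Real.log T) ^ (6 * K + 1) *
        T ^ (1 - 1 / 4 : ℝ) := by
  have hT0 : 0 < T := by linarith
  have hL0 : 0 ≤ Real.log T := Real.log_nonneg hT1
  have haj1 : (1 : ℝ) ≤ a := by exact_mod_cast ha
  have hajQ' : (a : ℝ) ≤ Q := by exact_mod_cast haQ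
  have hQ1 : (1 : ℝ) ≤ Q := haj1.trans hajQ'
  have hlog3Q : 0 ≤ Real.log (3 * Q) := Real.log_nonneg (by linarith)
  have h1 : Real.sqrt (3 * a * T) ≤ Real.sqrt (3 * Q) * Real.sqrt T := by
    rw [← Real.sqrt_mul (by positivity)]
    apply Real.sqrt_le_sqrt
    nlinarith
  have h2 : Real.log (3 * a * T) ≤ (1 + Real.log (3 * Q)) * (1 + Real.log T) := by
    have h3 : Real.log (3 * a * T) ≤ Real.log (3 * Q * T) := by
      apply Real.log_le_log (by positivity)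
      nlinarith
    have h4 : Real.log (3 * Q * T) = Real.log (3 * Q) + Real.log T := Real.log_mul (by positivity) (by positivity)
    nlinarith
  have h3 : 0 ≤ Real.log (3 * a * T) := Real.log_nonneg (by nlinarith)
  have h4 : T ^ e0 * T ^ e0 ≤ T ^ (1 / 4 : ℝ) := by
    rw [← Real.rpow_add hT0]
    exact Real.rpow_le_rpow_of_exponent_le hT1 (by linarith)
  have h5 : T ^ (1 / 4 : ℝ) * Real.sqrt T = T ^ (1 - 1 / 4 : ℝ) := by
    rw [Real.sqrt_eq_rpow, ← Real.rpow_add hT0]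
    norm_num
  have h6 : 0 ≤ 1 + Real.log T := by linarith
  have h7 : ((4 / v0 * (1 + Real.log T) ^ 3) ^ K) ^ 2 = ((4 / v0) ^ K) ^ 2 * (1 + Real.log T) ^ (6 * K) := by
    rw [mul_pow, mul_pow, ← pow_mul (1 + Real.log T) 3 K, ← pow_mul (1 + Real.log T) (3 * K) 2]
    congr 2
    ring
  set Y := ((4 / v0 * (1 + Real.log T) ^ 3) ^ K) with hY
  have hY0 : 0 ≤ Y := by rw [hY]; positivity
  calc (M ^ K * (Y * T ^ e0)) ^ 2 * (2 * Real.sqrt (3 * a * T) * Real.log (3 * a * T)) =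
      ((M ^ K) ^ 2 * Y ^ 2) * (T ^ e0 * T ^ e0) * (2 * (Real.sqrt (3 * a * T) * Real.log (3 * a * T))) := by ring
    _ ≤ ((M ^ K) ^ 2 * Y ^ 2) * T ^ (1 / 4 : ℝ) *
        (2 * ((Real.sqrt (3 * Q) * Real.sqrt T) * ((1 + Real.log (3 * Q)) * (1 + Real.log T)))) := by
        gcongr
    _ = ((M ^ K) ^ 2 * Y ^ 2) * (2 * Real.sqrt (3 * Q) * (1 + Real.log (3 * Q))) * (1 + Real.log T) *
        (T ^ (1 / 4 : ℝ) * Real.sqrt T) := by ring
    _ = _ := by
        rw [h5, h7, pow_succ (1 + Real.log T) (6 * K)]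
        generalize (1 + Real.log T) ^ (6 * K) = W
        ring

theorem e2 (hbvs : BVS) {η : ℝ} {φ : ℝ → ℝ} (hφ : Wt η φ) {e0 v0 : ℝ} (he0 : 0 < e0) (he1 : e0 ≤ 1 / 8) (hv0 : 0 < v0) (m K : ℕ) (hK : 1 ≤ K)
    {ε : ℝ} (hε : 0 < ε) :
    ∃ w0 : ℕ, ∀ (ι : Type) [Fintype ι] [DecidableEq ι], Fintype.card ι = K → ∀ (Q : ℕ) (a : ι → ℕ), SForms Q a → Wide w0 Q → ∀ w1 : ℕ,
      ∃ T0 : ℝ, ∀ T, T0 ≤ T → ∃ P : ℕ, P.Prime ∧ w1 < P ∧ ¬ P ∣ Q ∧ Big e0 T (Q * P) ∧ ∀ j : ι,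
        T * (∫ x, φ x) * ((e0 * FI ι v0 m {j} - ε) * uu e0 T (Q * P) ^ K) ≤
          ∑ t ∈ (rT T).filter (fun t => (a j * t + 1).Prime), φ ((t : ℝ) / T) * sM e0 v0 T m (Q * P) a (fun _ => 1) {j} t ^ 2 := by
  have hI : 0 < ∫ x, φ x := hφ.int_pos
  set I := ∫ x, φ x with hIdef
  obtain ⟨Tc, w0, hcc⟩ := e2c he0 hv0 m K hK (show 0 < ε / 4 by positivity)
  refine ⟨w0, ?_⟩
  intro ι _ _ hcard Q a hSF hW w1
  have hQ1 : 1 ≤ Q := hSF.Q_pos
  have hQ0 : (1 : ℝ) ≤ Q := by exact_mod_cast hQ1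
  set FB : ℝ := (((m + 1 : ℕ) : ℝ) ^ K) ^ 2 * (1 + 1 / v0) ^ K with hFB
  have hFB0 : 0 ≤ FB := by positivity
  set δ : ℝ := ε / (8 * (FB + ε + 1)) with hδ
  have hδ0 : 0 < δ := by positivity
  have hδ1 : δ * (8 * (FB + ε + 1)) = ε := by rw [hδ]; field_simp
  obtain ⟨B, P, hP, T0b, hb⟩ := e2b hbvs hφ he0 he1 hv0 m ((7 : ℕ) : ℝ) ι Q a hSF (max w1 ⌈1 / δ⌉₊)
  obtain ⟨Tbig, hbig⟩ := E2_big he0 hQ1 B
  obtain ⟨Te, hTe1, heqs⟩ := eqs he0 (show (0 : ℝ) < 1 by norm_num)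
  obtain ⟨Tl, hTl1, hlog⟩ := E2_log ((((m + 1 : ℕ) : ℝ) ^ K) ^ 2 * ((4 / v0) ^ K) ^ 2 * (2 * Real.sqrt (3 * Q) * (1 + Real.log (3 * Q))))
    (6 * K + 1) (show (0 : ℝ) < 1 / 4 by norm_num) (show 0 < ε / 4 * I by positivity)
  set C1 : ℝ := (((m + 1 : ℕ) : ℝ) ^ K) ^ 2 * (4 / v0) ^ 2 * 64 with hC1
  have hC10 : 0 < C1 := by positivity
  have hlog3Q : 0 ≤ Real.log (3 * Q) := Real.log_nonneg (by linarith)
  set V : ℝ := 1 + Real.log (3 * Q) / δ + C1 / (ε / 4 * I) with hV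
  have hV1 : 1 ≤ V := by
    have h1 : 0 ≤ Real.log (3 * Q) / δ := by positivity
    have h2 : 0 ≤ C1 / (ε / 4 * I) := by positivity
    rw [hV]; linarith
  refine ⟨max (max Tc T0b) (max Tbig (max Te (max Tl (Real.exp V)))), ?_⟩
  intro T hT
  have hTc : Tc ≤ T := ((le_max_left _ _).trans (le_max_left _ _)).trans hT
  have hT0b : T0b ≤ T := ((le_max_right _ _).trans (le_max_left _ _)).trans hT
  have hT' := (le_max_right _ _).trans hT
  have hTbig : Tbig ≤ T := (le_max_left _ _).trans hT'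
  have hT'' := (le_max_right _ _).trans hT'
  have hTe : Te ≤ T := (le_max_left _ _).trans hT''
  have hT3 := (le_max_right _ _).trans hT''
  have hTl : Tl ≤ T := (le_max_left _ _).trans hT3
  have hTV : Real.exp V ≤ T := (le_max_right _ _).trans hT3
  have hT1 : 1 ≤ T := hTe1.trans hTe
  have hT0 : 0 < T := by linarith
  have hLV : V ≤ Real.log T := by
    rw [Real.le_log_iff_exp_le hT0]; exact hTV
  have hL1 : 1 ≤ Real.log T := hV1.trans hLV
  obtain ⟨hPT, hb2⟩ := hb T hT0b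
  obtain ⟨hPp, hPw, hPQ⟩ := hP T
  refine ⟨P T, hPp, (le_max_left _ _).trans_lt hPw, hPQ, hbig T hTbig (P T) hPp hPQ hPT, ?_⟩
  have hBig := hbig T hTbig (P T) hPp hPQ hPT
  intro j
  have hQP1 : 1 ≤ Q * P T := Nat.mul_pos hQ1 hPp.pos
  have hu1 : 1 ≤ uu e0 T (Q * P T) := by
    have := (heqs T hTe (Q * P T) hQP1 hBig).1
    simpa using this
  set u := uu e0 T (Q * P T) with hu
  have huK : 1 ≤ u ^ K := one_le_pow₀ hu1
  have hFI := E2_FI (ι := ι) hv0 m {j}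
  rw [hcard, ← hFB] at hFI
  set F := FI ι v0 m {j} with hF
  -- the prime P
  have hP0 : (0 : ℝ) < P T := by exact_mod_cast hPp.pos
  have hPδ : 1 / (P T : ℝ) ≤ δ := by
    have h1 : 1 / δ ≤ (P T : ℝ) := by
      have h2 : ⌈1 / δ⌉₊ ≤ P T := ((le_max_right _ _).trans_lt hPw).le
      exact (Nat.le_ceil _).trans (by exact_mod_cast h2)
    rw [div_le_iff₀ hP0]
    rw [div_le_iff₀ hδ0] at h1
    linarith
  have hP1 : 1 / (P T : ℝ) ≤ 1 := by
    rw [div_le_one hP0]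
    exact_mod_cast hPp.one_le
  have hPpos : 0 ≤ 1 / (P T : ℝ) := by positivity
  -- the factor
  have haj := hSF.pos j
  have hajQ : a j ≤ Q := Nat.le_of_dvd hQ1 (hSF.dvd j)
  have hφQ : (0 : ℝ) < Nat.totient Q := by exact_mod_cast Nat.totient_pos.2 hQ1
  have hau : (a j : ℝ) / (Nat.totient (a j) : ℝ) * u = (1 - 1 / (P T : ℝ)) * (e0 * Real.log T) := by
    rw [E2_tot hQ1 haj (hSF.dvd j) (fun p hp hpQ => hSF.prime j p hp hpQ), hu, E2_uP hPp hPQ]
    unfold uu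
    have hQne : (Q : ℝ) ≠ 0 := by linarith
    field_simp
  have hau0 : 0 ≤ (a j : ℝ) / (Nat.totient (a j) : ℝ) := by positivity
  -- the coefficients
  set Lg : ℝ := 4 / v0 * (1 + Real.log T) ^ 3 with hLg
  have hLg0 : 0 ≤ Lg := by positivity
  have hla : ∀ n ∈ AS ι v0 m, |la e0 v0 T (Q * P T) (n j) 1| ≤ Lg := by
    intro n hn
    exact (la_abs he0 (by linarith) hv0 hT1 (Q * P T) (n j) ((E2_AS hv0 hn).2 j)).1 1
  have hcAS := E2_card ι v0 m
  rw [hcard] at hcAS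
  -- the total sum
  set TS : ℝ := ∑ t ∈ rT T, φ ((t : ℝ) / T) * ArithmeticFunction.vonMangoldt (a j * t + 1) *
    sM e0 v0 T m (Q * P T) a (fun _ => 1) {j} t ^ 2 with hTS
  have hTS1 : TS = ∑ n ∈ AS ι v0 m, ∑ n' ∈ AS ι v0 m, la e0 v0 T (Q * P T) (n j) 1 * la e0 v0 T (Q * P T) (n' j) 1 *
      ∑ t ∈ rT T, φ ((t : ℝ) / T) * ArithmeticFunction.vonMangoldt (a j * t + 1) *
        ∏ i, Fn (Function.update (fun i => DA e0 v0 T (Q * P T) (n i) (n' i)) j {1} i)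
          (Function.update (fun i => fA e0 v0 T (Q * P T) (n i) (n' i)) j (fun _ => 1) i) (a i * t + 1) := by
    rw [hTS]
    simp only [E2_sq, Finset.mul_sum]
    rw [Finset.sum_comm]
    refine Finset.sum_congr rfl fun n _ => ?_
    rw [Finset.sum_comm]
    refine Finset.sum_congr rfl fun n' _ => Finset.sum_congr rfl fun t _ => ?_
    ring
  have hc1 := hcc ι hcard (Q * P T) hQP1 (E2_wide hW hPp) T hTc hBig j
  set MS : ℝ := ∑ n ∈ AS ι v0 m, ∑ n' ∈ AS ι v0 m, la e0 v0 T (Q * P T) (n j) 1 * la e0 v0 T (Q * P T) (n' j) 1 *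
          Mm (Function.update (fun i => DA e0 v0 T (Q * P T) (n i) (n' i)) j {1})
            (Function.update (fun i B => fA e0 v0 T (Q * P T) (n i) (n' i) B * ((B : ℝ) / (Nat.totient B : ℝ))) j (fun _ => 1)) 1 with hMS
  have hTS2 : |TS - T * I * ((a j : ℝ) / (Nat.totient (a j) : ℝ)) * MS| ≤ ε / 4 * I * T := by
    have h1 : TS - T * I * ((a j : ℝ) / (Nat.totient (a j) : ℝ)) * MS =
        ∑ n ∈ AS ι v0 m, ∑ n' ∈ AS ι v0 m, la e0 v0 T (Q * P T) (n j) 1 * la e0 v0 T (Q * P T) (n' j) 1 *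
          (∑ t ∈ rT T, φ ((t : ℝ) / T) * ArithmeticFunction.vonMangoldt (a j * t + 1) *
            ∏ i, Fn (Function.update (fun i => DA e0 v0 T (Q * P T) (n i) (n' i)) j {1} i)
              (Function.update (fun i => fA e0 v0 T (Q * P T) (n i) (n' i)) j (fun _ => 1) i) (a i * t + 1) -
            T * I * ((a j : ℝ) / (Nat.totient (a j) : ℝ)) *
            Mm (Function.update (fun i => DA e0 v0 T (Q * P T) (n i) (n' i)) j {1})
            (Function.update (fun i B => fA e0 v0 T (Q * P T) (n i) (n' i) B * ((B : ℝ) / (Nat.totient B : ℝ))) j (fun _ => 1)) 1) := by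
      rw [hTS1, hMS]
      simp only [mul_sub, Finset.sum_sub_distrib, Finset.mul_sum]
      congr 1
      refine Finset.sum_congr rfl fun n _ => Finset.sum_congr rfl fun n' _ => ?_
      ring
    have h2 : |TS - T * I * ((a j : ℝ) / (Nat.totient (a j) : ℝ)) * MS| ≤
        ∑ n ∈ AS ι v0 m, ∑ n' ∈ AS ι v0 m, Lg * Lg * (T / Real.log T ^ 7) := by
      rw [h1]
      refine (Finset.abs_sum_le_sum_abs _ _).trans (Finset.sum_le_sum fun n hn => ?_)
      refine (Finset.abs_sum_le_sum_abs _ _).trans (Finset.sum_le_sum fun n' hn' => ?_)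
      rw [abs_mul, abs_mul]
      have h3 := hb2 n hn n' hn' j
      rw [Real.rpow_natCast] at h3
      exact mul_le_mul (mul_le_mul (hla n hn) (hla n' hn') (abs_nonneg _) hLg0) h3 (abs_nonneg _) (by positivity)
    refine h2.trans ?_
    rw [Finset.sum_const, Finset.sum_const, nsmul_eq_mul, nsmul_eq_mul]
    have h4 : ((AS ι v0 m).card : ℝ) * (((AS ι v0 m).card : ℝ) * (Lg * Lg * (T / Real.log T ^ 7))) ≤
        ((m + 1 : ℕ) : ℝ) ^ K * (((m + 1 : ℕ) : ℝ) ^ K * (Lg * Lg * (T / Real.log T ^ 7))) := by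
      gcongr
    refine h4.trans ?_
    have h6 : C1 / (ε / 4 * I) ≤ Real.log T := by
      refine le_trans ?_ hLV
      have h1 : 0 ≤ Real.log (3 * Q) / δ := by positivity
      rw [hV]; linarith
    rw [div_le_iff₀ (by positivity)] at h6
    exact E2_er1 (by positivity) hv0 hT0 hL1 hC1 h6
  -- prime powers
  have hs : ∀ t, |sM e0 v0 T m (Q * P T) a (fun _ => 1) {j} t| ≤ ((m + 1 : ℕ) : ℝ) ^ K * (Lg ^ K * T ^ e0) := by
    intro t
    have := E2_sM he0 (by linarith) hv0 hT1 m (Q * P T) a (fun _ => 1) {j} t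
    rw [hcard] at this
    exact this
  have hpp := E2_pp hφ.le_one hT1 haj hs
  have hpp2 : (((m + 1 : ℕ) : ℝ) ^ K * (Lg ^ K * T ^ e0)) ^ 2 * (2 * Real.sqrt (3 * a j * T) * Real.log (3 * a j * T)) ≤ ε / 4 * I * T := by
    exact (E2_er2 (Q := Q) (by positivity) hv0 hT1 he0 he1 haj hajQ).trans (hlog T hTl)
  -- primes
  have hpr : ∑ t ∈ (rT T).filter (fun t => (a j * t + 1).Prime), φ ((t : ℝ) / T) * ArithmeticFunction.vonMangoldt (a j * t + 1) *
      sM e0 v0 T m (Q * P T) a (fun _ => 1) {j} t ^ 2 ≤ (1 + δ) * Real.log T *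
      ∑ t ∈ (rT T).filter (fun t => (a j * t + 1).Prime), φ ((t : ℝ) / T) * sM e0 v0 T m (Q * P T) a (fun _ => 1) {j} t ^ 2 := by
    rw [Finset.mul_sum]
    refine Finset.sum_le_sum fun t ht => ?_
    rw [Finset.mem_filter] at ht
    have h1 : ArithmeticFunction.vonMangoldt (a j * t + 1) ≤ (1 + δ) * Real.log T := by
      rw [ArithmeticFunction.vonMangoldt_apply_prime ht.2]
      have h7 := ht.1
      unfold rT at h7
      rw [Finset.mem_range] at h7
      have h8 : (t : ℝ) ≤ 2 * T := by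
        have : t ≤ ⌊2 * T⌋₊ := by omega
        exact (Nat.le_floor_iff (by linarith)).1 this
      have hajQ' : (a j : ℝ) ≤ Q := by exact_mod_cast hajQ
      have h9 : Real.log ((a j * t + 1 : ℕ) : ℝ) ≤ Real.log (3 * Q * T) := by
        apply Real.log_le_log
        · positivity
        · push_cast
          have h10 : (a j : ℝ) * t ≤ Q * (2 * T) := mul_le_mul hajQ' h8 (by positivity) (by positivity)
          nlinarith
      rw [Real.log_mul (by positivity) (by positivity)] at h9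
      have h11 : Real.log (3 * Q) ≤ δ * Real.log T := by
        have h12 : Real.log (3 * Q) / δ ≤ Real.log T := by
          refine le_trans ?_ hLV
          have h2 : 0 ≤ C1 / (ε / 4 * I) := by positivity
          rw [hV]; linarith
        rw [div_le_iff₀ hδ0] at h12
        linarith
      linarith
    calc φ ((t : ℝ) / T) * ArithmeticFunction.vonMangoldt (a j * t + 1) * sM e0 v0 T m (Q * P T) a (fun _ => 1) {j} t ^ 2 =
        ArithmeticFunction.vonMangoldt (a j * t + 1) * (φ ((t : ℝ) / T) * sM e0 v0 T m (Q * P T) a (fun _ => 1) {j} t ^ 2) := by ring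
      _ ≤ (1 + δ) * Real.log T * (φ ((t : ℝ) / T) * sM e0 v0 T m (Q * P T) a (fun _ => 1) {j} t ^ 2) :=
          mul_le_mul_of_nonneg_right h1 (mul_nonneg (hφ.nonneg _) (sq_nonneg _))
  set SP : ℝ := ∑ t ∈ (rT T).filter (fun t => (a j * t + 1).Prime), φ ((t : ℝ) / T) * sM e0 v0 T m (Q * P T) a (fun _ => 1) {j} t ^ 2 with hSP
  have hsplit : TS ≤ (1 + δ) * Real.log T * SP + ε / 4 * I * T := by
    rw [hTS, ← Finset.sum_filter_add_sum_filter_not (rT T) (fun t => (a j * t + 1).Prime)]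
    exact add_le_add hpr (hpp.trans hpp2)
  -- conclusion
  have hMS1 : (F - ε / 4) * u ^ (K + 1) ≤ MS := by
    have := (abs_le.1 hc1).1
    linarith
  have hTS3 : T * I * ((a j : ℝ) / (Nat.totient (a j) : ℝ)) * MS - ε / 4 * I * T ≤ TS := by
    have := (abs_le.1 hTS2).1
    linarith
  have hmain1 : T * I * ((1 - 1 / (P T : ℝ)) * (e0 * Real.log T)) * ((F - ε / 4) * u ^ K) ≤
      T * I * ((a j : ℝ) / (Nat.totient (a j) : ℝ)) * MS := by
    have h1 : T * I * ((a j : ℝ) / (Nat.totient (a j) : ℝ)) * ((F - ε / 4) * u ^ (K + 1)) ≤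
        T * I * ((a j : ℝ) / (Nat.totient (a j) : ℝ)) * MS := mul_le_mul_of_nonneg_left hMS1 (by positivity)
    refine le_trans (le_of_eq ?_) h1
    rw [← hau, pow_succ]
    ring
  have hall : T * I * ((1 - 1 / (P T : ℝ)) * (e0 * Real.log T)) * ((F - ε / 4) * u ^ K) - ε / 2 * I * T ≤
      (1 + δ) * Real.log T * SP := by linarith
  have hLT0 : 0 < Real.log T := by linarith
  have hcoef : 0 < (1 + δ) * Real.log T := by positivity
  have hgoal : (1 + δ) * Real.log T * (T * I * ((e0 * F - ε) * u ^ K)) ≤ (1 + δ) * Real.log T * SP := by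
    refine le_trans ?_ hall
    exact E2_final hL1 (by positivity) huK hFI.1 hFI.2 hε hδ0 hδ1 he0 he1 hPpos hPδ
  exact le_of_mul_le_mul_left hgoal hcoef

end EGF
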