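import Pool.Agent.H6.EG.Red2

/-!
# MP_0e3417: the reduction for all solutions, with no condition on the gaps
-/

open Finset H69LB

namespace EG

open Classical in
theorem red3
    (h : ∀ ε : ℝ, 0 < ε → ∃ K0 N0 : ℕ, ∀ N : ℕ, N0 ≤ N → (N : ℝ) ^ (1 - ε) ≤
      (((range N).filter (fun n : ℕ => (N : ℝ) / Real.exp 1 + 1 ≤ n ∧ n + 1 ≤ N ∧ ∃ p p' : ℕ,
        p.Prime ∧ p'.Prime ∧ p ∣ n ∧ p' ∣ n + 1 ∧ N < K0 * p ∧ N < K0 * p')).card : ℝ))
    {ε : ℝ} (hε : 0 < ε) :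
    Set.Finite {S : Finset ℕ |
        2 ≤ S.card ∧ (∀ x ∈ S, 0 < x) ∧ (∑ x ∈ S, (1 : ℚ) / (x : ℚ)) = 1 ∧
        (((Finset.range (S.sup id)).filter (fun n => (∃ x ∈ S, x < n) ∧ n ∉ S ∧ n + 1 ∉ S)).card : ℝ) <
          ((S.sup id : ℕ) : ℝ) ^ (1 - ε)} := by
  obtain ⟨K0, N0, h⟩ := h ε hε
  set N1 := max N0 (K0.factorial ^ 3) with hN1
  refine Set.Finite.subset (Finset.finite_toSet (Finset.range (N1 + 1)).powerset) ?_
  rintro S ⟨hcard, hpos, hsum, hfew⟩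
  rw [Finset.mem_coe, Finset.mem_powerset]
  have hne : S.Nonempty := Finset.card_pos.mp (by omega)
  set N := S.max' hne with hNdef
  have hNS : N ∈ S := S.max'_mem hne
  have hle : ∀ x ∈ S, x ≤ N := fun x hx => S.le_max' x hx
  have hsup : S.sup id = N := by
    apply le_antisymm
    · exact Finset.sup_le fun x hx => hle x hx
    · exact Finset.le_sup (f := id) hNS
  rw [hsup] at hfew
  by_contra hcon
  have hNbig : N1 ≤ N := by
    by_contra hlt
    refine hcon fun x hx => ?_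
    rw [Finset.mem_range]
    have := hle x hx
    omega
  have hN0N : N0 ≤ N := (le_max_left _ _).trans hNbig
  have hKN : K0.factorial ^ 3 ≤ N := (le_max_right _ _).trans hNbig
  have hmain := h N hN0N
  set x1 := S.min' hne with hx1
  have hx1S : x1 ∈ S := S.min'_mem hne
  have hx1le : ∀ x ∈ S, x1 ≤ x := fun x hx => S.min'_le x hx
  have hsub : (range N).filter (fun n : ℕ => (N : ℝ) / Real.exp 1 + 1 ≤ n ∧ n + 1 ≤ N ∧ ∃ p p' : ℕ,
        p.Prime ∧ p'.Prime ∧ p ∣ n ∧ p' ∣ n + 1 ∧ N < K0 * p ∧ N < K0 * p') ⊆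
      (Finset.range N).filter (fun n => (∃ x ∈ S, x < n) ∧ n ∉ S ∧ n + 1 ∉ S) := by
    intro n hn
    rw [Finset.mem_filter] at hn ⊢
    obtain ⟨hnN, hn1, hn2, p, p', hp, hp', hpn, hpn', hNp, hNp'⟩ := hn
    have hnS : n ∉ S := fun hn => Red_prime S hpos hsum K0 N p hp hle hNp hKN n hn hpn
    have hnS' : n + 1 ∉ S := fun hn => Red_prime S hpos hsum K0 N p' hp' hle hNp' hKN (n + 1) hn hpn'
    have hx1n := red_min S hcard hpos hsum hNS hle hx1S hx1le hn1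
    have hx1lt : x1 < n := lt_of_le_of_ne hx1n fun h1 => hnS (h1 ▸ hx1S)
    exact ⟨hnN, ⟨x1, hx1S, hx1lt⟩, hnS, hnS'⟩
  have h2 := Finset.card_le_card hsub
  have h3 : ((((range N).filter (fun n : ℕ => (N : ℝ) / Real.exp 1 + 1 ≤ n ∧ n + 1 ≤ N ∧ ∃ p p' : ℕ,
        p.Prime ∧ p'.Prime ∧ p ∣ n ∧ p' ∣ n + 1 ∧ N < K0 * p ∧ N < K0 * p')).card : ℕ) : ℝ) ≤
      (((Finset.range N).filter (fun n => (∃ x ∈ S, x < n) ∧ n ∉ S ∧ n + 1 ∉ S)).card : ℝ) := by
    exact_mod_cast h2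
  linarith

open Classical in
/-- the missing pairs lie in the gaps that are at least `3` -/
theorem pairs_le (S : Finset ℕ) (c : ℕ)
    (hgap : ∀ x ∈ S, ∀ y ∈ S, x < y → ∃ z ∈ S, x < z ∧ z ≤ x + c) :
    ((Finset.range (S.sup id)).filter (fun n => (∃ x ∈ S, x < n) ∧ n ∉ S ∧ n + 1 ∉ S)).card ≤
      c * (S.filter (fun x => (∃ y ∈ S, x < y) ∧ ∀ y ∈ S, x < y → x + 3 ≤ y)).card := by
  set F := (Finset.range (S.sup id)).filter (fun n => (∃ x ∈ S, x < n) ∧ n ∉ S ∧ n + 1 ∉ S) with hF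
  set G := S.filter (fun x => (∃ y ∈ S, x < y) ∧ ∀ y ∈ S, x < y → x + 3 ≤ y) with hG
  have key : ∀ n ∈ F, ∃ x ∈ G, x < n ∧ n < x + c := by
    intro n hn
    rw [hF, Finset.mem_filter, Finset.mem_range] at hn
    obtain ⟨hnN, ⟨x1, hx1S, hx1lt⟩, hnS, hnS'⟩ := hn
    have hne : S.Nonempty := ⟨x1, hx1S⟩
    have hNS : S.sup id ∈ S := by
      have h1 : S.sup id = S.max' hne := by
        apply le_antisymm
        · exact Finset.sup_le fun x hx => S.le_max' x hx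
        · exact Finset.le_sup (f := id) (S.max'_mem hne)
      rw [h1]
      exact S.max'_mem hne
    have hne2 : (S.filter (· < n)).Nonempty := ⟨x1, Finset.mem_filter.mpr ⟨hx1S, hx1lt⟩⟩
    obtain ⟨x, hx⟩ : ∃ x, x = (S.filter (· < n)).max' hne2 := ⟨_, rfl⟩
    have hxS := (S.filter (· < n)).max'_mem hne2
    rw [← hx, Finset.mem_filter] at hxS
    have hnext : ∀ y ∈ S, x < y → n + 2 ≤ y := by
      intro y hy hxy
      have hny : n ≤ y := by
        by_contra hlt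
        have h1 := (S.filter (· < n)).le_max' y (Finset.mem_filter.mpr ⟨hy, by omega⟩)
        rw [← hx] at h1
        omega
      have hz3 : y ≠ n := fun h1 => hnS (h1 ▸ hy)
      have hz4 : y ≠ n + 1 := fun h1 => hnS' (h1 ▸ hy)
      omega
    obtain ⟨z, hzS, hz1, hz2⟩ := hgap x hxS.1 (S.sup id) hNS (by omega)
    have hz3 := hnext z hzS hz1
    refine ⟨x, ?_, hxS.2, by omega⟩
    rw [hG, Finset.mem_filter]
    refine ⟨hxS.1, ⟨z, hzS, hz1⟩, fun y hy hxy => ?_⟩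
    have := hnext y hy hxy
    omega
  have hsub : F ⊆ G.biUnion (fun x => Finset.Ioo x (x + c)) := by
    intro n hn
    obtain ⟨x, hx, h1, h2⟩ := key n hn
    rw [Finset.mem_biUnion]
    exact ⟨x, hx, Finset.mem_Ioo.2 ⟨h1, h2⟩⟩
  calc F.card ≤ (G.biUnion (fun x => Finset.Ioo x (x + c))).card := Finset.card_le_card hsub
    _ ≤ ∑ x ∈ G, (Finset.Ioo x (x + c)).card := Finset.card_biUnion_le
    _ ≤ ∑ _x ∈ G, c := by
        refine Finset.sum_le_sum fun x _ => ?_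
        rw [Nat.card_Ioo]
        omega
    _ = c * G.card := by rw [Finset.sum_const, smul_eq_mul, mul_comm]

end EG
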